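import Mathlib
import Pool.Agent.Lib.MP_fd6ff4_co.R43.Fan

/-!
# Piecewise linear homogeneous functions on the orthant

`IsPL φ`: there is a finite set `L` of linear functionals such that `φ` is linear on every closed
cell of the central arrangement `L` in the orthant `{x | 0 ≤ x}`.
-/

set_option autoImplicit false

open Finset

namespace Pool.Agent.Lib.MP_fd6ff4_co.R43

variable {ι : Type*} [Fintype ι] [DecidableEq ι]

/-- `x` is in the closed cell of `y` of the central arrangement `L` -/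
def SgnLe (L : Set ((ι → ℝ) →ₗ[ℝ] ℝ)) (x y : ι → ℝ) : Prop :=
  ∀ m ∈ L, (0 < m x → 0 < m y) ∧ (m x < 0 → m y < 0)

/-- `φ` is linear on the closed cells of `L` in the orthant -/
def PLOn (L : Set ((ι → ℝ) →ₗ[ℝ] ℝ)) (φ : (ι → ℝ) → ℝ) : Prop :=
  ∀ y : ι → ℝ, (∀ i, 0 ≤ y i) → ∃ A : (ι → ℝ) →ₗ[ℝ] ℝ,
    ∀ x : ι → ℝ, (∀ i, 0 ≤ x i) → SgnLe L x y → φ x = A x

/-- `φ` is a piecewise linear homogeneous function on the orthant -/
def IsPL (φ : (ι → ℝ) → ℝ) : Prop :=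
  ∃ L : Set ((ι → ℝ) →ₗ[ℝ] ℝ), L.Finite ∧ PLOn L φ

theorem PLOn.mono {L L' : Set ((ι → ℝ) →ₗ[ℝ] ℝ)} (h : L ⊆ L') {φ : (ι → ℝ) → ℝ}
    (hφ : PLOn L φ) : PLOn L' φ := fun y hy => by
  obtain ⟨A, hA⟩ := hφ y hy
  exact ⟨A, fun x hx hxy => hA x hx fun m hm => hxy m (h hm)⟩

theorem IsPL.linear (A : (ι → ℝ) →ₗ[ℝ] ℝ) : IsPL (fun x => A x) :=
  ⟨∅, Set.finite_empty, fun _ _ => ⟨A, fun _ _ _ => rfl⟩⟩

theorem IsPL.add {φ ψ : (ι → ℝ) → ℝ} (hφ : IsPL φ) (hψ : IsPL ψ) : IsPL (fun x => φ x + ψ x) := by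
  obtain ⟨L, hL, h⟩ := hφ
  obtain ⟨L', hL', h'⟩ := hψ
  refine ⟨L ∪ L', hL.union hL', fun y hy => ?_⟩
  obtain ⟨A, hA⟩ := (h.mono (Set.subset_union_left (t := L'))) y hy
  obtain ⟨B, hB⟩ := (h'.mono (Set.subset_union_right (s := L))) y hy
  exact ⟨A + B, fun x hx hxy => by simp [hA x hx hxy, hB x hx hxy]⟩

theorem IsPL.smul {φ : (ι → ℝ) → ℝ} (hφ : IsPL φ) (c : ℝ) : IsPL (fun x => c * φ x) := by
  obtain ⟨L, hL, h⟩ := hφ
  refine ⟨L, hL, fun y hy => ?_⟩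
  obtain ⟨A, hA⟩ := h y hy
  exact ⟨c • A, fun x hx hxy => by simp [hA x hx hxy]⟩

theorem IsPL.sum {κ : Type*} (s : Finset κ) {φ : κ → (ι → ℝ) → ℝ} (hφ : ∀ k ∈ s, IsPL (φ k)) :
    IsPL (fun x => ∑ k ∈ s, φ k x) := by
  classical
  induction s using Finset.induction_on with
  | empty => simpa using IsPL.linear (0 : (ι → ℝ) →ₗ[ℝ] ℝ)
  | insert a s ha ih =>
    simp only [Finset.sum_insert ha]
    exact (hφ a (mem_insert_self a s)).add (ih fun k hk => hφ k (mem_insert_of_mem hk))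

/-- the closed cell of a sign pattern -/
def pcell (L : Set ((ι → ℝ) →ₗ[ℝ] ℝ)) (p : L → SignType) : Set (ι → ℝ) :=
  {x | ∀ m : L, (0 < m.1 x → p m = 1) ∧ (m.1 x < 0 → p m = -1)}

/-- the sign pattern of a point -/
noncomputable def psign (L : Set ((ι → ℝ) →ₗ[ℝ] ℝ)) (y : ι → ℝ) : L → SignType :=
  fun m => SignType.sign (m.1 y)

omit [Fintype ι] [DecidableEq ι] in
theorem sgnLe_iff {L : Set ((ι → ℝ) →ₗ[ℝ] ℝ)} {x y : ι → ℝ} :
    SgnLe L x y ↔ x ∈ pcell L (psign L y) := by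
  constructor
  · intro h m
    exact ⟨fun hm => sign_eq_one_iff.2 ((h m.1 m.2).1 hm),
      fun hm => sign_eq_neg_one_iff.2 ((h m.1 m.2).2 hm)⟩
  · intro h m hm
    exact ⟨fun hx => sign_eq_one_iff.1 ((h ⟨m, hm⟩).1 hx),
      fun hx => sign_eq_neg_one_iff.1 ((h ⟨m, hm⟩).2 hx)⟩

omit [DecidableEq ι] in
theorem isClosed_pcell (L : Set ((ι → ℝ) →ₗ[ℝ] ℝ)) (p : L → SignType) :
    IsClosed (pcell L p) := by
  have e : pcell L p = ⋂ m : L, ({x | 0 < m.1 x → p m = 1} ∩ {x | m.1 x < 0 → p m = -1}) := by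
    ext x
    simp [pcell]
  rw [e]
  refine isClosed_iInter fun m => ?_
  have hc : Continuous fun x : ι → ℝ => m.1 x := m.1.continuous_of_finiteDimensional
  refine IsClosed.inter ?_ ?_
  · by_cases h : p m = 1
    · simp [h]
    · have : {x : ι → ℝ | 0 < m.1 x → p m = 1} = {x | m.1 x ≤ 0} := by
        ext x
        simp [h]
      rw [this]
      exact isClosed_le hc continuous_const
  · by_cases h : p m = -1
    · simp [h]
    · have : {x : ι → ℝ | m.1 x < 0 → p m = -1} = {x | 0 ≤ m.1 x} := by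
        ext x
        simp [h]
      rw [this]
      exact isClosed_le continuous_const hc

omit [DecidableEq ι] [Fintype ι] in
theorem PLOn.pieces {L : Set ((ι → ℝ) →ₗ[ℝ] ℝ)} {φ : (ι → ℝ) → ℝ} (h : PLOn L φ) :
    ∃ A : (L → SignType) → ((ι → ℝ) →ₗ[ℝ] ℝ), ∀ y : ι → ℝ, (∀ i, 0 ≤ y i) →
      ∀ x : ι → ℝ, (∀ i, 0 ≤ x i) → SgnLe L x y → φ x = A (psign L y) x := by
  have key : ∀ p : L → SignType, ∃ A : (ι → ℝ) →ₗ[ℝ] ℝ, ∀ y : ι → ℝ, (∀ i, 0 ≤ y i) →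
      psign L y = p → ∀ x : ι → ℝ, (∀ i, 0 ≤ x i) → SgnLe L x y → φ x = A x := by
    intro p
    by_cases hp : ∃ y : ι → ℝ, (∀ i, 0 ≤ y i) ∧ psign L y = p
    · obtain ⟨y0, hy0, e⟩ := hp
      obtain ⟨A, hA⟩ := h y0 hy0
      refine ⟨A, fun y _ ey x hx hxy => hA x hx ?_⟩
      rw [sgnLe_iff, e, ← ey]
      exact sgnLe_iff.1 hxy
    · exact ⟨0, fun y hy e => absurd ⟨y, hy, e⟩ hp⟩
  choose A hA using key
  exact ⟨A, fun y hy x hx hxy => hA _ y hy rfl x hx hxy⟩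

/-- PROOF. Let `L` be good for both functions (`PLOn.mono`, union). There are finitely many closed
cells: choose for every sign pattern `L → SignType` of a point of the orthant linear maps `A, B` for
`φ, ψ`, and add all the differences `A - B` to `L`. On a closed cell of the bigger arrangement
`A - B` has one sign (weakly). -/
theorem IsPL.sup {φ ψ : (ι → ℝ) → ℝ} (hφ : IsPL φ) (hψ : IsPL ψ) :
    IsPL (fun x => max (φ x) (ψ x)) := by
  obtain ⟨L₁, hL₁, h₁⟩ := hφ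
  obtain ⟨L₂, hL₂, h₂⟩ := hψ
  have hL : (L₁ ∪ L₂).Finite := hL₁.union hL₂
  obtain ⟨A, hA⟩ := (h₁.mono (Set.subset_union_left (t := L₂))).pieces
  obtain ⟨B, hB⟩ := (h₂.mono (Set.subset_union_right (s := L₁))).pieces
  generalize L₁ ∪ L₂ = L at hL A B hA hB
  have : Finite L := hL.to_subtype
  refine ⟨L ∪ Set.range fun p : L → SignType => A p - B p,
    hL.union (Set.finite_range _), fun y hy => ?_⟩
  have hLe : ∀ x, SgnLe (L ∪ Set.range fun p : L → SignType => A p - B p) x y → SgnLe L x y :=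
    fun x hxy m hm => hxy m (Or.inl hm)
  by_cases hs : (A (psign L y) - B (psign L y)) y < 0
  · refine ⟨B (psign L y), fun x hx hxy => ?_⟩
    have h1 := hxy (A (psign L y) - B (psign L y)) (Or.inr ⟨_, rfl⟩)
    have h2 : ¬ 0 < (A (psign L y) - B (psign L y)) x := fun h => lt_asymm hs (h1.1 h)
    rw [LinearMap.sub_apply] at h2
    have e1 := hA y hy x hx (hLe x hxy)
    have e2 := hB y hy x hx (hLe x hxy)
    exact (max_eq_right (by linarith)).trans e2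
  · refine ⟨A (psign L y), fun x hx hxy => ?_⟩
    have h1 := hxy (A (psign L y) - B (psign L y)) (Or.inr ⟨_, rfl⟩)
    have h2 : ¬ (A (psign L y) - B (psign L y)) x < 0 := fun h => hs (h1.2 h)
    rw [LinearMap.sub_apply] at h2
    have e1 := hA y hy x hx (hLe x hxy)
    have e2 := hB y hy x hx (hLe x hxy)
    exact (max_eq_left (by linarith)).trans e1

theorem IsPL.inf {φ ψ : (ι → ℝ) → ℝ} (hφ : IsPL φ) (hψ : IsPL ψ) :
    IsPL (fun x => min (φ x) (ψ x)) := by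
  have h := ((hφ.smul (-1)).sup (hψ.smul (-1))).smul (-1)
  have e : (fun x => min (φ x) (ψ x)) = fun x => -1 * max (-1 * φ x) (-1 * ψ x) := by
    funext x
    rw [neg_one_mul, neg_one_mul, neg_one_mul, max_neg_neg, neg_neg]
  rw [e]
  exact h

/-- PROOF. Precompose the functionals and the linear pieces with `p`. -/
theorem IsPL.comp {κ : Type*} [Fintype κ] [DecidableEq κ] {φ : (κ → ℝ) → ℝ} (hφ : IsPL φ)
    (p : (ι → ℝ) →ₗ[ℝ] (κ → ℝ)) (hp : ∀ x : ι → ℝ, (∀ i, 0 ≤ x i) → ∀ k, 0 ≤ p x k) :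
    IsPL (fun x => φ (p x)) := by
  obtain ⟨L, hL, h⟩ := hφ
  refine ⟨(fun m : (κ → ℝ) →ₗ[ℝ] ℝ => m ∘ₗ p) '' L, hL.image _, fun y hy => ?_⟩
  obtain ⟨A, hA⟩ := h (p y) (hp y hy)
  refine ⟨A ∘ₗ p, fun x hx hxy => ?_⟩
  rw [LinearMap.comp_apply]
  exact hA (p x) (hp x hx) fun m hm => hxy (m ∘ₗ p) ⟨m, hm, rfl⟩

/-- a finite common arrangement for finitely many functions -/
theorem IsPL.common {κ : Type*} [Finite κ] {φ : κ → (ι → ℝ) → ℝ} (hφ : ∀ k, IsPL (φ k)) :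
    ∃ L : Set ((ι → ℝ) →ₗ[ℝ] ℝ), L.Finite ∧ ∀ k, PLOn L (φ k) := by
  choose L hL h using hφ
  exact ⟨⋃ k, L k, Set.finite_iUnion hL, fun k => (h k).mono (Set.subset_iUnion L k)⟩

theorem IsPL.zero {φ : (ι → ℝ) → ℝ} (hφ : IsPL φ) : φ 0 = 0 := by
  obtain ⟨L, -, h⟩ := hφ
  obtain ⟨A, hA⟩ := h 0 fun _ => le_rfl
  rw [hA 0 (fun _ => le_rfl) fun m _ => ⟨fun h => h, fun h => h⟩, map_zero]

theorem IsPL.homog {φ : (ι → ℝ) → ℝ} (hφ : IsPL φ) {c : ℝ} (hc : 0 ≤ c) {x : ι → ℝ}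
    (hx : ∀ i, 0 ≤ x i) : φ (c • x) = c * φ x := by
  obtain ⟨L, -, h⟩ := hφ
  obtain ⟨A, hA⟩ := h x hx
  rw [hA x hx fun m _ => ⟨fun h => h, fun h => h⟩,
    hA (c • x) (fun i => mul_nonneg hc (hx i)) fun m _ => ?_, map_smul, smul_eq_mul]
  rw [map_smul, smul_eq_mul]
  refine ⟨fun h => ?_, fun h => ?_⟩
  · by_contra hm
    exact absurd h (not_lt.2 (mul_nonpos_of_nonneg_of_nonpos hc (not_lt.1 hm)))
  · by_contra hm
    exact absurd h (not_lt.2 (mul_nonneg hc (not_lt.1 hm)))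

/-- PROOF. Finitely many closed cells cover the orthant, `φ` is linear on each: `lipschitz_glue`. -/
theorem IsPL.lipschitz {φ : (ι → ℝ) → ℝ} (hφ : IsPL φ) :
    ∃ c : NNReal, LipschitzOnWith c φ {x | ∀ i, 0 ≤ x i} := by
  classical
  obtain ⟨L, hL, h⟩ := hφ
  obtain ⟨A, hA⟩ := h.pieces
  have : Finite L := hL.to_subtype
  have := Fintype.ofFinite (L → SignType)
  set k : (L → SignType) → NNReal := fun p => ‖LinearMap.toContinuousLinearMap (A p)‖₊ with hk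
  refine ⟨Finset.univ.sup k, ?_⟩
  refine lipschitz_glue (J := L → SignType) ?_
    (fun p => {x | x ∈ pcell L p ∧ ∃ y : ι → ℝ, (∀ i, 0 ≤ y i) ∧ psign L y = p}) ?_ ?_ ?_
  · intro x hx y hy a b ha hb _ i
    exact add_nonneg (mul_nonneg ha (hx i)) (mul_nonneg hb (hy i))
  · intro p
    by_cases hp : ∃ y : ι → ℝ, (∀ i, 0 ≤ y i) ∧ psign L y = p
    · have : {x | x ∈ pcell L p ∧ ∃ y : ι → ℝ, (∀ i, 0 ≤ y i) ∧ psign L y = p} = pcell L p := by
        ext x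
        simp only [Set.mem_ofPred_eq]
        exact ⟨fun h => h.1, fun h => ⟨h, hp⟩⟩
      rw [this]
      exact isClosed_pcell L p
    · have : {x | x ∈ pcell L p ∧ ∃ y : ι → ℝ, (∀ i, 0 ≤ y i) ∧ psign L y = p} = ∅ := by
        ext x
        simp only [Set.mem_ofPred_eq, Set.mem_empty_iff_false, iff_false]
        exact fun h => hp h.2
      rw [this]
      exact isClosed_empty
  · intro x hx
    refine Set.mem_iUnion.2 ⟨psign L x, ?_, x, hx, rfl⟩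
    exact sgnLe_iff.1 fun m _ => ⟨fun h => h, fun h => h⟩
  · rintro p
    have hl : LipschitzWith (Finset.univ.sup k) (A p) := by
      refine LipschitzWith.weaken (K := k p) ?_ (Finset.le_sup (Finset.mem_univ p))
      exact (LinearMap.toContinuousLinearMap (A p)).lipschitz
    have he : ∀ x ∈ {x : ι → ℝ | ∀ i, 0 ≤ x i} ∩
        {x | x ∈ pcell L p ∧ ∃ y : ι → ℝ, (∀ i, 0 ≤ y i) ∧ psign L y = p}, φ x = A p x := by
      rintro x ⟨hx, hxp, y, hy, e⟩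
      subst e
      exact hA y hy x hx (sgnLe_iff.2 hxp)
    intro x hx y hy
    rw [he x hx, he y hy]
    exact hl x y

theorem IsPL.continuousOn {φ : (ι → ℝ) → ℝ} (hφ : IsPL φ) :
    ContinuousOn φ {x | ∀ i, 0 ≤ x i} := by
  obtain ⟨c, hc⟩ := hφ.lipschitz
  exact hc.continuousOn

end Pool.Agent.Lib.MP_fd6ff4_co.R43
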