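import Mathlib
import Pool.Agent.Lib.MP_fd6ff4_co.R43.Words
import Pool.Agent.Lib.MP_fd6ff4_co.R43.T1.PL

/-!
# T1: the positions, the collar and the statement of the near-boundary claim

The sheet `f` has the fibre coordinates `xf f` (real, linear) and `Y f` (complex). Near the boundary
of the base simplex `Y f = Y0 f = zf f + ∑ k, bh k f`, where `zf f` is linear and `bh k f` only
depends on the coordinates `≠ k` and on the letters of `f` at the colours `≠ k`.
-/

set_option autoImplicit false

open Finset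

namespace Pool.Agent.Lib.MP_fd6ff4_co.R43

abbrev Word : Type := Fin 4 → Fin 3

/-- the words agree on the support of `l` -/
def Agree (f g : Word) (l : Fin 4 → ℝ) : Prop := ∀ i, l i ≠ 0 → f i = g i

/-- the base simplex -/
abbrev DD : Set (Fin 4 → ℝ) := stdSimplex ℝ (Fin 4)

/-- The positions and the collar. `x i l` and `z i l` are the fibre coordinates of the letter `l` of
the colour `i`. `bh k f` only depends on the coordinates and letters off `k`, is piecewise linear,
and vanishes unless all the coordinates off `k` are at least `w` times their sum. -/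
structure Collar where
  x : Fin 4 → Fin 3 → ℝ
  z : Fin 4 → Fin 3 → ℂ
  x_inj : ∀ i, Function.Injective (x i)
  /-- (K2): the planes `xf f = xf g` and `xf f = xf h` are different -/
  planes : ∀ f ∈ words, ∀ g ∈ words, ∀ h ∈ words, f ≠ g → f ≠ h → g ≠ h →
    (∃ i j, (x i (f i) - x i (g i)) * (x j (f j) - x j (h j)) ≠
      (x j (f j) - x j (g j)) * (x i (f i) - x i (h i))) ∨
    ∃ i, ∀ j, j ≠ i → f j = g j ∧ f j = h j
  bh : Fin 4 → Word → (Fin 4 → ℝ) → ℂ
  re_pl : ∀ k f, IsPL fun l => (bh k f l).re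
  im_pl : ∀ k f, IsPL fun l => (bh k f l).im
  coord : ∀ k f l l', (∀ j, j ≠ k → l j = l' j) → bh k f l = bh k f l'
  letter : ∀ k f g, (∀ j, j ≠ k → f j = g j) → bh k f = bh k g
  w : ℝ
  w_pos : 0 < w
  supp : ∀ k f l, (∀ j, 0 ≤ l j) → bh k f l ≠ 0 → ∀ j, j ≠ k → w * ∑ i ∈ univ.erase k, l i ≤ l j

namespace Collar

variable (C : Collar)

/-- the real fibre coordinate of the sheet `f` -/
noncomputable def xf (f : Word) : (Fin 4 → ℝ) →ₗ[ℝ] ℝ := ∑ i, C.x i (f i) • LinearMap.proj i

theorem xf_apply (f : Word) (l : Fin 4 → ℝ) : C.xf f l = ∑ i, C.x i (f i) * l i := by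
  simp [xf]

/-- the linear part of the complex coordinate of the sheet `f` -/
noncomputable def zf (f : Word) (l : Fin 4 → ℝ) : ℂ := ∑ i, (l i : ℂ) * C.z i (f i)

/-- the complex coordinate of the sheet `f` near the boundary -/
noncomputable def Y0 (f : Word) (l : Fin 4 → ℝ) : ℂ := C.zf f l + ∑ k, C.bh k f l

/-- the points of the base simplex over which the real coordinates of the sheets `f` and `g`
agree -/
def PP (f g : Word) : Set (Fin 4 → ℝ) := {l | l ∈ DD ∧ C.xf f l = C.xf g l}

/-- The near-boundary claim: for two facets `f ≠ g` the function `Y0 f - Y0 g` has a continuous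
logarithm on the part `min l ≤ ε` of `PP f g`, off the face where `f` and `g` agree (in particular
it has no zero there). -/
def Near (ε : ℝ) : Prop :=
  ∀ f ∈ words, ∀ g ∈ words, f ≠ g → ∃ L : (Fin 4 → ℝ) → ℂ,
    ContinuousOn L {l | l ∈ C.PP f g ∧ (∃ i, l i ≤ ε) ∧ ¬ Agree f g l} ∧
    ∀ l ∈ C.PP f g, (∃ i, l i ≤ ε) → ¬ Agree f g l → Complex.exp (L l) = C.Y0 f l - C.Y0 g l

end Collar

end Pool.Agent.Lib.MP_fd6ff4_co.R43
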