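import Pool.Agent.Lib.MP_fd6ff4_co.R43.T1.PathLogA

/-!
# Paths of distinct points in the plane with prescribed logarithms of the differences, second part
-/

set_option autoImplicit false

open Finset

namespace Pool.Agent.Lib.MP_fd6ff4_co.R43

/-- the configurations with logarithms of the differences of equivalent points in `I` -/
def LogSet {N : ℕ} (r : Fin N → Fin N → Prop) (I : Finset (Fin N)) :
    Set ((Fin N → ℂ) × (Fin N → Fin N → ℂ)) :=
  {p | ∀ i ∈ I, ∀ j ∈ I, i < j → r i j → Complex.exp (p.2 i j) = p.1 i - p.1 j}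

open Classical in
/-- the coordinate `h` is changed to `z`, the logarithms of the differences with the points `f`, `S f`,
are changed to `l f` -/
noncomputable def setc {N : ℕ} (h : Fin N) (S : Fin N → Prop)
    (c : (Fin N → ℂ) × (Fin N → Fin N → ℂ)) (z : ℂ) (l : Fin N → ℂ) :
    (Fin N → ℂ) × (Fin N → Fin N → ℂ) :=
  (Function.update c.1 h z, fun i j =>
    if j = h ∧ S i ∧ i < h then l i else if i = h ∧ S j ∧ h < j then l j else c.2 i j)

theorem setc_lt {N : ℕ} {h : Fin N} {S : Fin N → Prop}
    {c : (Fin N → ℂ) × (Fin N → Fin N → ℂ)} {z : ℂ} {l : Fin N → ℂ} {i : Fin N} (hi : S i)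
    (hih : i < h) : (setc h S c z l).2 i h = l i :=
  if_pos ⟨rfl, hi, hih⟩

theorem setc_gt {N : ℕ} {h : Fin N} {S : Fin N → Prop}
    {c : (Fin N → ℂ) × (Fin N → Fin N → ℂ)} {z : ℂ} {l : Fin N → ℂ} {j : Fin N} (hj : S j)
    (hhj : h < j) : (setc h S c z l).2 h j = l j :=
  (if_neg fun hh => hhj.ne' hh.1).trans (if_pos ⟨rfl, hj, hhj⟩)

theorem setc_other {N : ℕ} {h : Fin N} {S : Fin N → Prop}
    {c : (Fin N → ℂ) × (Fin N → Fin N → ℂ)} {z : ℂ} {l : Fin N → ℂ} {i j : Fin N}
    (h1 : ¬ (j = h ∧ S i ∧ i < h)) (h2 : ¬ (i = h ∧ S j ∧ h < j)) :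
    (setc h S c z l).2 i j = c.2 i j :=
  (if_neg h1).trans (if_neg h2)

theorem continuousOn_setc {X : Type*} [TopologicalSpace X] {s : Set X} {N : ℕ} (h : Fin N)
    (S : Fin N → Prop) {c : X → (Fin N → ℂ) × (Fin N → Fin N → ℂ)} {z : X → ℂ}
    {l : X → Fin N → ℂ} (hc : ContinuousOn c s) (hz : ContinuousOn z s)
    (hl : ∀ f, S f → ContinuousOn (fun x => l x f) s) :
    ContinuousOn (fun x => setc h S (c x) (z x) (l x)) s := by
  classical
  refine ContinuousOn.prodMk ?_ ?_
  · rw [continuousOn_pi]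
    intro i
    rcases eq_or_ne i h with rfl | hi
    · simpa [Function.update_self] using hz
    · simp only [Function.update_of_ne hi]
      exact (continuousOn_pi.1 hc.fst) i
  · rw [continuousOn_pi]
    intro i
    rw [continuousOn_pi]
    intro j
    by_cases h1 : j = h ∧ S i ∧ i < h
    · simp only [if_pos h1]
      exact hl i h1.2.1
    · by_cases h2 : i = h ∧ S j ∧ h < j
      · simp only [if_neg h1, if_pos h2]
        exact hl j h2.2.1
      · simp only [if_neg h1, if_neg h2]
        exact continuousOn_pi.1 ((continuousOn_pi.1 hc.snd) i) j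

theorem setc_mem {N : ℕ} {r : Fin N → Fin N → Prop} (hr : Equivalence r) {J : Finset (Fin N)}
    {h : Fin N} {c : (Fin N → ℂ) × (Fin N → Fin N → ℂ)} (hc : c ∈ LogSet r J) (hJ : h ∉ J)
    {z : ℂ} {l : Fin N → ℂ} (hl : ∀ f ∈ J, r f h →
      (f < h → Complex.exp (l f) = c.1 f - z) ∧ (h < f → Complex.exp (l f) = z - c.1 f)) :
    setc h (fun f => f ∈ J ∧ r f h) c z l ∈ LogSet r (insert h J) := by
  classical
  intro i hi j hj hij hrij
  rw [Finset.mem_insert] at hi hj
  rcases hi with rfl | hi
  · have hji : j ≠ i := hij.ne'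
    have hjJ : j ∈ J := hj.resolve_left hji
    rw [setc_gt (S := fun f => f ∈ J ∧ r f i) ⟨hjJ, hr.symm hrij⟩ hij]
    change _ = Function.update c.1 i z i - Function.update c.1 i z j
    rw [Function.update_self, Function.update_of_ne hji]
    exact (hl j hjJ (hr.symm hrij)).2 hij
  · have hih : i ≠ h := fun e => hJ (e ▸ hi)
    rcases hj with rfl | hj
    · rw [setc_lt (S := fun f => f ∈ J ∧ r f j) ⟨hi, hrij⟩ hij]
      change _ = Function.update c.1 j z i - Function.update c.1 j z j
      rw [Function.update_self, Function.update_of_ne hih]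
      exact (hl i hi hrij).1 hij
    · have hjh : j ≠ h := fun e => hJ (e ▸ hj)
      rw [setc_other (fun hh => hjh hh.1) (fun hh => hih hh.1)]
      change _ = Function.update c.1 h z i - Function.update c.1 h z j
      rw [Function.update_of_ne hih, Function.update_of_ne hjh]
      exact hc i hi j hj hij hrij

/-- Only the coordinate `h` moves. -/
theorem logSet_step {N : ℕ} {r : Fin N → Fin N → Prop} (hr : Equivalence r)
    {J : Finset (Fin N)} {h : Fin N} (hJ : h ∉ J) {c : (Fin N → ℂ) × (Fin N → Fin N → ℂ)}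
    (hc : c ∈ LogSet r (insert h J)) {z : ℂ} {l : Fin N → ℂ} (hl : ∀ f ∈ J, r f h →
      (f < h → Complex.exp (l f) = c.1 f - z) ∧ (h < f → Complex.exp (l f) = z - c.1 f)) :
    JoinedIn (LogSet r (insert h J)) c (setc h (fun f => f ∈ J ∧ r f h) c z l) := by
  classical
  have hcJ : c ∈ LogSet r J := fun i hi j hj =>
    hc i (Finset.mem_insert_of_mem hi) j (Finset.mem_insert_of_mem hj)
  let K : Type := {f : Fin N // f ∈ J ∧ r f h}
  let w : K → ℂ := fun f => c.1 f.1
  let s : K → ℂ := fun f => if h < f.1 then 1 else -1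
  have hne : ∀ f : K, f.1 ≠ h := fun f e => hJ (e ▸ f.2.1)
  have hw : Function.Injective w := by
    intro f g hfg
    by_contra hcon
    have hfg' : f.1 ≠ g.1 := fun e => hcon (Subtype.ext e)
    have key : ∀ a b : K, a.1 < b.1 → w a ≠ w b := by
      intro a b hab heq
      have h1 := hcJ a.1 a.2.1 b.1 b.2.1 hab (hr.trans a.2.2 (hr.symm b.2.2))
      have h2 : c.1 a.1 - c.1 b.1 = 0 := sub_eq_zero.2 heq
      rw [h2] at h1
      exact Complex.exp_ne_zero _ h1
    rcases lt_or_gt_of_ne hfg' with h1 | h1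
    · exact key f g h1 hfg
    · exact key g f h1 hfg.symm
  let l0 : K → ℂ := fun f => if f.1 < h then c.2 f.1 h else c.2 h f.1
  have hp : (c.1 h, l0) ∈ SingleSet w s := by
    intro f
    change Complex.exp (if f.1 < h then c.2 f.1 h else c.2 h f.1) =
      (if h < f.1 then 1 else -1) * (c.1 h - c.1 f.1)
    rcases lt_or_gt_of_ne (hne f) with h1 | h1
    · rw [if_pos h1, if_neg h1.asymm, hc f.1 (Finset.mem_insert_of_mem f.2.1) h
        (Finset.mem_insert_self _ _) h1 f.2.2]
      ring
    · rw [if_neg h1.asymm, if_pos h1, hc h (Finset.mem_insert_self _ _) f.1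
        (Finset.mem_insert_of_mem f.2.1) h1 (hr.symm f.2.2)]
      ring
  have hq : (z, fun f : K => l f.1) ∈ SingleSet w s := by
    intro f
    change Complex.exp (l f.1) = (if h < f.1 then 1 else -1) * (z - c.1 f.1)
    rcases lt_or_gt_of_ne (hne f) with h1 | h1
    · rw [if_neg h1.asymm, (hl f.1 f.2.1 f.2.2).1 h1]
      ring
    · rw [if_pos h1, (hl f.1 f.2.1 f.2.2).2 h1]
      ring
  let φ : ℂ × (K → ℂ) → (Fin N → ℂ) × (Fin N → Fin N → ℂ) := fun p =>
    setc h (fun f => f ∈ J ∧ r f h) c p.1
      (fun f => if hf : f ∈ J ∧ r f h then p.2 ⟨f, hf⟩ else 0)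
  have hφ : Continuous φ := by
    rw [← continuousOn_univ]
    refine continuousOn_setc h _ continuousOn_const continuous_fst.continuousOn fun f hf => ?_
    simp only [dif_pos hf]
    exact ((continuous_apply _).comp continuous_snd).continuousOn
  have hmem : φ '' SingleSet w s ⊆ LogSet r (insert h J) := by
    rintro _ ⟨p, hp, rfl⟩
    refine setc_mem hr hcJ hJ fun f hf hrf => ?_
    have h1 := hp ⟨f, hf, hrf⟩
    change Complex.exp (p.2 ⟨f, hf, hrf⟩) = (if h < f then 1 else -1) * (p.1 - c.1 f) at h1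
    rw [dif_pos (⟨hf, hrf⟩ : f ∈ J ∧ r f h)]
    refine ⟨fun h2 => ?_, fun h2 => ?_⟩
    · rw [h1, if_neg h2.asymm]
      ring
    · rw [h1, if_pos h2, one_mul]
  have h0 : φ (c.1 h, l0) = c := by
    refine Prod.ext ?_ ?_
    · funext i
      change Function.update c.1 h (c.1 h) i = c.1 i
      rw [Function.update_eq_self]
    · funext i j
      by_cases h1 : j = h ∧ (i ∈ J ∧ r i h) ∧ i < h
      · obtain ⟨rfl, hi, hih⟩ := h1
        refine (setc_lt (S := fun f => f ∈ J ∧ r f j) hi hih).trans ?_
        rw [dif_pos hi]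
        exact if_pos hih
      · by_cases h2 : i = h ∧ (j ∈ J ∧ r j h) ∧ h < j
        · obtain ⟨rfl, hj, hhj⟩ := h2
          refine (setc_gt (S := fun f => f ∈ J ∧ r f i) hj hhj).trans ?_
          rw [dif_pos hj]
          exact if_neg hhj.asymm
        · exact setc_other h1 h2
  have h1 : φ (z, fun f : K => l f.1) = setc h (fun f => f ∈ J ∧ r f h) c z l := by
    refine Prod.ext rfl ?_
    funext i j
    by_cases h1 : j = h ∧ (i ∈ J ∧ r i h) ∧ i < h
    · obtain ⟨rfl, hi, hih⟩ := h1
      refine (setc_lt (S := fun f => f ∈ J ∧ r f j) hi hih).trans ?_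
      rw [dif_pos hi]
      exact (setc_lt (S := fun f => f ∈ J ∧ r f j) hi hih).symm
    · by_cases h2 : i = h ∧ (j ∈ J ∧ r j h) ∧ h < j
      · obtain ⟨rfl, hj, hhj⟩ := h2
        refine (setc_gt (S := fun f => f ∈ J ∧ r f i) hj hhj).trans ?_
        rw [dif_pos hj]
        exact (setc_gt (S := fun f => f ∈ J ∧ r f i) hj hhj).symm
      · exact (setc_other h1 h2).trans (setc_other h1 h2).symm
  have hj := ((single_joined hw hp hq).map hφ).mono hmem
  rwa [h0, h1] at hj

/-- PATH. PROOF. Induction on `I`. For `I = ∅` the set is everything (segments). Let `I = insert h J`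
and let `γ` be a path in `LogSet r J` from `p` to `q` (induction hypothesis). Let `J' ⊆ J` be the set
of the `f` with `r f h`; the points `(γ t).1 f`, `f ∈ J'`, are pairwise different as `r` is an
equivalence relation. Let `R` be a real number larger than all `‖(γ t).1 f‖`. Three paths in
`LogSet r I`: (1) the coordinates of `J` are those of `p`, the coordinate `h` moves from `p.1 h` to
`R` (`single_joined` with `w f = p.1 f`, `s f = 1` if `h < f`, `-1` if `f < h`); (2) the coordinates
of `J` follow `γ`, the coordinate `h` is `R`, the logarithm of `± (R - (γ t).1 f)` is the one at time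
`0` plus `log (R - (γ t).1 f) - log (R - (γ 0).1 f)` (real part of `R - _` is positive); (3) as (1),
at `q`. The coordinates which are not constrained move linearly in a last step (or along with
`γ`). -/
theorem logSet_joined {N : ℕ} {r : Fin N → Fin N → Prop} (hr : Equivalence r)
    (I : Finset (Fin N)) {p q : (Fin N → ℂ) × (Fin N → Fin N → ℂ)} (hp : p ∈ LogSet r I)
    (hq : q ∈ LogSet r I) : JoinedIn (LogSet r I) p q := by
  classical
  induction I using Finset.induction_on generalizing p q with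
  | empty =>
    have h1 : LogSet r (∅ : Finset (Fin N)) = Set.univ := by
      refine Set.eq_univ_of_forall fun x i hi => ?_
      exact absurd hi (Finset.notMem_empty i)
    rw [h1]
    exact isPathConnected_univ.joinedIn _ trivial _ trivial
  | insert h J hJ ih =>
    have hsub : LogSet r (insert h J) ⊆ LogSet r J := fun x hx i hi j hj =>
      hx i (Finset.mem_insert_of_mem hi) j (Finset.mem_insert_of_mem hj)
    obtain ⟨γ, hγ⟩ := ih (hsub hp) (hsub hq)
    -- a bound for all the coordinates
    obtain ⟨B, hB⟩ : ∃ B : ℝ, ∀ t, ‖(γ t).1‖ ≤ B := by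
      have hc : Continuous fun t => (γ t).1 := continuous_fst.comp γ.continuous
      obtain ⟨B, hB⟩ := (isCompact_range hc).isBounded.exists_norm_le
      exact ⟨B, fun t => hB _ ⟨t, rfl⟩⟩
    set R : ℝ := B + 1 with hR
    let F : Set ((Fin N → ℂ) × (Fin N → Fin N → ℂ)) := LogSet r J ∩ {c | ‖c.1‖ ≤ B}
    have hF : JoinedIn F p q := ⟨γ, fun t => ⟨hγ t, hB t⟩⟩
    have hslit : ∀ c ∈ F, ∀ f, (R : ℂ) - c.1 f ∈ Complex.slitPlane := by
      intro c hc f
      refine Or.inl ?_
      have h1 : ‖c.1 f‖ ≤ B := (norm_le_pi_norm c.1 f).trans hc.2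
      have h2 : (c.1 f).re ≤ ‖c.1 f‖ := Complex.re_le_norm _
      rw [Complex.sub_re, Complex.ofReal_re]
      linarith
    have hne : ∀ c ∈ F, ∀ f, (R : ℂ) - c.1 f ≠ 0 := fun c hc f =>
      Complex.slitPlane_ne_zero (hslit c hc f)
    let L : (Fin N → ℂ) → Fin N → ℂ := fun c f =>
      Complex.log ((R : ℂ) - c f) + (if h < f then 0 else Real.pi * Complex.I)
    have hL : ∀ c ∈ F, ∀ f ∈ J, r f h →
        (f < h → Complex.exp (L c.1 f) = c.1 f - R) ∧
        (h < f → Complex.exp (L c.1 f) = R - c.1 f) := by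
      intro c hc f hf _
      refine ⟨fun h1 => ?_, fun h1 => ?_⟩
      · change Complex.exp (Complex.log ((R : ℂ) - c.1 f) +
          (if h < f then 0 else Real.pi * Complex.I)) = _
        rw [if_neg h1.asymm, Complex.exp_add, Complex.exp_log (hne c hc f), Complex.exp_pi_mul_I]
        ring
      · change Complex.exp (Complex.log ((R : ℂ) - c.1 f) +
          (if h < f then 0 else Real.pi * Complex.I)) = _
        rw [if_pos h1, add_zero, Complex.exp_log (hne c hc f)]
    let Ψ : (Fin N → ℂ) × (Fin N → Fin N → ℂ) → (Fin N → ℂ) × (Fin N → Fin N → ℂ) :=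
      fun c => setc h (fun f => f ∈ J ∧ r f h) c R (L c.1)
    have hΨ : ContinuousOn Ψ F := by
      refine continuousOn_setc h _ continuousOn_id continuousOn_const fun f _ => ?_
      refine ContinuousOn.add (ContinuousOn.clog ?_ fun c hc => hslit c hc f) continuousOn_const
      exact continuousOn_const.sub
        (((continuous_apply f).comp continuous_fst).continuousOn)
    have hΨm : Ψ '' F ⊆ LogSet r (insert h J) := by
      rintro _ ⟨c, hc, rfl⟩
      exact setc_mem hr hc.1 hJ (hL c hc)
    have h2 : JoinedIn (LogSet r (insert h J)) (Ψ p) (Ψ q) :=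
      (hF.map_continuousOn hΨ).mono hΨm
    have h1 : JoinedIn (LogSet r (insert h J)) p (Ψ p) :=
      logSet_step hr hJ hp (hL p hF.source_mem)
    have h3 : JoinedIn (LogSet r (insert h J)) q (Ψ q) :=
      logSet_step hr hJ hq (hL q hF.target_mem)
    exact (h1.trans h2).trans h3.symm

/-- PROOF. Distinct real numbers and their logarithms. -/
theorem logSet_nonempty {N : ℕ} (r : Fin N → Fin N → Prop) (I : Finset (Fin N)) :
    (LogSet r I).Nonempty := by
  refine ⟨(fun i => ((i : ℕ) : ℂ), fun i j => Complex.log (((i : ℕ) : ℂ) - ((j : ℕ) : ℂ))), ?_⟩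
  intro i _ j _ hij _
  refine Complex.exp_log (sub_ne_zero.2 fun h => ?_)
  have h1 : (i : ℕ) = (j : ℕ) := by exact_mod_cast h
  exact hij.ne (Fin.ext h1)

end Pool.Agent.Lib.MP_fd6ff4_co.R43
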