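import Mathlib
import Pool.Agent.Lib.MP_fd6ff4_co.R43.Statement

/-!
# Extension over the simplices of a finite complex
-/

set_option autoImplicit false

open Finset

namespace Pool.Agent.Lib.MP_fd6ff4_co.R43

variable {n : ℕ}

/-- the closed simplex with the vertex set `σ` -/
def cell (σ : Finset (Fin n)) : Set (Fin n → ℝ) :=
  {x | (∀ j, 0 ≤ x j) ∧ ∑ j, x j = 1 ∧ spt x ⊆ σ}

/-- the boundary of the simplex -/
def bdry (σ : Finset (Fin n)) : Set (Fin n → ℝ) := {x | x ∈ cell σ ∧ spt x ≠ σ}

theorem skel_spt_subset {x : Fin n → ℝ} {σ : Finset (Fin n)} :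
    spt x ⊆ σ ↔ ∀ j, j ∉ σ → x j = 0 := by
  constructor
  · intro h j hj
    by_contra hx
    exact hj (h (by simp [spt, hx]))
  · intro h j hj
    by_contra hs
    simp only [spt, mem_filter, mem_univ, true_and] at hj
    exact hj (h j hs)

theorem isClosed_cell (σ : Finset (Fin n)) : IsClosed (cell σ) := by
  have e : cell σ = (⋂ j, {x : Fin n → ℝ | 0 ≤ x j}) ∩ {x | ∑ j, x j = 1} ∩
      ⋂ j, {x : Fin n → ℝ | j ∉ σ → x j = 0} := by
    ext x
    simp only [cell, Set.mem_ofPred_eq, Set.mem_inter_iff, Set.mem_iInter, skel_spt_subset]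
    tauto
  rw [e]
  refine IsClosed.inter (IsClosed.inter (isClosed_iInter fun j => ?_) ?_)
    (isClosed_iInter fun j => ?_)
  · exact isClosed_le continuous_const (continuous_apply j)
  · exact isClosed_eq (by fun_prop) continuous_const
  · by_cases h : j ∈ σ
    · have : {x : Fin n → ℝ | j ∉ σ → x j = 0} = Set.univ := by
        ext x
        simp [h]
      rw [this]
      exact isClosed_univ
    · have : {x : Fin n → ℝ | j ∉ σ → x j = 0} = {x | x j = 0} := by
        ext x
        simp [h]
      rw [this]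
      exact isClosed_eq (continuous_apply j) continuous_const

/-- PROOF. It is the finite union of the closed sets `cell (σ.erase v)`, `v ∈ σ`. -/
theorem isClosed_bdry (σ : Finset (Fin n)) : IsClosed (bdry σ) := by
  have e : bdry σ = ⋃ v ∈ σ, cell (σ.erase v) := by
    ext x
    simp only [bdry, cell, Set.mem_ofPred_eq, Set.mem_iUnion, exists_prop]
    constructor
    · rintro ⟨⟨h1, h2, h3⟩, h4⟩
      obtain ⟨v, hv, hv'⟩ : ∃ v ∈ σ, v ∉ spt x := by
        by_contra hc
        push Not at hc
        exact h4 (subset_antisymm h3 hc)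
      exact ⟨v, hv, h1, h2, fun j hj => mem_erase.2 ⟨fun h => hv' (h ▸ hj), h3 hj⟩⟩
    · rintro ⟨v, hv, h1, h2, h3⟩
      refine ⟨⟨h1, h2, h3.trans (erase_subset _ _)⟩, fun h => ?_⟩
      rw [h] at h3
      exact notMem_erase v σ (h3 hv)
  rw [e]
  exact Set.Finite.isClosed_biUnion (finite_toSet σ) fun v _ => isClosed_cell _

theorem isCompact_cell (σ : Finset (Fin n)) : IsCompact (cell σ) := by
  refine IsCompact.of_isClosed_subset (isCompact_Icc (a := (0 : Fin n → ℝ)) (b := 1))
    (isClosed_cell σ) fun x hx => ⟨fun j => hx.1 j, fun j => ?_⟩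
  have := single_le_sum (f := x) (fun i _ => hx.1 i) (mem_univ j)
  rw [hx.2.1] at this
  exact this

theorem skel_mem_cell {K : Finset (Finset (Fin n))} {x : Fin n → ℝ} (h : x ∈ geom K) :
    x ∈ cell (spt x) := ⟨h.1, h.2.1, subset_rfl⟩

/-- PROOF. Finite union of the closed sets `cell σ`, `σ ∈ K`. -/
theorem isClosed_geom {K : Finset (Finset (Fin n))} (hK : ∀ F ∈ K, ∀ G, G ⊆ F → G ∈ K) :
    IsClosed (geom K) := by
  have e : geom K = ⋃ F ∈ K, cell F := by
    ext x
    simp only [Set.mem_iUnion, exists_prop]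
    constructor
    · intro h
      exact ⟨spt x, h.2.2, skel_mem_cell h⟩
    · rintro ⟨F, hF, h1, h2, h3⟩
      exact ⟨h1, h2, hK F hF _ h3⟩
  rw [e]
  exact Set.Finite.isClosed_biUnion (finite_toSet K) fun v _ => isClosed_cell _

theorem skel_geom_mono {K K' : Finset (Finset (Fin n))} (h : K ⊆ K') : geom K ⊆ geom K' :=
  fun _ hx => ⟨hx.1, hx.2.1, h hx.2.2⟩

/-- SKEL. PROOF. Induction on the number of faces in `K \ K₀`: if there are any let `σ` be one with
the largest number of vertices, apply the induction hypothesis to `K.erase σ` (closed under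
subsets), and extend over `cell σ` with `hfill`; `geom K = geom (K.erase σ) ∪ cell σ`, both closed,
and the intersection is `bdry σ`, so the glued function is continuous. (For `σ = ∅` nothing is to be
done: `cell ∅` is empty.) -/
theorem skel {E : Type*} [TopologicalSpace E] (A : Finset (Fin n) → Set E)
    {K K₀ : Finset (Finset (Fin n))} (hK : ∀ F ∈ K, ∀ G, G ⊆ F → G ∈ K) (hK₀ : K₀ ⊆ K)
    (hK₀d : ∀ F ∈ K₀, ∀ G, G ⊆ F → G ∈ K₀)
    (hfill : ∀ σ ∈ K, σ ∉ K₀ → σ.Nonempty → ∀ g : (Fin n → ℝ) → E, ContinuousOn g (bdry σ) →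
      (∀ x ∈ bdry σ, g x ∈ A (spt x)) → ∃ g' : (Fin n → ℝ) → E, ContinuousOn g' (cell σ) ∧
        Set.EqOn g' g (bdry σ) ∧ ∀ x ∈ cell σ, g' x ∈ A (spt x))
    {d₀ : (Fin n → ℝ) → E} (hd₀ : ContinuousOn d₀ (geom K₀)) (hdA : ∀ x ∈ geom K₀, d₀ x ∈ A (spt x)) :
    ∃ d : (Fin n → ℝ) → E, ContinuousOn d (geom K) ∧ Set.EqOn d d₀ (geom K₀) ∧
      ∀ x ∈ geom K, d x ∈ A (spt x) := by
  classical
  induction K using Finset.strongInduction with
  | H K ih =>
    rcases (K \ K₀).eq_empty_or_nonempty with h0 | h0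
    · have e : K = K₀ := subset_antisymm (sdiff_eq_empty_iff_subset.1 h0) hK₀
      subst e
      exact ⟨d₀, hd₀, fun _ _ => rfl, hdA⟩
    · obtain ⟨σ, hσ, hmax⟩ := exists_max_image (K \ K₀) card h0
      rw [mem_sdiff] at hσ
      have hKe : ∀ F ∈ K.erase σ, ∀ G, G ⊆ F → G ∈ K.erase σ := by
        intro F hF G hG
        rw [mem_erase] at hF ⊢
        refine ⟨fun h => ?_, hK F hF.2 G hG⟩
        subst h
        have hF0 : F ∉ K₀ := fun h => hσ.2 (hK₀d F h G hG)
        have h1 := hmax F (mem_sdiff.2 ⟨hF.2, hF0⟩)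
        exact hF.1 (eq_of_subset_of_card_le hG h1).symm
      have hK₀e : K₀ ⊆ K.erase σ := fun F hF => mem_erase.2 ⟨fun h => hσ.2 (h ▸ hF), hK₀ hF⟩
      obtain ⟨d', c', e', a'⟩ := ih (K.erase σ) (erase_ssubset hσ.1) hKe hK₀e
        fun τ hτ => hfill τ (mem_of_mem_erase hτ)
      have hb : bdry σ ⊆ geom (K.erase σ) := fun x hx =>
        ⟨hx.1.1, hx.1.2.1, mem_erase.2 ⟨hx.2, hK σ hσ.1 _ hx.1.2.2⟩⟩
      have hu : geom K ⊆ geom (K.erase σ) ∪ cell σ := by
        intro x hx
        by_cases h : spt x = σ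
        · right
          rw [← h]
          exact skel_mem_cell hx
        · left
          exact ⟨hx.1, hx.2.1, mem_erase.2 ⟨h, hx.2.2⟩⟩
      obtain ⟨g', cg, eg, ag⟩ : ∃ g' : (Fin n → ℝ) → E, ContinuousOn g' (cell σ) ∧
          Set.EqOn g' d' (bdry σ) ∧ ∀ x ∈ cell σ, g' x ∈ A (spt x) := by
        rcases σ.eq_empty_or_nonempty with h | h
        · have hc : cell σ = ∅ := by
            rw [Set.eq_empty_iff_forall_notMem]
            rintro x ⟨-, h2, h3⟩
            rw [h, subset_empty] at h3
            have : ∀ j, x j = 0 := fun j => by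
              have := (skel_spt_subset (x := x) (σ := ∅)).1 (by rw [h3]) j (notMem_empty j)
              exact this
            simp [this] at h2
          have hb' : bdry σ = ∅ := by
            rw [Set.eq_empty_iff_forall_notMem]
            intro x hx
            have := hx.1
            rw [hc] at this
            exact this
          rw [hc, hb']
          exact ⟨d', continuousOn_empty _, fun x hx => hx.elim, fun x hx => hx.elim⟩
        · exact hfill σ hσ.1 hσ.2 h d' (c'.mono hb) fun x hx => a' x (hb hx)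
      have ed : Set.EqOn (fun x => if x ∈ cell σ then g' x else d' x) d' (geom (K.erase σ)) := by
        intro x hx
        simp only
        split_ifs with h
        · exact eg ⟨h, (mem_erase.1 hx.2.2).1⟩
        · rfl
      refine ⟨fun x => if x ∈ cell σ then g' x else d' x, ?_, ?_, ?_⟩
      · refine ContinuousOn.mono ?_ hu
        refine ContinuousOn.union_of_isClosed (c'.congr ed)
          (cg.congr fun x hx => if_pos hx) (isClosed_geom hKe) (isClosed_cell σ)
      · exact fun x hx => (ed (skel_geom_mono hK₀e hx)).trans (e' hx)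
      · intro x hx
        simp only
        split_ifs with h
        · exact ag x h
        · rcases hu hx with h1 | h1
          · exact a' x h1
          · exact absurd h1 h

end Pool.Agent.Lib.MP_fd6ff4_co.R43
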