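import Mathlib
import Pool.Agent.Lib.MP_fd6ff4_co.R43.T1.Skel
import Pool.Agent.Lib.MP_fd6ff4_co.R43.T1.PathLog

/-!
# Filling the simplices with configurations with logarithms

The value space is `E = (Fin N → ℂ) × (Fin N → Fin N → ℂ)` and the admissible set over a simplex `σ`
is `LogSet (r σ) univ`, where `r σ` is an equivalence relation on the indices, finer for bigger
simplices.
-/

set_option autoImplicit false

open Finset

namespace Pool.Agent.Lib.MP_fd6ff4_co.R43

variable {n N : ℕ}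

theorem logSet_mono {r r' : Fin N → Fin N → Prop} (h : ∀ i j, r' i j → r i j)
    {p : (Fin N → ℂ) × (Fin N → Fin N → ℂ)} (hp : p ∈ LogSet r univ) : p ∈ LogSet r' univ :=
  fun i hi j hj hij hr => hp i hi j hj hij (h i j hr)

theorem fill_spt_ne {σ : Finset (Fin n)} {x : Fin n → ℝ} (hx : x ∈ cell σ) :
    (spt x).Nonempty := by
  rw [nonempty_iff_ne_empty]
  intro h
  have h0 : ∀ j, x j = 0 := fun j =>
    (skel_spt_subset (x := x) (σ := ∅)).1 (by rw [h]) j (notMem_empty j)
  have h1 := hx.2.1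
  simp [h0] at h1

theorem fill_spt_one {σ : Finset (Fin n)} {x : Fin n → ℝ} (hx : x ∈ cell σ) {a : Fin n}
    (h : spt x = {a}) : x = Pi.single a 1 := by
  have h0 : ∀ j, j ≠ a → x j = 0 := fun j hj =>
    (skel_spt_subset (x := x) (σ := {a})).1 (by rw [h]) j (by simpa using hj)
  have h1 := hx.2.1
  rw [sum_eq_single a (fun j _ hj => h0 j hj) (by simp)] at h1
  funext j
  by_cases hj : j = a
  · subst hj
    rw [h1, Pi.single_eq_same]
  · rw [h0 j hj, Pi.single_eq_of_ne hj]

theorem fill_single (a : Fin n) (σ : Finset (Fin n)) (h : a ∈ σ) :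
    (Pi.single a 1 : Fin n → ℝ) ∈ cell σ ∧ spt (Pi.single a 1 : Fin n → ℝ) = {a} := by
  have hs : spt (Pi.single a 1 : Fin n → ℝ) = {a} := by
    ext j
    by_cases hj : j = a
    · subst hj
      simp [spt]
    · simp [spt, hj]
  refine ⟨⟨fun j => ?_, ?_, ?_⟩, hs⟩
  · by_cases hj : j = a
    · subst hj
      simp
    · simp [hj]
  · simp
  · rw [hs]
    simpa using h

/-- one vertex: `bdry σ` is empty and `cell σ` is a point; a constant in `LogSet` -/
theorem fill_one {r : Finset (Fin n) → Fin N → Fin N → Prop} {σ : Finset (Fin n)} (hσ : #σ = 1)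
    {g : (Fin n → ℝ) → (Fin N → ℂ) × (Fin N → Fin N → ℂ)} :
    ∃ g' : (Fin n → ℝ) → (Fin N → ℂ) × (Fin N → Fin N → ℂ), ContinuousOn g' (cell σ) ∧
      Set.EqOn g' g (bdry σ) ∧ ∀ x ∈ cell σ, g' x ∈ LogSet (r (spt x)) univ := by
  obtain ⟨a, rfl⟩ := card_eq_one.1 hσ
  have hs : ∀ x ∈ cell ({a} : Finset (Fin n)), spt x = {a} := by
    intro x hx
    rcases subset_singleton_iff.1 hx.2.2 with h | h
    · exact absurd h (fill_spt_ne hx).ne_empty
    · exact h
  obtain ⟨p, hp⟩ := logSet_nonempty (r {a}) (univ : Finset (Fin N))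
  refine ⟨fun _ => p, continuousOn_const, fun x hx => absurd (hs x hx.1) hx.2, fun x hx => ?_⟩
  rw [hs x hx]
  exact hp

/-- an edge `σ = {a, b}`: take a path in `LogSet (r σ) univ` from `g (e_a)` to `g (e_b)`
(`logSet_joined`) at the parameter `x b`; at the two ends the value is that of `g` -/
theorem fill_two {r : Finset (Fin n) → Fin N → Fin N → Prop} (hr : ∀ σ, Equivalence (r σ))
    (hm : ∀ τ σ, τ ⊆ σ → ∀ i j, r σ i j → r τ i j) {σ : Finset (Fin n)} (hσ : #σ = 2)
    {g : (Fin n → ℝ) → (Fin N → ℂ) × (Fin N → Fin N → ℂ)}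
    (hg : ∀ x ∈ bdry σ, g x ∈ LogSet (r (spt x)) univ) :
    ∃ g' : (Fin n → ℝ) → (Fin N → ℂ) × (Fin N → Fin N → ℂ), ContinuousOn g' (cell σ) ∧
      Set.EqOn g' g (bdry σ) ∧ ∀ x ∈ cell σ, g' x ∈ LogSet (r (spt x)) univ := by
  obtain ⟨a, b, hab, rfl⟩ := card_eq_two.1 hσ
  have hva : (Pi.single a 1 : Fin n → ℝ) ∈ bdry {a, b} := by
    refine ⟨(fill_single a _ (by simp)).1, ?_⟩
    rw [(fill_single a _ (mem_singleton_self a)).2]
    intro h
    have : b ∈ ({a} : Finset (Fin n)) := by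
      rw [h]
      simp
    exact hab (mem_singleton.1 this).symm
  have hvb : (Pi.single b 1 : Fin n → ℝ) ∈ bdry {a, b} := by
    refine ⟨(fill_single b _ (by simp)).1, ?_⟩
    rw [(fill_single b _ (mem_singleton_self b)).2]
    intro h
    have : a ∈ ({b} : Finset (Fin n)) := by
      rw [h]
      simp
    exact hab (mem_singleton.1 this)
  obtain ⟨γ, hγ⟩ := logSet_joined (hr {a, b}) univ
    (logSet_mono (hm _ _ hva.1.2.2) (hg _ hva)) (logSet_mono (hm _ _ hvb.1.2.2) (hg _ hvb))
  have he : Set.EqOn (fun x : Fin n → ℝ => γ.extend (x b)) g (bdry {a, b}) := by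
    intro x hx
    have h1 : spt x = {a} ∨ spt x = {b} := by
      obtain ⟨c, hc⟩ := fill_spt_ne hx.1
      by_cases ha : a ∈ spt x
      · by_cases hb : b ∈ spt x
        · exact absurd (subset_antisymm hx.1.2.2 (by
            intro j hj
            rcases mem_insert.1 hj with h | h
            · rw [h]
              exact ha
            · rw [mem_singleton.1 h]
              exact hb)) hx.2
        · left
          refine subset_antisymm (fun j hj => ?_) (by simpa using ha)
          rcases mem_insert.1 (hx.1.2.2 hj) with h | h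
          · simp [h]
          · rw [mem_singleton.1 h] at hj
            exact absurd hj hb
      · right
        have hj : ∀ j ∈ spt x, j = b := by
          intro j hj
          rcases mem_insert.1 (hx.1.2.2 hj) with h | h
          · rw [h] at hj
            exact absurd hj ha
          · exact mem_singleton.1 h
        refine subset_antisymm (fun j hj' => mem_singleton.2 (hj j hj')) ?_
        rw [singleton_subset_iff, ← hj c hc]
        exact hc
    rcases h1 with h | h
    · have hx1 := fill_spt_one hx.1 h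
      subst hx1
      simp [hab.symm]
    · have hx1 := fill_spt_one hx.1 h
      subst hx1
      simp
  refine ⟨fun x => γ.extend (x b),
    (γ.continuous_extend.comp (continuous_apply b)).continuousOn, he, fun x hx => ?_⟩
  by_cases h : spt x = {a, b}
  · rw [h]
    have h3 : γ.extend (x b) ∈ Set.range γ.extend := ⟨_, rfl⟩
    rw [Path.extend_range] at h3
    obtain ⟨t, ht⟩ := h3
    simp only [← ht]
    exact hγ t
  · have h4 : x ∈ bdry {a, b} := ⟨hx, h⟩
    rw [he h4]
    exact hg x h4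

open Classical in
/-- the retraction onto `LogSet r univ` when the classes of `r` have at most two elements -/
noncomputable def fillRet (r : Fin N → Fin N → Prop)
    (p : (Fin N → ℂ) × (Fin N → Fin N → ℂ)) : (Fin N → ℂ) × (Fin N → Fin N → ℂ) :=
  (fun j => if h : ∃ i, i < j ∧ r i j then p.1 h.choose - Complex.exp (p.2 h.choose j) else p.1 j,
    p.2)

theorem fillRet_cont (r : Fin N → Fin N → Prop) : Continuous (fillRet r) := by
  refine Continuous.prodMk (continuous_pi fun j => ?_) continuous_snd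
  by_cases h : ∃ i, i < j ∧ r i j
  · simp only [dif_pos h]
    have h1 : Continuous fun p : (Fin N → ℂ) × (Fin N → Fin N → ℂ) => p.1 h.choose :=
      (continuous_apply _).comp continuous_fst
    have h2 : Continuous fun p : (Fin N → ℂ) × (Fin N → Fin N → ℂ) => p.2 h.choose j :=
      (continuous_apply j).comp ((continuous_apply h.choose).comp continuous_snd)
    exact h1.sub h2.cexp
  · simp only [dif_neg h]
    exact (continuous_apply j).comp continuous_fst

theorem fillRet_mem {r : Fin N → Fin N → Prop} (hr : Equivalence r)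
    (h2 : ∀ i j k, i ≠ j → i ≠ k → j ≠ k → r i j → ¬ r i k)
    (p : (Fin N → ℂ) × (Fin N → Fin N → ℂ)) : fillRet r p ∈ LogSet r univ := by
  intro i _ j _ hij hrij
  have hj : ∃ i, i < j ∧ r i j := ⟨i, hij, hrij⟩
  have hi : ¬ ∃ k, k < i ∧ r k i := by
    rintro ⟨k, hk, hki⟩
    exact h2 i k j hk.ne' hij.ne (hk.trans hij).ne (hr.symm hki) hrij
  have hc : hj.choose = i := by
    by_contra hne
    have h3 := hj.choose_spec
    exact h2 j hj.choose i h3.1.ne' hij.ne' hne (hr.symm h3.2) (hr.symm hrij)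
  simp only [fillRet, dif_pos hj, dif_neg hi, hc]
  ring

theorem fillRet_eq {r : Fin N → Fin N → Prop} {p : (Fin N → ℂ) × (Fin N → Fin N → ℂ)}
    (hp : p ∈ LogSet r univ) : fillRet r p = p := by
  refine Prod.ext ?_ rfl
  funext j
  by_cases h : ∃ i, i < j ∧ r i j
  · simp only [fillRet, dif_pos h]
    rw [hp _ (mem_univ _) j (mem_univ _) h.choose_spec.1 h.choose_spec.2]
    ring
  · simp only [fillRet, dif_neg h]

/-- The classes of `r σ` have at most two elements: then `E` retracts onto `LogSet (r σ) univ` by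
`Y j := Y i - exp (L i j)` for `i < j` with `r σ i j`, and `g` extends to `cell σ` by Tietze (the
value space is a finite product of copies of `ℂ`; `isClosed_bdry`). Also the case where no two
indices are related. -/
theorem fill_three {r : Finset (Fin n) → Fin N → Fin N → Prop} (hr : ∀ σ, Equivalence (r σ))
    (hm : ∀ τ σ, τ ⊆ σ → ∀ i j, r σ i j → r τ i j) {σ : Finset (Fin n)}
    (hσ : ∀ i j k, i ≠ j → i ≠ k → j ≠ k → r σ i j → ¬ r σ i k)
    {g : (Fin n → ℝ) → (Fin N → ℂ) × (Fin N → Fin N → ℂ)} (hgc : ContinuousOn g (bdry σ))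
    (hg : ∀ x ∈ bdry σ, g x ∈ LogSet (r (spt x)) univ) :
    ∃ g' : (Fin n → ℝ) → (Fin N → ℂ) × (Fin N → Fin N → ℂ), ContinuousOn g' (cell σ) ∧
      Set.EqOn g' g (bdry σ) ∧ ∀ x ∈ cell σ, g' x ∈ LogSet (r (spt x)) univ := by
  obtain ⟨G, hG⟩ := ContinuousMap.exists_restrict_eq (isClosed_bdry σ)
    (⟨(bdry σ).domRestrict g, hgc.domRestrict⟩ : C(bdry σ, (Fin N → ℂ) × (Fin N → Fin N → ℂ)))
  have hGe : ∀ x ∈ bdry σ, G x = g x := fun x hx => by
    have h := congrArg (fun f : C(bdry σ, (Fin N → ℂ) × (Fin N → Fin N → ℂ)) => f ⟨x, hx⟩) hG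
    exact h
  have he : Set.EqOn (fun x => fillRet (r σ) (G x)) g (bdry σ) := by
    intro x hx
    simp only [hGe x hx]
    exact fillRet_eq (logSet_mono (hm _ _ hx.1.2.2) (hg x hx))
  refine ⟨fun x => fillRet (r σ) (G x), ((fillRet_cont _).comp G.continuous).continuousOn, he,
    fun x hx => ?_⟩
  by_cases h : spt x = σ
  · rw [h]
    exact fillRet_mem (hr σ) hσ _
  · rw [he ⟨hx, h⟩]
    exact hg x ⟨hx, h⟩

/-- SKEL for configurations with logarithms. PROOF. `skel` with `A σ = LogSet (r σ) univ`,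
`fill_one`, `fill_two`, `fill_three`. -/
theorem skel_log {r : Finset (Fin n) → Fin N → Fin N → Prop} (hr : ∀ σ, Equivalence (r σ))
    (hm : ∀ τ σ, τ ⊆ σ → ∀ i j, r σ i j → r τ i j) {K K₀ : Finset (Finset (Fin n))}
    (hK : ∀ F ∈ K, ∀ G, G ⊆ F → G ∈ K) (hK₀ : K₀ ⊆ K) (hK₀d : ∀ F ∈ K₀, ∀ G, G ⊆ F → G ∈ K₀)
    (h3 : ∀ σ ∈ K, 3 ≤ #σ → ∀ i j k, i ≠ j → i ≠ k → j ≠ k → r σ i j → ¬ r σ i k)
    {d₀ : (Fin n → ℝ) → (Fin N → ℂ) × (Fin N → Fin N → ℂ)} (hd₀ : ContinuousOn d₀ (geom K₀))
    (hdA : ∀ x ∈ geom K₀, d₀ x ∈ LogSet (r (spt x)) univ) :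
    ∃ d : (Fin n → ℝ) → (Fin N → ℂ) × (Fin N → Fin N → ℂ), ContinuousOn d (geom K) ∧
      Set.EqOn d d₀ (geom K₀) ∧ ∀ x ∈ geom K, d x ∈ LogSet (r (spt x)) univ := by
  refine skel (fun σ => LogSet (r σ) univ) hK hK₀ hK₀d ?_ hd₀ hdA
  intro σ hσ _ hne g hgc hg
  have h1 : 1 ≤ #σ := hne.card_pos
  rcases Nat.lt_or_ge (#σ) 3 with h | h
  · rcases (by omega : #σ = 1 ∨ #σ = 2) with h2 | h2
    · exact fill_one h2
    · exact fill_two hr hm h2 hg
  · exact fill_three hr hm (h3 σ hσ h) hgc hg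

end Pool.Agent.Lib.MP_fd6ff4_co.R43
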