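import Mathlib
import Pool.Agent.Lib.MP_fd6ff4_co.R43.T1.Defs
import Pool.Agent.Lib.MP_fd6ff4_co.R43.T1.Skel
import Pool.Agent.Lib.MP_fd6ff4_co.R43.Fan

/-!
# The triangulation of the inner simplex `M = {l ∈ DD | ∀ i, ε ≤ l i}`
-/

set_option autoImplicit false

open Finset

namespace Pool.Agent.Lib.MP_fd6ff4_co.R43

/-- the functionals: coordinates, differences of the real sheet coordinates, and
`l i - ε * ∑ l` -/
def innerFun (C : Collar) (ε : ℝ) : Set ((Fin 4 → ℝ) →ₗ[ℝ] ℝ) :=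
  {m | ∃ f g : Word, m = C.xf f - C.xf g} ∪
    {m | ∃ i : Fin 4, m = LinearMap.proj i - ε • ∑ j, LinearMap.proj j}

theorem innerFun_finite (C : Collar) (ε : ℝ) : (innerFun C ε).Finite := by
  refine Set.Finite.union ?_ ?_
  · refine (Set.finite_range fun p : Word × Word => C.xf p.1 - C.xf p.2).subset ?_
    rintro m ⟨f, g, rfl⟩
    exact ⟨(f, g), rfl⟩
  · refine (Set.finite_range fun i : Fin 4 =>
      (LinearMap.proj i - ε • ∑ j, LinearMap.proj j : (Fin 4 → ℝ) →ₗ[ℝ] ℝ)).subset ?_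
    rintro m ⟨i, rfl⟩
    exact ⟨i, rfl⟩

variable {C : Collar} {ε : ℝ} (Φ : Fan (innerFun C ε))

/-- the inner simplex -/
def MM (ε : ℝ) : Set (Fin 4 → ℝ) := {l | l ∈ DD ∧ ∀ i, ε ≤ l i}

open Classical in
/-- the subcomplex of the inner simplex -/
noncomputable def innerK : Finset (Finset (Fin Φ.n)) :=
  Φ.K.filter fun σ => ∀ v ∈ σ, ∀ i, ε ≤ Φ.P v i

open Classical in
/-- the subcomplex of its boundary -/
noncomputable def innerK₀ : Finset (Finset (Fin Φ.n)) :=
  Φ.K.filter fun σ => (∀ v ∈ σ, ∀ i, ε ≤ Φ.P v i) ∧ (σ = ∅ ∨ ∃ i, ∀ v ∈ σ, Φ.P v i = ε)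

/-- the point of the base simplex with the given barycentric coordinates -/
noncomputable def real (x : Fin Φ.n → ℝ) : Fin 4 → ℝ := ∑ v, x v • Φ.P v

theorem mem_innerK {σ : Finset (Fin Φ.n)} :
    σ ∈ innerK Φ ↔ σ ∈ Φ.K ∧ ∀ v ∈ σ, ∀ i, ε ≤ Φ.P v i := by
  simp only [innerK, mem_filter]

theorem mem_innerK₀ {σ : Finset (Fin Φ.n)} :
    σ ∈ innerK₀ Φ ↔ σ ∈ Φ.K ∧ (∀ v ∈ σ, ∀ i, ε ≤ Φ.P v i) ∧
      (σ = ∅ ∨ ∃ i, ∀ v ∈ σ, Φ.P v i = ε) := by
  simp only [innerK₀, mem_filter]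

theorem innerK_down : ∀ F ∈ innerK Φ, ∀ G, G ⊆ F → G ∈ innerK Φ := by
  intro F hF G hG
  rw [mem_innerK] at hF ⊢
  exact ⟨Φ.down F hF.1 G hG, fun v hv => hF.2 v (hG hv)⟩

theorem innerK₀_down : ∀ F ∈ innerK₀ Φ, ∀ G, G ⊆ F → G ∈ innerK₀ Φ := by
  intro F hF G hG
  rw [mem_innerK₀] at hF ⊢
  refine ⟨Φ.down F hF.1 G hG, fun v hv => hF.2.1 v (hG hv), ?_⟩
  rcases hF.2.2 with h | ⟨i, h⟩
  · left
    rw [h, subset_empty] at hG
    exact hG
  · exact Or.inr ⟨i, fun v hv => h v (hG hv)⟩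

theorem innerK₀_sub : innerK₀ Φ ⊆ innerK Φ := by
  intro F hF
  rw [mem_innerK₀] at hF
  rw [mem_innerK]
  exact ⟨hF.1, hF.2.1⟩

theorem real_apply (x : Fin Φ.n → ℝ) (i : Fin 4) : real Φ x i = ∑ v, x v * Φ.P v i := by
  simp [real, Finset.sum_apply]

theorem map_real (m : (Fin 4 → ℝ) →ₗ[ℝ] ℝ) (x : Fin Φ.n → ℝ) :
    m (real Φ x) = ∑ v, x v * m (Φ.P v) := by
  simp [real, map_sum]

theorem inner_mem_spt {x : Fin Φ.n → ℝ} {v : Fin Φ.n} : v ∈ spt x ↔ x v ≠ 0 := by
  simp [spt]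

/-- a functional of constant sign on the support of `x` vanishes at `real x` iff it vanishes on the
support -/
theorem inner_zero_iff (m : (Fin 4 → ℝ) →ₗ[ℝ] ℝ) {x : Fin Φ.n → ℝ} (hx : ∀ v, 0 ≤ x v)
    (hm : (∀ v ∈ spt x, 0 ≤ m (Φ.P v)) ∨ (∀ v ∈ spt x, m (Φ.P v) ≤ 0)) :
    m (real Φ x) = 0 ↔ ∀ v ∈ spt x, m (Φ.P v) = 0 := by
  rw [map_real]
  constructor
  · intro h v hv
    have hv' : x v ≠ 0 := (inner_mem_spt Φ).1 hv
    rcases hm with hm | hm
    · have h1 : ∀ w ∈ univ, 0 ≤ x w * m (Φ.P w) := by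
        intro w _
        by_cases hw : x w = 0
        · simp [hw]
        · exact mul_nonneg (hx w) (hm w ((inner_mem_spt Φ).2 hw))
      have := (sum_eq_zero_iff_of_nonneg h1).1 h v (mem_univ v)
      exact (mul_eq_zero.1 this).resolve_left hv'
    · have h1 : ∀ w ∈ univ, x w * m (Φ.P w) ≤ 0 := by
        intro w _
        by_cases hw : x w = 0
        · simp [hw]
        · exact mul_nonpos_of_nonneg_of_nonpos (hx w) (hm w ((inner_mem_spt Φ).2 hw))
      have := (sum_eq_zero_iff_of_nonpos h1).1 h v (mem_univ v)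
      exact (mul_eq_zero.1 this).resolve_left hv'
  · intro h
    refine sum_eq_zero fun v _ => ?_
    by_cases hv : x v = 0
    · simp [hv]
    · rw [h v ((inner_mem_spt Φ).2 hv), mul_zero]

theorem inner_le_real {x : Fin Φ.n → ℝ} (hx : x ∈ geom (innerK Φ)) (i : Fin 4) :
    ε ≤ real Φ x i := by
  have h2 := ((mem_innerK Φ).1 hx.2.2).2
  rw [real_apply]
  calc ε = ∑ v, x v * ε := by rw [← sum_mul, hx.2.1, one_mul]
    _ ≤ ∑ v, x v * Φ.P v i := by
      refine sum_le_sum fun v _ => ?_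
      by_cases hv : x v = 0
      · simp [hv]
      · exact mul_le_mul_of_nonneg_left (h2 v ((inner_mem_spt Φ).2 hv) i) (hx.1 v)

theorem real_mem {x : Fin Φ.n → ℝ} (hx : x ∈ geom (innerK Φ)) : real Φ x ∈ MM ε := by
  refine ⟨⟨fun i => ?_, ?_⟩, inner_le_real Φ hx⟩
  · rw [real_apply]
    exact sum_nonneg fun v _ => mul_nonneg (hx.1 v) ((Φ.P_mem v).1 i)
  · simp only [real_apply]
    rw [sum_comm]
    rw [← hx.2.1]
    refine sum_congr rfl fun v _ => ?_
    rw [← mul_sum, (Φ.P_mem v).2, mul_one]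

theorem inner_fun_apply (i : Fin 4) {l : Fin 4 → ℝ} (hl : ∑ j, l j = 1) :
    (LinearMap.proj i - ε • ∑ j, LinearMap.proj j : (Fin 4 → ℝ) →ₗ[ℝ] ℝ) l = l i - ε := by
  have : (∑ j : Fin 4, (LinearMap.proj j : (Fin 4 → ℝ) →ₗ[ℝ] ℝ)) l = 1 := by
    rw [LinearMap.sum_apply]
    exact hl
  rw [LinearMap.sub_apply, LinearMap.smul_apply, this, LinearMap.proj_apply, smul_eq_mul, mul_one]

theorem real_nu {l : Fin 4 → ℝ} (hl : l ∈ MM ε) : real Φ (Φ.nu l) = l :=
  Φ.nu_sum l hl.1.1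

/-- PROOF. `nu l` is supported on a face; by `compat` for `l i - ε * ∑ l` this functional is `≥ 0` on
all vertices of the face, or `≤ 0` on all of them, and then it vanishes on all of them, as it is
`≥ 0` at `l`. -/
theorem nu_mem_inner {l : Fin 4 → ℝ} (hl : l ∈ MM ε) : Φ.nu l ∈ geom (innerK Φ) := by
  have hn := Φ.nu_nonneg l hl.1.1
  have hK : spt (Φ.nu l) ∈ Φ.K := Φ.nu_mem l hl.1.1
  refine ⟨hn, ?_, ?_⟩
  · rw [Φ.nu_mass hl.1.1]
    exact hl.1.2
  rw [mem_innerK]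
  refine ⟨hK, fun v hv i => ?_⟩
  have hc := Φ.compat _ hK (LinearMap.proj i - ε • ∑ j, LinearMap.proj j) (Or.inr ⟨i, rfl⟩)
  have e : ∀ w, (LinearMap.proj i - ε • ∑ j, LinearMap.proj j : (Fin 4 → ℝ) →ₗ[ℝ] ℝ) (Φ.P w) =
      Φ.P w i - ε := fun w => inner_fun_apply i (Φ.P_mem w).2
  rcases hc with hc | hc
  · have := hc v hv
    rw [e] at this
    linarith
  · have h0 := (inner_zero_iff Φ (LinearMap.proj i - ε • ∑ j, LinearMap.proj j) hn (Or.inr hc)).1 (by
      rw [real_nu Φ hl, inner_fun_apply i hl.1.2]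
      have h1 : (LinearMap.proj i - ε • ∑ j, LinearMap.proj j : (Fin 4 → ℝ) →ₗ[ℝ] ℝ)
          (real Φ (Φ.nu l)) ≤ 0 := by
        rw [map_real]
        refine sum_nonpos fun w _ => ?_
        by_cases hw : Φ.nu l w = 0
        · simp [hw]
        · exact mul_nonpos_of_nonneg_of_nonpos (hn w) (hc w ((inner_mem_spt Φ).2 hw))
      rw [real_nu Φ hl, inner_fun_apply i hl.1.2] at h1
      have := hl.2 i
      linarith) v hv
    rw [e] at h0
    linarith

theorem nu_real {x : Fin Φ.n → ℝ} (hx : x ∈ geom (innerK Φ)) : Φ.nu (real Φ x) = x :=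
  Φ.nu_unique x hx.1 ((mem_innerK Φ).1 hx.2.2).1

/-- PROOF. `compat` for `l i - ε * ∑ l`, which vanishes at a point with positive coefficients. -/
theorem mem_innerK₀_iff {x : Fin Φ.n → ℝ} (hx : x ∈ geom (innerK Φ)) :
    x ∈ geom (innerK₀ Φ) ↔ ∃ i, real Φ x i = ε := by
  have hK := (mem_innerK Φ).1 hx.2.2
  have hs : spt x ≠ ∅ := by
    intro h
    have h0 : ∀ v, x v = 0 := by
      intro v
      by_contra hv
      have := (inner_mem_spt Φ).2 hv
      rw [h] at this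
      exact notMem_empty v this
    have := hx.2.1
    simp [h0] at this
  have key : ∀ i, real Φ x i = ε ↔ ∀ v ∈ spt x, Φ.P v i = ε := by
    intro i
    have e : ∀ w, (LinearMap.proj i - ε • ∑ j, LinearMap.proj j : (Fin 4 → ℝ) →ₗ[ℝ] ℝ) (Φ.P w) =
      Φ.P w i - ε := fun w => inner_fun_apply i (Φ.P_mem w).2
    have h := inner_zero_iff Φ (LinearMap.proj i - ε • ∑ j, LinearMap.proj j) hx.1
      (Or.inl fun v hv => by
        rw [e]
        have := hK.2 v hv i
        linarith)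
    rw [inner_fun_apply i (real_mem Φ hx).1.2] at h
    simp only [e] at h
    constructor
    · intro h1 v hv
      have := h.1 (by linarith) v hv
      linarith
    · intro h1
      have := h.2 (fun v hv => by rw [h1 v hv, sub_self])
      linarith
  constructor
  · intro h
    have h2 := ((mem_innerK₀ Φ).1 h.2.2).2.2
    rcases h2 with h2 | ⟨i, h2⟩
    · exact absurd h2 hs
    · exact ⟨i, (key i).2 h2⟩
  · rintro ⟨i, hi⟩
    exact ⟨hx.1, hx.2.1, (mem_innerK₀ Φ).2 ⟨hK.1, hK.2, Or.inr ⟨i, (key i).1 hi⟩⟩⟩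

/-- the real coordinates of the two sheets agree at all vertices of `σ` -/
def Same (σ : Finset (Fin Φ.n)) (f g : Word) : Prop := ∀ v ∈ σ, C.xf f (Φ.P v) = C.xf g (Φ.P v)

/-- PROOF. `compat` for `xf f - xf g`. -/
theorem same_iff {x : Fin Φ.n → ℝ} (hx : x ∈ geom (innerK Φ)) (f g : Word) :
    Same Φ (spt x) f g ↔ C.xf f (real Φ x) = C.xf g (real Φ x) := by
  have hK := ((mem_innerK Φ).1 hx.2.2).1
  have h := inner_zero_iff Φ (C.xf f - C.xf g) hx.1 (Φ.compat _ hK _ (Or.inl ⟨f, g, rfl⟩))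
  simp only [LinearMap.sub_apply, sub_eq_zero] at h
  exact h.symm

/-- two functionals on `ℝ ^ 4` which vanish at three linearly independent points are
proportional -/
theorem inner_prop {ι : Type*} [Fintype ι] (h3 : 3 ≤ Fintype.card ι) {w : ι → Fin 4 → ℝ}
    (hw : LinearIndependent ℝ w) (a b : (Fin 4 → ℝ) →ₗ[ℝ] ℝ) (ha : ∀ i, a (w i) = 0)
    (hb : ∀ i, b (w i) = 0) (u v : Fin 4 → ℝ) : a u * b v = a v * b u := by
  set T : (Fin 4 → ℝ) →ₗ[ℝ] ℝ × ℝ := a.prod b with hT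
  have hk : 3 ≤ Module.finrank ℝ (LinearMap.ker T) := by
    have hmem : ∀ i, w i ∈ LinearMap.ker T := fun i =>
      LinearMap.mem_ker.2 (Prod.ext (ha i) (hb i))
    have hli : LinearIndependent ℝ fun i => (⟨w i, hmem i⟩ : LinearMap.ker T) := by
      refine LinearIndependent.of_comp (LinearMap.ker T).subtype ?_
      exact hw
    exact h3.trans hli.fintype_card_le_finrank
  have hr : Module.finrank ℝ (LinearMap.range T) ≤ 1 := by
    have := LinearMap.finrank_range_add_finrank_ker T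
    rw [Module.finrank_fin_fun] at this
    omega
  obtain ⟨r, hr⟩ := finrank_le_one_iff.1 hr
  obtain ⟨c, hc⟩ := hr ⟨T u, LinearMap.mem_range_self T u⟩
  obtain ⟨c', hc'⟩ := hr ⟨T v, LinearMap.mem_range_self T v⟩
  have h1 := congrArg Subtype.val hc
  have h2 := congrArg Subtype.val hc'
  simp only [SetLike.val_smul] at h1 h2
  have a1 : c * (r : ℝ × ℝ).1 = a u := congrArg Prod.fst h1
  have a2 : c * (r : ℝ × ℝ).2 = b u := congrArg Prod.snd h1
  have b1 : c' * (r : ℝ × ℝ).1 = a v := congrArg Prod.fst h2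
  have b2 : c' * (r : ℝ × ℝ).2 = b v := congrArg Prod.snd h2
  rw [← a1, ← a2, ← b1, ← b2]
  ring

theorem inner_xf_single (f g : Word) (i : Fin 4) :
    (C.xf f - C.xf g) (Pi.single i 1) = C.x i (f i) - C.x i (g i) := by
  rw [LinearMap.sub_apply, C.xf_apply, C.xf_apply, sum_eq_single i, sum_eq_single i]
  · simp
  · intro j _ hj
    rw [Pi.single_eq_of_ne hj, mul_zero]
  · intro h
    exact absurd (mem_univ i) h
  · intro j _ hj
    rw [Pi.single_eq_of_ne hj, mul_zero]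
  · intro h
    exact absurd (mem_univ i) h

/-- PROOF. Three vertices of `σ` are linearly independent points of `ℝ ^ 4` (`Fan.linInd`), with all
coordinates `≥ ε > 0`. If `xf f - xf g` and `xf f - xf h` vanish at all three, these functionals are
proportional: the functionals on `ℝ ^ 4` which vanish on a 3-dimensional subspace are the multiples
of one. By `C.planes` the three words agree off one colour `i`; then `xf f - xf g` is
`(x i (f i) - x i (g i)) * l i`, which does not vanish as `l i > 0`, `f ≠ g`, `x_inj`. -/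
theorem same_three (hε : 0 < ε) {σ : Finset (Fin Φ.n)} (hσ : σ ∈ innerK Φ) (h3 : 3 ≤ #σ)
    {f g h : Word} (hf : f ∈ words) (hg : g ∈ words) (hh : h ∈ words) (hfg : f ≠ g) (hfh : f ≠ h)
    (hgh : g ≠ h) (h1 : Same Φ σ f g) : ¬ Same Φ σ f h := by
  intro h2
  have hK := (mem_innerK Φ).1 hσ
  have hli := Φ.linInd hK.1
  have ha : ∀ v : σ, (C.xf f - C.xf g) (Φ.P v.1) = 0 := fun v => by
    rw [LinearMap.sub_apply, h1 v.1 v.2, sub_self]
  have hb : ∀ v : σ, (C.xf f - C.xf h) (Φ.P v.1) = 0 := fun v => by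
    rw [LinearMap.sub_apply, h2 v.1 v.2, sub_self]
  have hc : 3 ≤ Fintype.card σ := by
    rw [Fintype.card_coe]
    exact h3
  rcases C.planes f hf g hg h hh hfg hfh hgh with ⟨i, j, hij⟩ | ⟨i, hi⟩
  · have := inner_prop hc hli _ _ ha hb (Pi.single i 1) (Pi.single j 1)
    rw [inner_xf_single, inner_xf_single, inner_xf_single, inner_xf_single] at this
    exact hij this
  · obtain ⟨v, hv⟩ : σ.Nonempty := card_pos.1 (by omega)
    have h4 := ha ⟨v, hv⟩
    simp only at h4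
    rw [LinearMap.sub_apply, C.xf_apply, C.xf_apply, ← sum_sub_distrib, sum_eq_single i] at h4
    · rw [← sub_mul, mul_eq_zero] at h4
      rcases h4 with h4 | h4
      · have h5 := C.x_inj i (sub_eq_zero.1 h4)
        refine hfg (funext fun j => ?_)
        by_cases hj : j = i
        · rw [hj]
          exact h5
        · exact (hi j hj).1
      · have := hK.2 v hv i
        rw [h4] at this
        linarith
    · intro j _ hj
      rw [(hi j hj).1, sub_self]
    · intro h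
      exact absurd (mem_univ i) h

end Pool.Agent.Lib.MP_fd6ff4_co.R43
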