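import Mathlib
import Pool.Agent.Lib.MP_fd6ff4_co.R43.T1.InnerTri
import Pool.Agent.Lib.MP_fd6ff4_co.R43.T1.Fill

/-!
# T1, section 3: continuous sheets inside
-/

set_option autoImplicit false

open Finset

namespace Pool.Agent.Lib.MP_fd6ff4_co.R43

/-- the facets, numbered -/
noncomputable def iwd (i : Fin 43) : Word := (words.equivFinOfCardEq card_words).symm i

theorem iwd_mem (i : Fin 43) : iwd i ∈ words := Finset.coe_mem _

theorem wd_inj : Function.Injective iwd := fun i j h => by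
  have := Subtype.ext h
  exact (words.equivFinOfCardEq card_words).symm.injective this

theorem exists_wd {f : Word} (hf : f ∈ words) : ∃ i, iwd i = f :=
  ⟨words.equivFinOfCardEq card_words ⟨f, hf⟩, by simp [iwd]⟩

theorem inner_contY0 (C : Collar) (f : Word) :
    ContinuousOn (C.Y0 f) {l | ∀ i, 0 ≤ l i} := by
  have h1 : Continuous (C.zf f) := by
    unfold Collar.zf
    exact continuous_finsetSum _ fun i _ =>
      (Complex.continuous_ofReal.comp (continuous_apply i)).mul continuous_const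
  have h2 : ∀ k, ContinuousOn (C.bh k f) {l | ∀ i, 0 ≤ l i} := by
    intro k
    have e : C.bh k f = fun l => (((C.bh k f l).re : ℂ) + ((C.bh k f l).im : ℂ) * Complex.I) := by
      funext l
      exact (Complex.re_add_im _).symm
    rw [e]
    exact (Complex.continuous_ofReal.comp_continuousOn (C.re_pl k f).continuousOn).add
      ((Complex.continuous_ofReal.comp_continuousOn (C.im_pl k f).continuousOn).mul
        continuousOn_const)
  exact h1.continuousOn.add (continuousOn_finsetSum _ fun k _ => h2 k)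

theorem inner_real_cont {C : Collar} {ε : ℝ} (Φ : Fan (innerFun C ε)) : Continuous (real Φ) := by
  unfold real
  exact continuous_finsetSum _ fun v _ => (continuous_apply v).smul continuous_const

theorem inner_MM_nonneg {ε : ℝ} {l : Fin 4 → ℝ} (h : l ∈ MM ε) (i : Fin 4) : 0 ≤ l i := h.1.1 i

theorem inner_isClosed_MM (ε : ℝ) : IsClosed (MM ε) := by
  have e : MM ε = DD ∩ ⋂ i, {l : Fin 4 → ℝ | ε ≤ l i} := by
    ext l
    simp [MM]
  rw [e]
  exact (isClosed_stdSimplex ℝ (Fin 4)).inter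
    (isClosed_iInter fun i => isClosed_le continuous_const (continuous_apply i))

theorem inner_isClosed_ex (ε : ℝ) : IsClosed {l : Fin 4 → ℝ | ∃ i, l i ≤ ε} := by
  have e : {l : Fin 4 → ℝ | ∃ i, l i ≤ ε} = ⋃ i, {l | l i ≤ ε} := by
    ext l
    simp
  rw [e]
  exact isClosed_iUnion_of_finite fun i => isClosed_le (continuous_apply i) continuous_const

theorem inner_isClosed_PP (C : Collar) (f g : Word) : IsClosed (C.PP f g) := by
  have e : C.PP f g = DD ∩ {l | C.xf f l = C.xf g l} := by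
    ext l
    simp [Collar.PP]
  rw [e]
  refine (isClosed_stdSimplex ℝ (Fin 4)).inter (isClosed_eq ?_ ?_)
  · exact LinearMap.continuous_of_finiteDimensional _
  · exact LinearMap.continuous_of_finiteDimensional _

/-- the logarithm of `Near`, extended to the whole space -/
theorem inner_tietze {C : Collar} {ε : ℝ} (hε : 0 < ε) (hC : C.Near ε) {f g : Word}
    (hf : f ∈ words) (hg : g ∈ words) (hfg : f ≠ g) :
    ∃ L : (Fin 4 → ℝ) → ℂ, Continuous L ∧ ∀ l ∈ C.PP f g, l ∈ MM ε → (∃ i, l i = ε) →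
      Complex.exp (L l) = C.Y0 f l - C.Y0 g l := by
  obtain ⟨L, hLc, hLe⟩ := hC f hf g hg hfg
  have hnA : ∀ l ∈ MM ε, ¬ Agree f g l := fun l hl h =>
    hfg (funext fun i => h i (ne_of_gt (lt_of_lt_of_le hε (hl.2 i))))
  set Q : Set (Fin 4 → ℝ) := C.PP f g ∩ (MM ε ∩ {l | ∃ i, l i ≤ ε}) with hQ
  have hQc : IsClosed Q :=
    (inner_isClosed_PP C f g).inter ((inner_isClosed_MM ε).inter (inner_isClosed_ex ε))
  have hLQ : ContinuousOn L Q := hLc.mono fun l hl => ⟨hl.1, hl.2.2, hnA l hl.2.1⟩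
  obtain ⟨G, hG⟩ := ContinuousMap.exists_restrict_eq hQc
    (⟨Q.domRestrict L, continuousOn_iff_continuous_domRestrict.1 hLQ⟩ : C(Q, ℂ))
  refine ⟨G, G.continuous, fun l hl hM hi => ?_⟩
  obtain ⟨i, hi⟩ := hi
  have hlQ : l ∈ Q := ⟨hl, hM, i, hi.le⟩
  have h1 : G l = L l := DFunLike.congr_fun hG ⟨l, hlQ⟩
  rw [h1]
  exact hLe l hl ⟨i, hi.le⟩ (hnA l hM)

/-- PROOF. Let `Φ` be a fan for `innerFun C ε` (`exists_fan`, `innerFun_finite`) and apply `skel_log`
with `N = 43`, `r σ i j = Same Φ σ (iwd i) (iwd j)` (`same_three`), `K = innerK Φ`, `K₀ = innerK₀ Φ` and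
`d₀ x = (fun i => Y0 (iwd i) (real Φ x), fun i j => L i j (real Φ x))`, where `L i j` is a continuous
function on the whole space which extends (Tietze) the logarithm of `Near` from the closed set
`{l ∈ PP (iwd i) (iwd j) | l ∈ MM ε ∧ ∃ i, l i = ε}` (there `Agree` fails as all coordinates are
positive). Put `Y (iwd i) l = (d (Φ.nu l)).1 i` for `l ∈ MM ε` and `Y f l = Y0 f l` for the other `l`
(`Fan.continuousOn_nu`; the two closed sets `MM ε` and `{l ∈ DD | ∃ i, l i ≤ ε}` cover `DD`, and the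
two formulas agree where some `l i = ε`). -/
theorem inner_sheets (C : Collar) {ε : ℝ} (hε : 0 < ε) (hC : C.Near ε) :
    ∃ Y : Word → (Fin 4 → ℝ) → ℂ, (∀ f ∈ words, ContinuousOn (Y f) DD) ∧
      (∀ f ∈ words, ∀ l ∈ DD, (∃ i, l i ≤ ε) → Y f l = C.Y0 f l) ∧
      ∀ f ∈ words, ∀ g ∈ words, f ≠ g → ∀ l ∈ C.PP f g, ¬ Agree f g l → Y f l ≠ Y g l := by
  classical
  obtain ⟨Φ⟩ := exists_fan (innerFun C ε) (innerFun_finite C ε)
  have hL : ∀ i j : Fin 43, ∃ L : (Fin 4 → ℝ) → ℂ, Continuous L ∧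
      (i ≠ j → ∀ l ∈ C.PP (iwd i) (iwd j), l ∈ MM ε → (∃ k, l k = ε) →
        Complex.exp (L l) = C.Y0 (iwd i) l - C.Y0 (iwd j) l) := by
    intro i j
    by_cases h : i = j
    · exact ⟨fun _ => 0, continuous_const, fun h' => absurd h h'⟩
    · obtain ⟨L, h1, h2⟩ := inner_tietze hε hC (iwd_mem i) (iwd_mem j) fun h' => h (wd_inj h')
      exact ⟨L, h1, fun _ => h2⟩
  choose L hLc hLe using hL
  have hK₀K : geom (innerK₀ Φ) ⊆ geom (innerK Φ) := skel_geom_mono (innerK₀_sub Φ)
  set d₀ : (Fin Φ.n → ℝ) → (Fin 43 → ℂ) × (Fin 43 → Fin 43 → ℂ) := fun x =>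
    (fun i => C.Y0 (iwd i) (real Φ x), fun i j => L i j (real Φ x)) with hd₀
  have hc₀ : ContinuousOn d₀ (geom (innerK₀ Φ)) := by
    refine ContinuousOn.prodMk ?_ ?_
    · refine continuousOn_pi.2 fun i => ?_
      exact (inner_contY0 C (iwd i)).comp (inner_real_cont Φ).continuousOn
        fun x hx => inner_MM_nonneg (real_mem Φ (hK₀K hx))
    · refine continuousOn_pi.2 fun i => continuousOn_pi.2 fun j => ?_
      exact ((hLc i j).comp (inner_real_cont Φ)).continuousOn
  obtain ⟨d, hdc, hde, hdA⟩ := skel_log (N := 43)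
    (r := fun σ i j => Same Φ σ (iwd i) (iwd j))
    (fun σ => ⟨fun i v _ => rfl, fun h v hv => (h v hv).symm,
      fun h h' v hv => (h v hv).trans (h' v hv)⟩)
    (fun τ σ hτ i j h v hv => h v (hτ hv))
    (innerK_down Φ) (innerK₀_sub Φ) (innerK₀_down Φ)
    (fun σ hσ h3 i j k hij hik hjk h1 => same_three Φ hε hσ h3 (iwd_mem i) (iwd_mem j) (iwd_mem k)
      (fun h => hij (wd_inj h)) (fun h => hik (wd_inj h)) (fun h => hjk (wd_inj h)) h1)
    (d₀ := d₀) hc₀
    (by
      intro x hx i _ j _ hij hs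
      have hx' := hK₀K hx
      have hM := real_mem Φ hx'
      exact hLe i j (ne_of_lt hij) _ ⟨hM.1, (same_iff Φ hx' _ _).1 hs⟩ hM
        ((mem_innerK₀_iff Φ hx').1 hx))
  set idx : Word → Fin 43 := fun f =>
    if hf : f ∈ words then (exists_wd hf).choose else 0 with hidx
  have hwi : ∀ f ∈ words, iwd (idx f) = f := by
    intro f hf
    rw [hidx]
    simp only [dif_pos hf]
    exact (exists_wd hf).choose_spec
  set Y : Word → (Fin 4 → ℝ) → ℂ := fun f l =>
    if l ∈ MM ε then (d (Φ.nu l)).1 (idx f) else C.Y0 f l with hY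
  have hYM : ∀ f l, l ∈ MM ε → Y f l = (d (Φ.nu l)).1 (idx f) := fun f l hl => if_pos hl
  have hY0 : ∀ f ∈ words, ∀ l ∈ DD, (∃ i, l i ≤ ε) → Y f l = C.Y0 f l := by
    rintro f hf l hl ⟨i, hi⟩
    by_cases hM : l ∈ MM ε
    · have hiε : l i = ε := le_antisymm hi (hM.2 i)
      have h1 := nu_mem_inner Φ hM
      have h2 := real_nu Φ hM
      have h3 : Φ.nu l ∈ geom (innerK₀ Φ) :=
        (mem_innerK₀_iff Φ h1).2 ⟨i, by rw [h2]; exact hiε⟩
      rw [hYM f l hM, hde h3, hd₀]
      simp only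
      rw [h2, hwi f hf]
    · exact if_neg hM
  refine ⟨Y, ?_, hY0, ?_⟩
  · intro f hf
    have hcov : DD ⊆ MM ε ∪ (DD ∩ {l : Fin 4 → ℝ | ∃ i, l i ≤ ε}) := by
      intro l hl
      by_cases h : ∃ i, l i ≤ ε
      · exact Or.inr ⟨hl, h⟩
      · push Not at h
        exact Or.inl ⟨hl, fun i => (h i).le⟩
    refine ContinuousOn.mono ?_ hcov
    refine ContinuousOn.union_of_isClosed ?_ ?_ (inner_isClosed_MM ε)
      ((isClosed_stdSimplex ℝ (Fin 4)).inter (inner_isClosed_ex ε))
    · have h1 : ContinuousOn (fun l => (d (Φ.nu l)).1 (idx f)) (MM ε) := by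
        have h2 : ContinuousOn (fun l => d (Φ.nu l)) (MM ε) :=
          hdc.comp (Φ.continuousOn_nu.mono fun l hl => inner_MM_nonneg hl)
            fun l hl => nu_mem_inner Φ hl
        exact (continuous_apply (idx f)).comp_continuousOn (continuous_fst.comp_continuousOn h2)
      exact h1.congr fun l hl => hYM f l hl
    · refine ((inner_contY0 C f).mono fun l hl i => hl.1.1 i).congr fun l hl => ?_
      exact hY0 f hf l hl.1 hl.2
  · intro f hf g hg hfg l hl hA
    by_cases h : ∃ i, l i ≤ ε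
    · rw [hY0 f hf l hl.1 h, hY0 g hg l hl.1 h]
      obtain ⟨L', -, hL'⟩ := hC f hf g hg hfg
      have := hL' l hl h hA
      intro h'
      rw [h', sub_self] at this
      exact Complex.exp_ne_zero _ this
    · push Not at h
      have hM : l ∈ MM ε := ⟨hl.1, fun i => (h i).le⟩
      have h1 := nu_mem_inner Φ hM
      have h2 := real_nu Φ hM
      have hi : idx f ≠ idx g := fun h' => hfg (by rw [← hwi f hf, h', hwi g hg])
      have hs : ∀ f' g' : Word, C.xf f' l = C.xf g' l → Same Φ (spt (Φ.nu l)) f' g' :=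
        fun f' g' h' => (same_iff Φ h1 f' g').2 (by rw [h2]; exact h')
      rw [hYM f l hM, hYM g l hM]
      intro h'
      rcases lt_or_gt_of_ne hi with hlt | hlt
      · have := hdA _ h1 (idx f) (mem_univ _) (idx g) (mem_univ _) hlt
          (by show Same Φ _ (iwd (idx f)) (iwd (idx g)); rw [hwi f hf, hwi g hg]; exact hs f g hl.2)
        rw [h', sub_self] at this
        exact Complex.exp_ne_zero _ this
      · have := hdA _ h1 (idx g) (mem_univ _) (idx f) (mem_univ _) hlt
          (by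
            show Same Φ _ (iwd (idx g)) (iwd (idx f))
            rw [hwi f hf, hwi g hg]
            exact hs g f hl.2.symm)
        rw [h', sub_self] at this
        exact Complex.exp_ne_zero _ this

end Pool.Agent.Lib.MP_fd6ff4_co.R43
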