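import Mathlib
import Pool.Agent.Lib.MP_fd6ff4_co.R43.T1.PL

/-!
# Density of the piecewise linear homogeneous functions in the continuous functions of the simplex
-/

set_option autoImplicit false

open Finset

namespace Pool.Agent.Lib.MP_fd6ff4_co.R43

variable {ι : Type*} [Fintype ι] [DecidableEq ι]

/-- Density. PROOF. The restrictions to `stdSimplex ℝ ι` of the functions in `IsPL` are a
sublattice of the continuous functions which separates points strongly: for `x ≠ y` in the simplex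
and values `a, b` choose a coordinate `i` with `x i ≠ y i` and take a combination of `∑ j, z j` and
`z i`. `ContinuousMap.sublattice_closure_eq_top`. -/
theorem IsPL.dense [Nonempty ι] {f : (ι → ℝ) → ℝ} (hf : ContinuousOn f (stdSimplex ℝ ι)) {δ : ℝ}
    (hδ : 0 < δ) : ∃ φ : (ι → ℝ) → ℝ, IsPL φ ∧ ∀ x ∈ stdSimplex ℝ ι, |φ x - f x| < δ := by
  have hcomp : CompactSpace (stdSimplex ℝ ι) := isCompact_iff_compactSpace.1 (isCompact_stdSimplex ℝ ι)
  let L : Set C(stdSimplex ℝ ι, ℝ) := {F | ∃ φ : (ι → ℝ) → ℝ, IsPL φ ∧ ∀ x, F x = φ x}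
  have key : ∀ α β : ℝ, ∀ i : ι, IsPL (fun z : ι → ℝ => α * ∑ j, z j + β * z i) := by
    intro α β i
    refine IsPL.add (IsPL.smul ?_ α) (IsPL.smul ?_ β)
    · have h := IsPL.linear (∑ j, LinearMap.proj (R := ℝ) (φ := fun _ : ι => ℝ) j)
      simpa using h
    · exact IsPL.linear (LinearMap.proj (R := ℝ) (φ := fun _ : ι => ℝ) i)
  have kc : ∀ α β : ℝ, ∀ i : ι,
      Continuous (fun z : stdSimplex ℝ ι => α * ∑ j, (z : ι → ℝ) j + β * (z : ι → ℝ) i) := by
    intro α β i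
    have h1 : ∀ j, Continuous (fun z : stdSimplex ℝ ι => (z : ι → ℝ) j) := fun j =>
      (continuous_apply j).comp continuous_subtype_val
    exact (continuous_const.mul (continuous_finsetSum _ fun j _ => h1 j)).add
      (continuous_const.mul (h1 i))
  have hL : closure L = ⊤ := by
    refine ContinuousMap.sublattice_closure_eq_top L ?_ ?_ ?_ ?_
    · obtain ⟨i⟩ := ‹Nonempty ι›
      exact ⟨⟨_, kc 0 0 i⟩, _, key 0 0 i, fun x => rfl⟩
    · rintro F ⟨φ, h1, h2⟩ G ⟨ψ, h3, h4⟩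
      exact ⟨_, h1.inf h3, fun x => by rw [ContinuousMap.inf_apply, h2, h4]⟩
    · rintro F ⟨φ, h1, h2⟩ G ⟨ψ, h3, h4⟩
      exact ⟨_, h1.sup h3, fun x => by rw [ContinuousMap.sup_apply, h2, h4]⟩
    · intro v x y
      have hx : ∑ j, (x : ι → ℝ) j = 1 := x.2.2
      have hy : ∑ j, (y : ι → ℝ) j = 1 := y.2.2
      by_cases hxy : x = y
      · obtain ⟨i⟩ := ‹Nonempty ι›
        refine ⟨⟨_, kc (v x) 0 i⟩, ⟨_, key (v x) 0 i, fun x => rfl⟩, ?_, ?_⟩
        · show v x * ∑ j, (x : ι → ℝ) j + 0 * (x : ι → ℝ) i = v x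
          rw [hx]
          ring
        · subst hxy
          show v x * ∑ j, (x : ι → ℝ) j + 0 * (x : ι → ℝ) i = v x
          rw [hx]
          ring
      · obtain ⟨i, hi⟩ : ∃ i, (x : ι → ℝ) i ≠ (y : ι → ℝ) i := by
          by_contra hc
          push Not at hc
          exact hxy (Subtype.ext (funext hc))
        have hi' : (x : ι → ℝ) i - (y : ι → ℝ) i ≠ 0 := sub_ne_zero.2 hi
        refine ⟨⟨_, kc (v x - (v x - v y) / ((x : ι → ℝ) i - (y : ι → ℝ) i) * (x : ι → ℝ) i)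
          ((v x - v y) / ((x : ι → ℝ) i - (y : ι → ℝ) i)) i⟩, ⟨_, key _ _ i, fun x => rfl⟩, ?_, ?_⟩
        · show (v x - (v x - v y) / ((x : ι → ℝ) i - (y : ι → ℝ) i) * (x : ι → ℝ) i) *
            ∑ j, (x : ι → ℝ) j + (v x - v y) / ((x : ι → ℝ) i - (y : ι → ℝ) i) * (x : ι → ℝ) i = v x
          rw [hx]
          ring
        · show (v x - (v x - v y) / ((x : ι → ℝ) i - (y : ι → ℝ) i) * (x : ι → ℝ) i) *
            ∑ j, (y : ι → ℝ) j + (v x - v y) / ((x : ι → ℝ) i - (y : ι → ℝ) i) * (y : ι → ℝ) i = v y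
          rw [hy]
          field_simp
          ring
  let F : C(stdSimplex ℝ ι, ℝ) := ⟨fun x => f x, continuousOn_iff_continuous_domRestrict.1 hf⟩
  have hF : F ∈ closure L := by
    rw [hL]
    trivial
  obtain ⟨G, ⟨φ, h1, h2⟩, hd⟩ := Metric.mem_closure_iff.1 hF δ hδ
  refine ⟨φ, h1, fun x hx => ?_⟩
  have h3 := ContinuousMap.dist_apply_le_dist (f := F) (g := G) ⟨x, hx⟩
  have h4 : G ⟨x, hx⟩ = φ x := h2 ⟨x, hx⟩
  have h5 : F ⟨x, hx⟩ = f x := rfl
  rw [h4, h5, Real.dist_eq, abs_sub_comm] at h3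
  exact lt_of_le_of_lt h3 hd

/-- Truncated approximation: if `|f| ≤ τ` where `τ` (a nonnegative PL function) is positive and
`f = 0` where `τ = 0` … PROOF. Let `φ₀` be within `δ` of `f` (`IsPL.dense`), and
`φ = max (min φ₀ τ') (-τ')` with `τ' = K * τ`, where `K * τ ≥ |f| + δ` on the set where `f ≠ 0`. If
`f x ≠ 0` then `φ x = φ₀ x`; if `f x = 0` then `|φ x| ≤ |φ₀ x| < δ`; and `φ x = 0` if `τ x = 0`. -/
theorem IsPL.dense_supp [Nonempty ι] {f : (ι → ℝ) → ℝ} (hf : ContinuousOn f (stdSimplex ℝ ι))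
    {τ : (ι → ℝ) → ℝ} (hτ : IsPL τ) (hτ0 : ∀ x, (∀ i, 0 ≤ x i) → 0 ≤ τ x) {a : ℝ} (ha : 0 < a)
    (hfτ : ∀ x ∈ stdSimplex ℝ ι, f x ≠ 0 → a ≤ τ x) {δ : ℝ} (hδ : 0 < δ) :
    ∃ φ : (ι → ℝ) → ℝ, IsPL φ ∧ (∀ x ∈ stdSimplex ℝ ι, |φ x - f x| < δ) ∧
      ∀ x, (∀ i, 0 ≤ x i) → τ x = 0 → φ x = 0 := by
  obtain ⟨φ₀, h1, h2⟩ := IsPL.dense hf hδ
  obtain ⟨B, hB⟩ := (isCompact_stdSimplex ℝ ι).exists_bound_of_continuousOn hf
  have hB0 : ∀ x ∈ stdSimplex ℝ ι, |f x| ≤ |B| := fun x hx =>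
    (hB x hx).trans (le_abs_self B)
  have hK : 0 < (|B| + δ) / a := div_pos (by positivity) ha
  refine ⟨fun x => max (min (φ₀ x) ((|B| + δ) / a * τ x)) (-((|B| + δ) / a) * τ x),
    (h1.inf (hτ.smul _)).sup (hτ.smul _), fun x hx => ?_, fun x hx h0 => ?_⟩
  · show |max (min (φ₀ x) ((|B| + δ) / a * τ x)) (-((|B| + δ) / a) * τ x) - f x| < δ
    have hx0 : ∀ i, 0 ≤ x i := hx.1
    have ht := mul_nonneg hK.le (hτ0 x hx0)
    have h3 := abs_lt.1 (h2 x hx)
    rw [neg_mul]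
    by_cases hfx : f x = 0
    · rw [hfx, sub_zero] at h3 ⊢
      rw [abs_lt]
      constructor
      · rcases le_total (φ₀ x) ((|B| + δ) / a * τ x) with h | h
        · rw [min_eq_left h]
          exact lt_of_lt_of_le h3.1 (le_max_left _ _)
        · rw [min_eq_right h]
          exact lt_of_lt_of_le (by linarith) (le_max_left _ _)
      · refine max_lt (lt_of_le_of_lt (min_le_left _ _) h3.2) ?_
        linarith
    · have h4 : |B| + δ ≤ (|B| + δ) / a * τ x := by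
        have h5 := hfτ x hx hfx
        calc |B| + δ = (|B| + δ) / a * a := by field_simp
          _ ≤ (|B| + δ) / a * τ x := mul_le_mul_of_nonneg_left h5 hK.le
      have h6 := abs_le.1 (hB0 x hx)
      have h7 : φ₀ x ≤ (|B| + δ) / a * τ x := by linarith
      have h8 : -((|B| + δ) / a * τ x) ≤ φ₀ x := by linarith
      rw [min_eq_left h7, max_eq_left h8]
      exact h2 x hx
  · show max (min (φ₀ x) ((|B| + δ) / a * τ x)) (-((|B| + δ) / a) * τ x) = 0
    rw [h0, mul_zero, mul_zero]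
    exact max_eq_right (min_le_right _ _)

end Pool.Agent.Lib.MP_fd6ff4_co.R43
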