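import Mathlib
import Pool.Agent.Lib.MP_fd6ff4_co.R43.T1.Inner
import Pool.Agent.Lib.MP_fd6ff4_co.R43.T1.PLDense

/-!
# T1, section 4: piecewise linear sheets
-/

set_option autoImplicit false

open Finset

namespace Pool.Agent.Lib.MP_fd6ff4_co.R43

/-- a complex function is continuous if its real and imaginary parts are -/
theorem cont_of_re_im {X : Type*} [TopologicalSpace X] {F : X → ℂ} {S : Set X}
    (h1 : ContinuousOn (fun x => (F x).re) S) (h2 : ContinuousOn (fun x => (F x).im) S) :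
    ContinuousOn F S := by
  have e : F = fun x => (((F x).re : ℝ) : ℂ) + (((F x).im : ℝ) : ℂ) * Complex.I := by
    funext x
    exact (Complex.re_add_im _).symm
  rw [e]
  exact (Complex.continuous_ofReal.comp_continuousOn h1).add
    ((Complex.continuous_ofReal.comp_continuousOn h2).mul continuousOn_const)

theorem Collar.continuousOn_Y0 (C : Collar) (f : Word) :
    ContinuousOn (C.Y0 f) {l | ∀ i, 0 ≤ l i} := by
  have h1 : Continuous (C.zf f) := by
    unfold Collar.zf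
    exact continuous_finsetSum _ fun i _ =>
      (Complex.continuous_ofReal.comp (continuous_apply i)).mul continuous_const
  have h2 : ContinuousOn (fun l => ∑ k, C.bh k f l) {l | ∀ i, 0 ≤ l i} :=
    continuousOn_finsetSum _ fun k _ =>
      cont_of_re_im (C.re_pl k f).continuousOn (C.im_pl k f).continuousOn
  exact h1.continuousOn.add h2

/-- the truncation function `max 0 (min_i l i - (ε / 2) ∑ l)` -/
noncomputable def trunc (ε : ℝ) (l : Fin 4 → ℝ) : ℝ :=
  max 0 (min (min (l 0) (l 1)) (min (l 2) (l 3)) - ε / 2 * ∑ i, l i)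

theorem trunc_pl (ε : ℝ) : IsPL (trunc ε) := by
  have h0 : IsPL (fun _ : Fin 4 → ℝ => (0 : ℝ)) := IsPL.linear 0
  have hp : ∀ i : Fin 4, IsPL (fun l : Fin 4 → ℝ => l i) := fun i => IsPL.linear (LinearMap.proj i)
  have hs : IsPL (fun l : Fin 4 → ℝ => -(ε / 2) * ∑ i, l i) :=
    (IsPL.sum Finset.univ fun i _ => hp i).smul _
  have h := h0.sup ((((hp 0).inf (hp 1)).inf ((hp 2).inf (hp 3))).add hs)
  have e : trunc ε = fun l : Fin 4 → ℝ => max 0 (min (min (l 0) (l 1)) (min (l 2) (l 3)) +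
      -(ε / 2) * ∑ i, l i) := by
    funext l
    unfold trunc
    rw [neg_mul, ← sub_eq_add_neg]
  rw [e]
  exact h

theorem trunc_nonneg (ε : ℝ) (l : Fin 4 → ℝ) : 0 ≤ trunc ε l := le_max_left _ _

theorem trunc_ge {ε t : ℝ} {l : Fin 4 → ℝ} (h : ∀ i, t ≤ l i) :
    t - ε / 2 * ∑ i, l i ≤ trunc ε l := by
  refine le_trans ?_ (le_max_right _ _)
  have := le_min (le_min (h 0) (h 1)) (le_min (h 2) (h 3))
  linarith

theorem trunc_lt {ε : ℝ} {l : Fin 4 → ℝ} (h : trunc ε l ≠ 0) (i : Fin 4) :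
    ε / 2 * ∑ j, l j < l i := by
  by_contra hc
  push Not at hc
  apply h
  refine max_eq_left ?_
  have hi : min (min (l 0) (l 1)) (min (l 2) (l 3)) ≤ l i := by
    fin_cases i
    · exact (min_le_left _ _).trans (min_le_left _ _)
    · exact (min_le_left _ _).trans (min_le_right _ _)
    · exact (min_le_right _ _).trans (min_le_left _ _)
    · exact (min_le_right _ _).trans (min_le_right _ _)
  linarith

/-- PROOF. `Y` from `inner_sheets`; `G f = Y f - Y0 f` is continuous on `DD` and zero where some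
`l i ≤ ε`, so `trunc ε ≥ ε / 2` where `G f ≠ 0`. The compact set
`{l ∈ PP f g | ∀ i, ε / 2 ≤ l i}` has a `c > 0` with `‖Y f - Y g‖ ≥ c` for all pairs. Let `I f` have the
real and imaginary parts given by `IsPL.dense_supp` for those of `G f`, with `τ = trunc ε` and an
error `< δ = c / 8`. If all `l i ≥ ε / 2` then `‖(Y0 f + I f) - Y f‖ < 2 δ`, and otherwise
`trunc ε l = 0` and `Y0 f + I f = Y0 f = Y f` at `l` (for `l i ≤ ε / 2` there is nothing to do). -/
theorem pl_sheets (C : Collar) {ε : ℝ} (hε : 0 < ε) (hC : C.Near ε) :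
    ∃ I : Word → (Fin 4 → ℝ) → ℂ, (∀ f, IsPL fun l => (I f l).re) ∧
      (∀ f, IsPL fun l => (I f l).im) ∧
      (∀ f l, (∀ i, 0 ≤ l i) → I f l ≠ 0 → ∀ i, ε / 2 * ∑ j, l j ≤ l i) ∧
      ∀ f ∈ words, ∀ g ∈ words, f ≠ g → ∀ l ∈ C.PP f g, ¬ Agree f g l →
        C.Y0 f l + I f l ≠ C.Y0 g l + I g l := by
  classical
  obtain ⟨Y, hYc, hY0, hYne⟩ := inner_sheets C hε hC
  have hDD : ∀ l ∈ DD, ∀ i, 0 ≤ l i := fun l hl => hl.1
  have hsum : ∀ l ∈ DD, ∑ i, l i = 1 := fun l hl => hl.2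
  have hGc : ∀ f ∈ words, ContinuousOn (fun l => Y f l - C.Y0 f l) DD := fun f hf =>
    (hYc f hf).sub ((C.continuousOn_Y0 f).mono fun l hl => hDD l hl)
  have hGt : ∀ f ∈ words, ∀ l ∈ DD, Y f l - C.Y0 f l ≠ 0 → ε / 2 ≤ trunc ε l := by
    intro f hf l hl h
    have h1 : ∀ i, ε ≤ l i := by
      intro i
      by_contra hc
      push Not at hc
      exact h (by rw [hY0 f hf l hl ⟨i, hc.le⟩, sub_self])
    have h2 := trunc_ge (ε := ε) h1
    rw [hsum l hl] at h2
    linarith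
  -- the constant
  have hK : ∀ p : Word × Word, ∃ c : ℝ, 0 < c ∧ (p.1 ∈ words → p.2 ∈ words → p.1 ≠ p.2 →
      ∀ l ∈ C.PP p.1 p.2, (∀ i, ε / 2 ≤ l i) → c ≤ ‖Y p.1 l - Y p.2 l‖) := by
    rintro ⟨f, g⟩
    by_cases hfg : f ∈ words ∧ g ∈ words ∧ f ≠ g
    · obtain ⟨hf, hg, hne⟩ := hfg
      have hcl : IsClosed {l : Fin 4 → ℝ | C.xf f l = C.xf g l ∧ ∀ i, ε / 2 ≤ l i} := by
        have c1 : IsClosed {l : Fin 4 → ℝ | C.xf f l = C.xf g l} :=
          isClosed_eq (C.xf f).continuous_of_finiteDimensional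
            (C.xf g).continuous_of_finiteDimensional
        have c2 : IsClosed {l : Fin 4 → ℝ | ∀ i, ε / 2 ≤ l i} := by
          have : {l : Fin 4 → ℝ | ∀ i, ε / 2 ≤ l i} = ⋂ i, {l | ε / 2 ≤ l i} := by
            ext l
            simp
          rw [this]
          exact isClosed_iInter fun i => isClosed_le continuous_const (continuous_apply i)
        exact c1.inter c2
      have hcpt : IsCompact (DD ∩ {l : Fin 4 → ℝ | C.xf f l = C.xf g l ∧ ∀ i, ε / 2 ≤ l i}) :=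
        (isCompact_stdSimplex ℝ (Fin 4)).inter_right hcl
      have hcont : ContinuousOn (fun l => ‖Y f l - Y g l‖)
          (DD ∩ {l : Fin 4 → ℝ | C.xf f l = C.xf g l ∧ ∀ i, ε / 2 ≤ l i}) :=
        (((hYc f hf).sub (hYc g hg)).norm).mono Set.inter_subset_left
      rcases (DD ∩ {l : Fin 4 → ℝ | C.xf f l = C.xf g l ∧ ∀ i, ε / 2 ≤ l i}).eq_empty_or_nonempty
        with he | hn
      · refine ⟨1, one_pos, fun _ _ _ l hl hi => ?_⟩
        exact absurd (he.subset (show l ∈ _ from ⟨hl.1, hl.2, hi⟩)) (Set.notMem_empty _)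
      · obtain ⟨l0, ⟨hl0, hl1, hl2⟩, hmin⟩ := hcpt.exists_isMinOn hn hcont
        refine ⟨‖Y f l0 - Y g l0‖, ?_, fun _ _ _ l hl hi => ?_⟩
        · rw [norm_pos_iff, sub_ne_zero]
          refine hYne f hf g hg hne l0 ⟨hl0, hl1⟩ fun hag => hne ?_
          funext i
          exact hag i (by have := hl2 i; have h2 : 0 < ε / 2 := by positivity
                          exact (h2.trans_le this).ne')
        · exact hmin (show l ∈ _ from ⟨hl.1, hl.2, hi⟩)
    · exact ⟨1, one_pos, fun h1 h2 h3 => absurd ⟨h1, h2, h3⟩ hfg⟩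
  choose c hc0 hc using hK
  obtain ⟨p0, hp0⟩ := Finite.exists_min c
  have hδ : 0 < c p0 / 8 := by have := hc0 p0; positivity
  -- the approximation
  have hI : ∀ f : Word, ∃ φ ψ : (Fin 4 → ℝ) → ℝ, IsPL φ ∧ IsPL ψ ∧
      (∀ l, (∀ i, 0 ≤ l i) → trunc ε l = 0 → φ l = 0 ∧ ψ l = 0) ∧
      (f ∈ words → ∀ l ∈ DD, |φ l - (Y f l - C.Y0 f l).re| < c p0 / 8 ∧
        |ψ l - (Y f l - C.Y0 f l).im| < c p0 / 8) := by
    intro f
    by_cases hf : f ∈ words
    · obtain ⟨φ, h1, h2, h3⟩ := IsPL.dense_supp (f := fun l => (Y f l - C.Y0 f l).re)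
        (Complex.continuous_re.comp_continuousOn (hGc f hf)) (trunc_pl ε)
        (fun x _ => trunc_nonneg ε x) (half_pos hε)
        (fun l hl h => hGt f hf l hl fun h0 => h (by rw [h0]; rfl)) hδ
      obtain ⟨ψ, h4, h5, h6⟩ := IsPL.dense_supp (f := fun l => (Y f l - C.Y0 f l).im)
        (Complex.continuous_im.comp_continuousOn (hGc f hf)) (trunc_pl ε)
        (fun x _ => trunc_nonneg ε x) (half_pos hε)
        (fun l hl h => hGt f hf l hl fun h0 => h (by rw [h0]; rfl)) hδ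
      exact ⟨φ, ψ, h1, h4, fun l hl h0 => ⟨h3 l hl h0, h6 l hl h0⟩,
        fun _ l hl => ⟨h2 l hl, h5 l hl⟩⟩
    · exact ⟨fun _ => 0, fun _ => 0, IsPL.linear 0, IsPL.linear 0, fun _ _ _ => ⟨rfl, rfl⟩,
        fun h => absurd h hf⟩
  choose φ ψ hφ hψ h0 hap using hI
  refine ⟨fun f l => ⟨φ f l, ψ f l⟩, hφ, hψ, ?_, ?_⟩
  · intro f l hl hne i
    refine (trunc_lt (fun ht => hne ?_) i).le
    obtain ⟨e1, e2⟩ := h0 f l hl ht
    apply Complex.ext
    · exact e1
    · exact e2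
  · intro f hf g hg hne l hl hag heq
    replace heq : C.Y0 f l + (⟨φ f l, ψ f l⟩ : ℂ) = C.Y0 g l + (⟨φ g l, ψ g l⟩ : ℂ) := heq
    by_cases hi : ∀ i, ε / 2 ≤ l i
    · have hnorm : ∀ k ∈ words, ‖(⟨φ k l, ψ k l⟩ : ℂ) - (Y k l - C.Y0 k l)‖ < c p0 / 4 := by
        intro k hk
        obtain ⟨e1, e2⟩ := hap k hk l hl.1
        have e3 := Complex.norm_le_abs_re_add_abs_im ((⟨φ k l, ψ k l⟩ : ℂ) - (Y k l - C.Y0 k l))
        rw [Complex.sub_re, Complex.sub_im] at e3
        have e4 : |φ k l - (Y k l - C.Y0 k l).re| + |ψ k l - (Y k l - C.Y0 k l).im| <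
          c p0 / 8 + c p0 / 8 := add_lt_add e1 e2
        have e5 : c p0 / 8 + c p0 / 8 = c p0 / 4 := by ring
        rw [e5] at e4
        exact lt_of_le_of_lt e3 e4
      have h1 := hnorm f hf
      have h2 := hnorm g hg
      have h3 := hc (f, g) hf hg hne l hl hi
      have h4 := hp0 (f, g)
      have h5 : Y f l - Y g l = ((⟨φ g l, ψ g l⟩ : ℂ) - (Y g l - C.Y0 g l)) -
          ((⟨φ f l, ψ f l⟩ : ℂ) - (Y f l - C.Y0 f l)) := by
        linear_combination heq
      have h6 : ‖Y f l - Y g l‖ < c p0 / 4 + c p0 / 4 := by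
        rw [h5]
        exact lt_of_le_of_lt (norm_sub_le _ _) (add_lt_add h2 h1)
      have h7 := hc0 p0
      have h8 : c (f, g) ≤ ‖Y f l - Y g l‖ := h3
      linarith
    · push Not at hi
      obtain ⟨i, hi⟩ := hi
      have ht : trunc ε l = 0 := by
        by_contra ht
        have := trunc_lt ht i
        rw [hsum l hl.1] at this
        linarith
      obtain ⟨a1, a2⟩ := h0 f l (hDD l hl.1) ht
      obtain ⟨b1, b2⟩ := h0 g l (hDD l hl.1) ht
      have hi' : ∃ i, l i ≤ ε := ⟨i, by linarith⟩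
      have z1 : (⟨φ f l, ψ f l⟩ : ℂ) = 0 := Complex.ext a1 a2
      have z2 : (⟨φ g l, ψ g l⟩ : ℂ) = 0 := Complex.ext b1 b2
      rw [z1, z2, add_zero, add_zero, ← hY0 f hf l hl.1 hi', ← hY0 g hg l hl.1 hi'] at heq
      exact hYne f hf g hg hne l hl hag heq

end Pool.Agent.Lib.MP_fd6ff4_co.R43
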