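import Mathlib
import Pool.Agent.Lib.MP_fd6ff4_co.R43.T1.PL

/-!
# Lower and upper bounds for piecewise linear functions
-/

set_option autoImplicit false

open Finset

namespace Pool.Agent.Lib.MP_fd6ff4_co.R43

variable {ι : Type*} [Fintype ι] [DecidableEq ι]

/-- PROOF. `IsPL.lipschitz` with the values at `x` and `0`, and `‖x‖ ≤ ∑ x i`. -/
theorem IsPL.bound {φ : (ι → ℝ) → ℝ} (hφ : IsPL φ) :
    ∃ c : ℝ, 0 ≤ c ∧ ∀ x : ι → ℝ, (∀ i, 0 ≤ x i) → |φ x| ≤ c * ∑ i, x i := by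
  obtain ⟨c, hc⟩ := hφ.lipschitz
  refine ⟨c, c.2, fun x hx => ?_⟩
  have h1 := hc.dist_le_mul x hx 0 (fun i => le_rfl)
  rw [Real.dist_eq, hφ.zero, sub_zero, dist_zero_right] at h1
  refine h1.trans (mul_le_mul_of_nonneg_left ?_ c.2)
  rw [pi_norm_le_iff_of_nonneg (Finset.sum_nonneg fun i _ => hx i)]
  intro i
  rw [Real.norm_eq_abs, abs_of_nonneg (hx i)]
  exact Finset.single_le_sum (fun j _ => hx j) (Finset.mem_univ i)

omit [DecidableEq ι] in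
/-- the combinations of the vertices of a face are in the closed cell of their sum -/
private theorem lw_sgn {L : Set ((ι → ℝ) →ₗ[ℝ] ℝ)} (Φ : Fan L) {F : Finset (Fin Φ.n)} (hF : F ∈ Φ.K)
    {c : Fin Φ.n → ℝ} (hc : ∀ v, 0 ≤ c v) :
    SgnLe L (∑ v ∈ F, c v • Φ.P v) (∑ v ∈ F, Φ.P v) := by
  intro m hm
  simp only [map_sum, map_smul, smul_eq_mul]
  rcases Φ.compat F hF m hm with h | h
  · refine ⟨fun h1 => ?_, fun h1 => ?_⟩
    · obtain ⟨v, hv, hv1⟩ := Finset.exists_lt_of_sum_lt (f := fun _ => (0 : ℝ))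
        (g := fun v => c v * m (Φ.P v)) (s := F) (by simpa using h1)
      have h2 : m (Φ.P v) ≠ 0 := by
        intro h0
        rw [h0, mul_zero] at hv1
        exact lt_irrefl _ hv1
      exact Finset.sum_pos' h ⟨v, hv, lt_of_le_of_ne (h v hv) h2.symm⟩
    · exact absurd h1 (not_lt.2 (Finset.sum_nonneg fun v hv => mul_nonneg (hc v) (h v hv)))
  · refine ⟨fun h1 => ?_, fun h1 => ?_⟩
    · exact absurd h1 (not_lt.2 (Finset.sum_nonpos fun v hv =>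
        mul_nonpos_of_nonneg_of_nonpos (hc v) (h v hv)))
    · obtain ⟨v, hv, hv1⟩ := Finset.exists_lt_of_sum_lt (g := fun _ => (0 : ℝ))
        (f := fun v => c v * m (Φ.P v)) (s := F) (by simpa using h1)
      have h2 : m (Φ.P v) ≠ 0 := by
        intro h0
        rw [h0, mul_zero] at hv1
        exact lt_irrefl _ hv1
      exact Finset.sum_neg' h ⟨v, hv, lt_of_le_of_ne (h v hv) h2⟩

/-- A function which is linear on the closed cells of `L` is additive on the faces of a fan which is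
compatible with `L`. PROOF. All the combinations of the `P v`, `v ∈ F`, are in the closed cell of
`y = ∑ v ∈ F, P v`: for `m ∈ L` all `m (P v)`, `v ∈ F`, are `≥ 0` or all are `≤ 0`. -/
theorem PLOn.sum_fan {L : Set ((ι → ℝ) →ₗ[ℝ] ℝ)} {φ : (ι → ℝ) → ℝ} (hφ : PLOn L φ) (Φ : Fan L)
    {F : Finset (Fin Φ.n)} (hF : F ∈ Φ.K) {c : Fin Φ.n → ℝ} (hc : ∀ v, 0 ≤ c v) :
    φ (∑ v ∈ F, c v • Φ.P v) = ∑ v ∈ F, c v * φ (Φ.P v) := by
  have hor : ∀ c : Fin Φ.n → ℝ, (∀ v, 0 ≤ c v) → ∀ i, 0 ≤ (∑ v ∈ F, c v • Φ.P v) i := by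
    intro c hc i
    rw [Finset.sum_apply]
    exact Finset.sum_nonneg fun v _ => mul_nonneg (hc v) ((Φ.P_mem v).1 i)
  have hy : ∀ i, 0 ≤ (∑ v ∈ F, Φ.P v) i := by
    intro i
    rw [Finset.sum_apply]
    exact Finset.sum_nonneg fun v _ => (Φ.P_mem v).1 i
  obtain ⟨A, hA⟩ := hφ _ hy
  have h1 : ∀ v ∈ F, φ (Φ.P v) = A (Φ.P v) := by
    intro v hv
    have e : ∑ w ∈ F, (Pi.single v (1 : ℝ) : Fin Φ.n → ℝ) w • Φ.P w = Φ.P v := by
      rw [Finset.sum_eq_single v (fun w _ hw => by rw [Pi.single_eq_of_ne hw, zero_smul])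
        (fun h => absurd hv h), Pi.single_eq_same, one_smul]
    have hs : ∀ w, 0 ≤ (Pi.single v (1 : ℝ) : Fin Φ.n → ℝ) w := by
      intro w
      rcases eq_or_ne w v with rfl | hw
      · rw [Pi.single_eq_same]
        exact zero_le_one
      · rw [Pi.single_eq_of_ne hw]
    have h2 := hA _ (hor _ hs) (lw_sgn Φ hF hs)
    rwa [e] at h2
  rw [hA _ (hor c hc) (lw_sgn Φ hF hc), map_sum]
  refine Finset.sum_congr rfl fun v hv => ?_
  rw [map_smul, smul_eq_mul, h1 v hv]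

/-- Compactness: nonnegative combinations which vanish only trivially are bounded below. -/
private theorem lw_cone {κ V : Type*} [Fintype κ] (G : Finset V) (w : V → κ → ℝ)
    (h : ∀ c : V → ℝ, (∀ v, 0 ≤ c v) → (∃ v ∈ G, c v ≠ 0) → ∑ v ∈ G, c v • w v ≠ 0) :
    ∃ ε : ℝ, 0 < ε ∧ ∀ c : V → ℝ, (∀ v, 0 ≤ c v) →
      ε * ∑ v ∈ G, c v ≤ ‖∑ v ∈ G, c v • w v‖ := by
  classical
  rcases G.eq_empty_or_nonempty with rfl | hG
  · exact ⟨1, one_pos, fun c _ => by simp⟩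
  have hne : Nonempty G := hG.to_subtype
  have hc1 : Continuous fun c : G → ℝ => ‖∑ v : G, c v • w v.1‖ := by
    refine Continuous.norm ?_
    exact continuous_finsetSum _ fun v _ => (continuous_apply v).smul continuous_const
  obtain ⟨c0, hc0, hmin⟩ := (isCompact_stdSimplex ℝ G).exists_isMinOn
    (by
      obtain ⟨v⟩ := hne
      exact ⟨Pi.single v 1, single_mem_stdSimplex ℝ v⟩) hc1.continuousOn
  have hext : ∀ c : G → ℝ, ∑ v : G, c v • w v.1 =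
      ∑ v ∈ G, (fun v => if hv : v ∈ G then c ⟨v, hv⟩ else 0) v • w v := by
    intro c
    rw [← Finset.sum_coe_sort G]
    refine Finset.sum_congr rfl fun v _ => ?_
    simp
  have hpos : 0 < ‖∑ v : G, c0 v • w v.1‖ := by
    rw [norm_pos_iff, hext]
    refine h _ (fun v => ?_) ?_
    · split_ifs with hv
      · exact hc0.1 _
      · exact le_rfl
    · by_contra hcon
      push Not at hcon
      have h2 := hc0.2
      rw [Finset.sum_eq_zero] at h2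
      · exact zero_ne_one h2
      · intro v _
        have := hcon v.1 v.2
        simpa using this
  refine ⟨_, hpos, fun c hc => ?_⟩
  rcases (Finset.sum_nonneg fun v (_ : v ∈ G) => hc v).eq_or_lt with hs | hs
  · rw [← hs, mul_zero]
    exact norm_nonneg _
  · have hm : (fun v : G => (∑ v ∈ G, c v)⁻¹ * c v.1) ∈ stdSimplex ℝ G := by
      refine ⟨fun v => mul_nonneg (inv_nonneg.2 hs.le) (hc _), ?_⟩
      have e : ∑ v : G, (∑ v ∈ G, c v)⁻¹ * c v.1 = (∑ v ∈ G, c v)⁻¹ * ∑ v ∈ G, c v := by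
        rw [← Finset.mul_sum, Finset.sum_coe_sort G c]
      exact e.trans (inv_mul_cancel₀ hs.ne')
    have h3 := hmin hm
    have h4 : ∑ v : G, ((∑ v ∈ G, c v)⁻¹ * c v.1) • w v.1 =
        (∑ v ∈ G, c v)⁻¹ • ∑ v ∈ G, c v • w v := by
      have e : ∑ v ∈ G, c v • w v = ∑ v : G, c v.1 • w v.1 :=
        (Finset.sum_coe_sort G fun v => c v • w v).symm
      rw [e, Finset.smul_sum]
      exact Finset.sum_congr rfl fun v _ => (smul_smul _ _ _).symm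
    have h5 : ‖∑ v : G, c0 v • w v.1‖ ≤ ‖(∑ v ∈ G, c v)⁻¹ • ∑ v ∈ G, c v • w v‖ := by
      rw [← h4]
      exact h3
    rw [norm_smul, Real.norm_eq_abs, abs_of_pos (inv_pos.2 hs), inv_mul_eq_div, le_div_iff₀ hs] at h5
    exact h5

/-- PROOF. Let `L` be a finite common arrangement for the `D · j` (`IsPL.common`), `Φ` a fan for `L`
(`exists_fan`), and `τ` the set of the vertices `v` with `P v i ≠ 0` for some `i ∈ A`. For a face `F`
and nonnegative `c`, `D (∑ v ∈ F, c v • P v) = ∑ v ∈ F ∩ τ, c v • D (P v)` (`PLOn.sum_fan`, `h0`), and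
this is `≠ 0` if some `c v`, `v ∈ F ∩ τ`, is `≠ 0` (`h1` for `∑ v ∈ F ∩ τ, c v • P v`). By compactness of
the standard simplex of `F ∩ τ` there is `c_F > 0` with
`c_F * ∑ v ∈ F ∩ τ, c v ≤ ‖D (∑ v ∈ F, c v • P v)‖`; take the minimum over the finitely many `F`.
Finally `l i = ∑ ν v * P v i ≤ ∑ v ∈ τ, ν v` for `i ∈ A`. -/
theorem lower_bound {κ : Type*} [Fintype κ] {D : (ι → ℝ) → (κ → ℝ)} (hD : ∀ j, IsPL fun l => D l j)
    (A : Finset ι) (h0 : ∀ l, (∀ i, 0 ≤ l i) → (∀ i ∈ A, l i = 0) → D l = 0)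
    (h1 : ∀ l, (∀ i, 0 ≤ l i) → (∃ i ∈ A, l i ≠ 0) → D l ≠ 0) :
    ∃ c : ℝ, 0 < c ∧ ∀ l, (∀ i, 0 ≤ l i) → ∀ i ∈ A, c * l i ≤ ‖D l‖ := by
  classical
  obtain ⟨L, hL, hDL⟩ := IsPL.common hD
  obtain ⟨Φ⟩ := exists_fan L hL
  have hP0 : ∀ v i, 0 ≤ Φ.P v i := fun v i => (Φ.P_mem v).1 i
  -- linearity of D on the faces
  have hlin : ∀ F ∈ Φ.K, ∀ c : Fin Φ.n → ℝ, (∀ v, 0 ≤ c v) →
      D (∑ v ∈ F, c v • Φ.P v) = ∑ v ∈ F, c v • D (Φ.P v) := by
    intro F hF c hc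
    funext j
    have := (hDL j).sum_fan Φ hF hc
    simp only [Finset.sum_apply, Pi.smul_apply, smul_eq_mul]
    exact this
  set τ : Finset (Fin Φ.n) := univ.filter fun v => ∃ i ∈ A, Φ.P v i ≠ 0 with hτ
  have hτ0 : ∀ v, v ∉ τ → D (Φ.P v) = 0 ∧ ∀ i ∈ A, Φ.P v i = 0 := by
    intro v hv
    have h2 : ∀ i ∈ A, Φ.P v i = 0 := by
      intro i hi
      by_contra hc
      exact hv (by
        rw [hτ, mem_filter]
        exact ⟨mem_univ v, i, hi, hc⟩)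
    exact ⟨h0 _ (hP0 v) h2, h2⟩
  have hcone : ∀ F : Finset (Fin Φ.n), ∃ ε : ℝ, 0 < ε ∧ (F ∈ Φ.K → F ⊆ τ →
      ∀ c : Fin Φ.n → ℝ, (∀ v, 0 ≤ c v) → ε * ∑ v ∈ F, c v ≤ ‖∑ v ∈ F, c v • D (Φ.P v)‖) := by
    intro F
    by_cases hF : F ∈ Φ.K ∧ F ⊆ τ
    · obtain ⟨ε, hε, h2⟩ := lw_cone F (fun v => D (Φ.P v)) (by
        rintro c hc ⟨v, hv, hcv⟩
        rw [← hlin F hF.1 c hc]
        obtain ⟨i, hi, hvi⟩ := (mem_filter.1 (hF.2 hv)).2
        refine h1 _ (fun i => ?_) ⟨i, hi, ?_⟩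
        · rw [Finset.sum_apply]
          exact Finset.sum_nonneg fun v _ => mul_nonneg (hc v) (hP0 v i)
        · rw [Finset.sum_apply]
          refine ne_of_gt (Finset.sum_pos' (fun v _ => mul_nonneg (hc v) (hP0 v i)) ⟨v, hv, ?_⟩)
          exact mul_pos (lt_of_le_of_ne (hc v) (Ne.symm hcv))
            (lt_of_le_of_ne (hP0 v i) (Ne.symm hvi)))
      exact ⟨ε, hε, fun _ _ => h2⟩
    · exact ⟨1, one_pos, fun h2 h3 => absurd ⟨h2, h3⟩ hF⟩
  choose ε hε hεF using hcone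
  obtain ⟨F0, -, hF0⟩ := Finset.exists_min_image (univ : Finset (Finset (Fin Φ.n))) ε
    ⟨∅, mem_univ _⟩
  refine ⟨ε F0, hε F0, fun l hl i hi => ?_⟩
  set F : Finset (Fin Φ.n) := univ.filter fun v => Φ.nu l v ≠ 0 with hFdef
  have hF : F ∈ Φ.K := Φ.nu_mem l hl
  have hnn : ∀ v, 0 ≤ Φ.nu l v := Φ.nu_nonneg l hl
  have hG : F ∩ τ ∈ Φ.K := Φ.down F hF _ Finset.inter_subset_left
  have hz : ∀ v, v ∉ F → Φ.nu l v = 0 := by
    intro v hv
    by_contra hc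
    exact hv (mem_filter.2 ⟨mem_univ v, hc⟩)
  have e1 : ∑ v ∈ F, Φ.nu l v • Φ.P v = l := by
    rw [← Φ.nu_sum l hl]
    conv_lhs => rw [Φ.nu_sum l hl]
    exact Finset.sum_subset (Finset.subset_univ F) fun v _ hv => by rw [hz v hv, zero_smul]
  have e2 : D l = ∑ v ∈ F ∩ τ, Φ.nu l v • D (Φ.P v) := by
    rw [← e1, hlin F hF _ hnn, e1]
    refine (Finset.sum_subset Finset.inter_subset_left fun v hv hv' => ?_).symm
    rw [(hτ0 v fun h => hv' (mem_inter.2 ⟨hv, h⟩)).1, smul_zero]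
  have e3 : l i ≤ ∑ v ∈ F ∩ τ, Φ.nu l v := by
    have h2 : l i = ∑ v ∈ F, Φ.nu l v * Φ.P v i := by
      have h3 := congrFun e1 i
      rw [Finset.sum_apply] at h3
      exact h3.symm
    rw [h2, ← Finset.sum_subset (Finset.inter_subset_left (s₂ := τ)) fun v hv hv' => by
      rw [(hτ0 v fun h => hv' (mem_inter.2 ⟨hv, h⟩)).2 i hi, mul_zero]]
    refine Finset.sum_le_sum fun v _ => ?_
    refine mul_le_of_le_one_right (hnn v) ?_
    rw [← (Φ.P_mem v).2]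
    exact Finset.single_le_sum (fun j _ => hP0 v j) (Finset.mem_univ i)
  calc ε F0 * l i ≤ ε (F ∩ τ) * ∑ v ∈ F ∩ τ, Φ.nu l v :=
        mul_le_mul (hF0 _ (mem_univ _)) e3 (hl i) (hε _).le
    _ ≤ ‖∑ v ∈ F ∩ τ, Φ.nu l v • D (Φ.P v)‖ := hεF _ hG Finset.inter_subset_right _ hnn
    _ = ‖D l‖ := by rw [← e2]

end Pool.Agent.Lib.MP_fd6ff4_co.R43
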