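import Mathlib
import Pool.Agent.Lib.MP_fd6ff4_co.R43.Words
import Pool.Agent.Lib.MP_fd6ff4_co.R43.T1.Ridge.Defs

/-!
# The certificate: positions, half turns, points and phases
-/

set_option autoImplicit false

open Finset

namespace Pool.Agent.Lib.MP_fd6ff4_co.R43

/-- real coordinates of the letters -/
def xx : Fin 4 → Fin 3 → ℤ := ![![8, 0, 3], ![10, 6, 9], ![5, 10, 6], ![0, 4, 2]]

/-- complex coordinates of the letters (they are real) -/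
def zz : Fin 4 → Fin 3 → ℤ := ![![3, 0, 4], ![1, 1, 4], ![4, 11, 2], ![6, 9, 4]]

/-- the positions at the colours other than `k` -/
def xk (k : Fin 4) (i : Fin 3) : Fin 3 → ℤ := xx (k.succAbove i)

def zk (k : Fin 4) (i : Fin 3) : Fin 3 → ℤ := zz (k.succAbove i)

/-- the ridge words -/
def Wk (k : Fin 4) : Finset RW := words.image fun w i => w (k.succAbove i)

def code3 (t : RW) : ℕ := 9 * (t 0).1 + 3 * (t 1).1 + (t 2).1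

def code4 (f : Fin 4 → Fin 3) : ℕ := 27 * (f 0).1 + 9 * (f 1).1 + 3 * (f 2).1 + (f 3).1

/-- the entries `(code t, code t', T t t', v t t')` for the crossing ridge words, one list for each
colour -/
def tab : Fin 4 → List (ℕ × ℕ × ℤ × ℤ × ℤ × ℤ) := ![
    [(0, 13, 2, 9, 4, 4), (0, 14, 1, 6, 2, 7), (0, 16, -1, 11, 12, 8), (0, 22, 0, 9, 1, 1),
    (1, 12, 0, 5, 8, 5), (1, 14, 1, 11, 20, 28), (1, 15, 0, 1, 8, 1), (1, 21, 0, 1, 1, 1),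
    (2, 12, 2, 5, 6, 5), (2, 13, 0, 7, 4, 4), (2, 15, 0, 1, 6, 1), (2, 16, -1, 9, 20, 8),
    (2, 21, -2, 5, 3, 5), (2, 22, 0, 7, 1, 1), (3, 10, 1, 13, 12, 28), (3, 11, 0, 2, 2, 9),
    (3, 16, 1, 2, 1, 3), (3, 19, -1, 13, 15, 22), (5, 10, 2, 2, 2, 9), (5, 16, 0, 1, 1, 4),
    (5, 19, 0, 1, 1, 3), (6, 10, 0, 8, 4, 9), (6, 11, 1, 1, 4, 4), (6, 13, 0, 2, 1, 1),
    (6, 14, 1, 13, 4, 18), (6, 19, 2, 8, 4, 3), (6, 22, 0, 8, 1, 1), (7, 12, 0, 1, 2, 1),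
    (7, 14, 1, 1, 10, 18), (7, 21, 0, 4, 5, 4), (10, 21, 0, 8, 4, 11), (11, 21, 0, 1, 1, 4),
    (12, 19, -2, 5, 7, 5), (13, 18, -1, 13, 3, 6), (14, 18, -1, 4, 2, 1),
    (14, 19, 1, 11, 9, 6), (15, 19, 0, 1, 7, 1), (16, 18, 0, 2, 2, 1), (16, 21, -2, 4, 4, 7)],
    [(0, 13, -2, 9, 8, 8), (0, 14, -1, 24, 22, 41), (0, 16, -1, 11, 12, 19),
    (0, 22, 0, 9, 5, 5), (1, 12, 0, 5, 12, 5), (1, 14, 1, 11, 34, 41), (1, 15, 0, 1, 12, 1),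
    (1, 21, 0, 5, 9, 5), (2, 12, -2, 10, 18, 5), (2, 13, 0, 7, 8, 8), (2, 15, 0, 1, 10, 1),
    (2, 16, -1, 9, 34, 19), (2, 21, 2, 5, 7, 5), (2, 22, 0, 7, 5, 5), (3, 10, -1, 13, 12, 41),
    (3, 11, 0, 2, 2, 13), (3, 16, -1, 2, 1, 5), (3, 19, 1, 13, 19, 40), (5, 10, 0, 2, 2, 13),
    (5, 16, 0, 1, 1, 6), (5, 19, 2, 1, 1, 5), (6, 10, 2, 4, 4, 9), (6, 11, 1, 2, 22, 19),
    (6, 13, 0, 1, 1, 1), (6, 14, -1, 13, 11, 30), (6, 19, 0, 2, 2, 3), (6, 22, 0, 8, 5, 5),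
    (7, 12, 0, 1, 3, 1), (7, 14, -1, 1, 17, 30), (7, 21, 0, 4, 9, 4), (10, 21, -2, 8, 4, 11),
    (11, 21, 0, 4, 2, 11), (12, 19, 0, 5, 7, 5), (13, 18, 1, 13, 7, 1),
    (14, 18, -1, 24, 14, 1), (14, 19, -1, 11, 7, 1), (15, 19, 0, 1, 7, 1),
    (16, 18, 0, 2, 2, 1), (16, 21, 0, 4, 2, 5)],
    [(0, 13, -2, 1, 1, 3), (0, 14, 0, 1, 1, 6), (0, 16, 0, 8, 4, 17), (0, 22, 0, 4, 2, 7),
    (2, 13, 0, 1, 1, 6), (2, 16, 0, 4, 2, 17), (2, 22, 0, 2, 1, 7), (3, 10, -1, 1, 1, 1),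
    (3, 11, 0, 3, 4, 4), (3, 16, -2, 7, 8, 8), (3, 19, 0, 8, 5, 5), (4, 9, 0, 1, 3, 1),
    (4, 11, 0, 2, 5, 2), (4, 15, 0, 1, 4, 1), (4, 18, -1, 12, 19, 4), (5, 9, -1, 4, 11, 6),
    (5, 10, -1, 10, 17, 6), (5, 15, -2, 3, 10, 3), (5, 16, 0, 5, 8, 8), (5, 18, 2, 4, 7, 4),
    (5, 19, 0, 6, 5, 5), (6, 10, 1, 5, 4, 9), (6, 11, -2, 3, 8, 8), (6, 13, 1, 1, 4, 5),
    (6, 14, 0, 2, 2, 11), (6, 19, -1, 15, 19, 14), (6, 22, 1, 3, 19, 18), (7, 9, 0, 1, 12, 1),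
    (7, 11, 0, 1, 10, 1), (7, 18, 0, 1, 9, 1), (9, 22, 0, 4, 7, 4), (10, 21, 0, 8, 3, 3),
    (11, 21, 0, 2, 1, 1), (11, 22, -2, 4, 5, 4), (13, 18, -1, 12, 7, 16), (14, 18, 0, 2, 2, 7),
    (15, 22, -1, 3, 7, 3), (16, 18, -1, 15, 7, 13), (16, 21, 0, 7, 3, 3)],
    [(0, 13, 0, 5, 5, 12), (0, 14, 0, 1, 1, 12), (0, 16, 0, 10, 5, 17), (0, 22, 0, 10, 5, 14),
    (2, 13, -2, 1, 1, 3), (2, 16, 0, 8, 4, 17), (2, 22, 0, 4, 2, 7), (3, 10, 1, 28, 41, 12),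
    (3, 11, 0, 9, 16, 8), (3, 16, 0, 11, 16, 8), (3, 19, 0, 9, 5, 5), (4, 9, -2, 4, 13, 4),
    (4, 11, -2, 1, 3, 1), (4, 15, -1, 6, 41, 15), (4, 18, 1, 7, 10, 1), (5, 9, 1, 8, 19, 12),
    (5, 10, 1, 3, 5, 1), (5, 15, 0, 1, 3, 1), (5, 16, -2, 7, 8, 8), (5, 18, 0, 2, 3, 2),
    (5, 19, 0, 8, 5, 5), (6, 10, -1, 22, 41, 27), (6, 11, 2, 3, 16, 8), (6, 13, 0, 5, 5, 11),
    (6, 14, 0, 1, 1, 11), (6, 19, -1, 11, 20, 7), (6, 22, 2, 10, 5, 13), (7, 9, 0, 1, 13, 1),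
    (7, 11, 0, 1, 12, 1), (7, 18, 0, 1, 10, 1), (9, 22, -2, 8, 11, 4), (10, 21, 1, 28, 1, 16),
    (11, 21, 0, 3, 2, 1), (11, 22, 0, 4, 5, 2), (13, 18, -2, 5, 5, 7), (14, 18, 0, 1, 1, 7),
    (15, 22, 0, 6, 11, 3), (16, 18, 0, 10, 5, 7), (16, 21, -1, 6, 1, 3)]]

def look (L : List (ℕ × ℕ × ℤ × ℤ × ℤ × ℤ)) (a b : ℕ) : ℤ × ℤ × ℤ × ℤ :=
  match L.find? fun e => e.1 == a && e.2.1 == b with
  | some e => e.2.2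
  | none => (0, 1, 1, 1)

/-- the number of half turns -/
def Tk (k : Fin 4) (t t' : RW) : ℤ :=
  (look (tab k) (min (code3 t) (code3 t')) (max (code3 t) (code3 t'))).1

/-- the point on the segment -/
def vk (k : Fin 4) (t t' : RW) : Fin 3 → ℤ :=
  let e := look (tab k) (min (code3 t) (code3 t')) (max (code3 t) (code3 t'))
  ![e.2.1, e.2.2.1, e.2.2.2]

theorem Tk_symm (k : Fin 4) (t t' : RW) : Tk k t t' = Tk k t' t := by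
  rw [Tk, Tk, min_comm, max_comm]

/-- the phases of the disjoint pairs of facets: `(code f, code g, φ01, φ02, φ03, φ12, φ13, φ23)`,
where `φjk` is the phase at the edge where the coordinates `j` and `k` vanish -/
def phiTab : List (ℕ × ℕ × List ℤ) :=
    [(1, 41, [0, 0, -1, 0, -1, 0]), (1, 42, [0, 0, 0, 0, 0, 0]), (1, 48, [1, 0, 1, 0, 1, 0]),
    (1, 66, [1, 0, 1, 0, 1, 0]), (2, 40, [0, 1, 1, 1, 1, 0]), (2, 42, [0, 0, 0, 0, 0, 0]),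
    (2, 43, [0, 1, 2, 1, 2, 0]), (2, 48, [1, 0, 3, 0, 3, 0]), (2, 49, [0, 1, 1, 1, 1, 0]),
    (2, 66, [1, 0, -1, 0, -1, 0]), (2, 67, [0, 1, 1, 1, 1, 0]), (3, 38, [0, 0, 0, 0, 0, 0]),
    (3, 43, [0, -1, 0, 1, 0, 0]), (3, 46, [0, 1, 0, 1, 0, 0]), (3, 64, [0, -1, 0, -1, 0, 0]),
    (5, 43, [1, 1, 0, 1, 0, 0]), (5, 46, [1, 1, 0, 1, 0, 0]), (5, 64, [1, -1, 0, -1, 0, 0]),
    (6, 38, [1, 0, 0, 0, 0, 0]), (6, 40, [0, 1, 1, 3, 3, 0]), (6, 41, [0, 0, -1, 0, 1, 0]),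
    (6, 46, [1, -1, 0, -1, 0, 0]), (6, 49, [0, 1, 1, 1, 1, 0]), (6, 64, [1, 1, 0, 1, 0, 0]),
    (6, 67, [0, 1, 1, 1, 1, 0]), (7, 41, [0, 0, -1, 0, 1, 0]), (7, 48, [1, 0, 1, 0, 1, 0]),
    (7, 66, [1, 0, 1, 0, 1, 0]), (9, 32, [0, 0, 0, 0, 1, 0]), (9, 34, [0, 0, 0, 1, 2, 2]),
    (9, 49, [0, 0, 0, 1, 3, 3]), (9, 58, [0, 0, 0, 1, 1, 1]), (10, 30, [1, 0, 0, 0, 1, 0]),
    (10, 32, [0, -2, 0, 0, -1, -2]), (10, 33, [0, 0, 0, 0, 0, 0]),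
    (10, 48, [1, 1, 0, 0, 1, 1]), (10, 57, [1, 0, 0, 0, 1, 1]), (11, 30, [1, 1, 0, 0, 3, 2]),
    (11, 33, [0, -1, 0, 0, 0, 0]), (11, 34, [0, 0, 0, 1, 2, 2]), (11, 48, [1, 1, 0, 0, 3, 3]),
    (11, 49, [0, 0, 0, 1, 1, 1]), (11, 57, [1, 1, 0, 0, -1, -1]), (11, 58, [0, 0, 0, 1, 1, 1]),
    (12, 28, [0, 0, 0, 1, 0, 2]), (12, 29, [0, 0, -2, 0, 0, 0]), (12, 34, [0, 0, 0, 1, 0, 2]),
    (12, 46, [0, 0, 2, 1, 0, 3]), (12, 55, [0, 0, 0, -1, 0, -1]), (14, 27, [0, 1, 0, 0, 0, 2]),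
    (14, 28, [1, 0, 0, 1, 0, 2]), (14, 33, [0, 1, 0, 0, 0, 2]), (14, 34, [1, 0, 0, 1, 0, 2]),
    (14, 45, [0, 1, 2, 0, 0, 3]), (14, 46, [1, 0, 0, 1, 0, 1]), (14, 54, [0, 1, 0, 0, 0, -1]),
    (14, 55, [1, 0, 0, -1, 0, -1]), (15, 28, [1, 0, 1, -1, 0, 0]),
    (15, 29, [1, 0, 1, 0, 0, 0]), (15, 32, [0, 0, 0, 0, 1, 0]), (15, 46, [1, 0, 1, -1, 0, 1]),
    (15, 49, [0, 0, 0, 1, 1, 3]), (15, 55, [1, 0, 1, 1, 0, 1]), (15, 58, [0, 0, 0, 1, 1, 1]),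
    (16, 27, [0, 0, 1, 0, 0, 0]), (16, 29, [0, 0, 1, 0, 0, 0]), (16, 30, [1, 0, 0, 0, 1, 0]),
    (16, 32, [0, 0, 0, 0, 1, 0]), (16, 45, [0, 1, 1, 0, 0, 1]), (16, 48, [1, 3, 0, 0, 1, 3]),
    (16, 54, [0, 0, 1, 0, 0, 1]), (16, 57, [1, 0, 0, 0, 1, 1]), (18, 32, [0, 0, 0, 0, 1, 2]),
    (18, 34, [0, 0, 0, 1, 2, 0]), (18, 40, [0, 0, 1, -1, 1, 0]), (18, 41, [0, 0, 1, 0, 1, 0]),
    (18, 43, [0, 0, 0, -1, 0, 0]), (18, 58, [0, 0, 0, 1, 1, 2]),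
    (18, 67, [0, 0, 1, -1, -1, 0]), (19, 30, [1, 2, 0, 0, 1, 2]),
    (19, 32, [0, 0, 0, 0, -1, 0]), (19, 33, [0, -2, 0, 0, 0, -2]),
    (19, 41, [0, 0, -1, 0, -1, 0]), (19, 42, [0, 0, 0, 0, 0, 0]), (19, 57, [1, 2, 0, 0, 1, 2]),
    (19, 66, [1, 0, 3, 0, 1, 0]), (21, 28, [0, 0, 0, 1, 0, 0]), (21, 29, [0, 0, 2, 0, 0, 2]),
    (21, 34, [0, 0, 0, 1, 0, 0]), (21, 38, [0, 0, 0, 0, 0, 0]), (21, 43, [0, 2, 0, 1, 0, 0]),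
    (21, 55, [0, 0, 0, -1, 0, 0]), (21, 64, [0, 0, 0, -1, 0, 0]), (22, 27, [0, 0, 0, 0, 0, 0]),
    (22, 29, [0, 0, 0, 0, 0, 0]), (22, 33, [0, 0, 0, 0, 0, 0]), (22, 54, [0, 0, 0, 0, 0, 0]),
    (27, 67, [0, 1, -1, 0, 0, 1]), (28, 66, [1, 0, 1, 3, 0, 3]), (29, 66, [1, 0, -1, 1, 0, 1]),
    (29, 67, [0, 1, 1, 0, 0, 3]), (30, 64, [0, -1, 0, 0, 0, -1]), (32, 63, [0, 0, 0, 1, 2, 1]),
    (32, 64, [1, -1, 0, 0, 2, 1]), (33, 64, [1, 1, 0, 0, 1, 1]), (33, 67, [0, 1, 1, 0, 0, 1]),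
    (34, 63, [0, 0, 0, 1, 1, 1]), (34, 66, [1, 0, 1, 1, 0, 1]), (38, 57, [1, 1, 0, 1, 0, 0]),
    (40, 54, [0, 0, -2, 1, 0, 0]), (41, 54, [0, 1, 0, 1, 2, 0]), (41, 55, [1, 0, 0, 0, 2, 0]),
    (42, 55, [1, 0, 1, 0, 1, 0]), (43, 54, [0, 0, 1, 1, 1, 0]), (43, 57, [1, 0, 0, 1, 0, 0]),
    (45, 67, [0, 0, 1, 0, 0, 1]), (46, 57, [1, 2, 0, 3, 0, 0]), (46, 66, [1, 0, 3, 3, 0, 3]),
    (48, 55, [0, 0, 0, 0, 0, 0]), (48, 64, [0, 0, 0, 0, 0, 1]), (49, 54, [0, 0, 0, 1, 0, 0]),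
    (49, 63, [0, 0, 0, 1, 0, 1])]

/-- position of the pair `j < k` in the lists of `phiTab` -/
def pairIdx (j k : Fin 4) : ℕ :=
  if min j k = 0 then (max j k).1 - 1 else if min j k = 1 then (max j k).1 + 1 else 5

def phi0 (f g : Fin 4 → Fin 3) (j k : Fin 4) : ℤ :=
  match phiTab.find? fun e => e.1 == code4 f && e.2.1 == code4 g with
  | some e => e.2.2.getD (pairIdx j k) 0
  | none => 0

/-- the phase at the edge where the coordinates `j` and `k` vanish -/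
def phi (f g : Fin 4 → Fin 3) (j k : Fin 4) : ℤ :=
  if code4 f < code4 g then phi0 f g j k else phi0 g f j k + 1

end Pool.Agent.Lib.MP_fd6ff4_co.R43
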