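import Mathlib
import Pool.Agent.Lib.MP_fd6ff4_co.R43.T1.Cert

/-!
# The certificate of the phases and of the planes
-/

set_option autoImplicit false
set_option maxRecDepth 100000

open Finset

namespace Pool.Agent.Lib.MP_fd6ff4_co.R43

/-- the restriction of a word to the colours other than `k` -/
def rw3 (k : Fin 4) (f : Fin 4 → Fin 3) : RW := fun i => f (k.succAbove i)

theorem rw3_mem {k : Fin 4} {f : Fin 4 → Fin 3} (hf : f ∈ words) : rw3 k f ∈ Wk k :=
  mem_image_of_mem _ hf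

theorem phi_comm (f g : Fin 4 → Fin 3) (j k : Fin 4) : phi f g j k = phi f g k j := by
  have h : ∀ a b : Fin 4 → Fin 3, phi0 a b j k = phi0 a b k j := fun a b => by
    rw [phi0, phi0, pairIdx, pairIdx, min_comm, max_comm]
  rw [phi, phi, h, h]

theorem cert_phi : ∀ f ∈ words, ∀ g ∈ words, (∀ i, f i ≠ g i) → ∀ k c c', c < c' →
    Hit (xk k) (rw3 k f) (rw3 k g) c → Hit (xk k) (rw3 k f) (rw3 k g) c' →
    phi f g (k.succAbove c) k - phi f g (k.succAbove c') k = Tk k (rw3 k f) (rw3 k g) := by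
  decide +kernel

theorem cert_phi_even : ∀ f ∈ words, ∀ g ∈ words, (∀ i, f i ≠ g i) → ∀ k c,
    Hit (xk k) (rw3 k f) (rw3 k g) c →
    (Even (phi f g (k.succAbove c) k) ↔ 0 < sideVal (xk k) (zk k) (rw3 k f) (rw3 k g) c) := by
  decide +kernel

theorem cert_minor : ∀ i j : Fin 4, i ≠ j → ∀ a b c a' b' c' : Fin 3,
    (xx i a - xx i b) * (xx j a' - xx j c') = (xx j a' - xx j b') * (xx i a - xx i c) →
    (a = b ∧ a = c) ∨ (a' = b' ∧ a' = c') ∨ (b = c ∧ b' = c') ∨ (a = b ∧ a' = b') ∨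
      (a = c ∧ a' = c') := by
  decide +kernel

theorem planes_aux {f g h : Fin 4 → Fin 3} (hfg : f ≠ g) (hfh : f ≠ h) (hgh : g ≠ h) :
    (∃ i j, (xx i (f i) - xx i (g i)) * (xx j (f j) - xx j (h j)) ≠
      (xx j (f j) - xx j (g j)) * (xx i (f i) - xx i (h i))) ∨
    ∃ i, ∀ j, j ≠ i → f j = g j ∧ f j = h j := by
  by_contra hcon
  push_neg at hcon
  obtain ⟨h1, h2⟩ := hcon
  -- a coordinate which is not constant
  have key : ∀ i j, i ≠ j → (f i = g i ∧ f i = h i) ∨ (f j = g j ∧ f j = h j) ∨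
      (g i = h i ∧ g j = h j) ∨ (f i = g i ∧ f j = g j) ∨ (f i = h i ∧ f j = h j) :=
    fun i j hij => cert_minor i j hij (f i) (g i) (h i) (f j) (g j) (h j) (h1 i j)
  obtain ⟨i, hi⟩ : ∃ i, ¬ (f i = g i ∧ f i = h i) := by
    by_contra hc
    push_neg at hc
    exact hfg (funext fun i => (hc i).1)
  obtain ⟨j, hji, hj⟩ := h2 i
  have hj' : ¬ (f j = g j ∧ f j = h j) := fun hh => hj hh.1 hh.2
  rcases key i j (Ne.symm hji) with h3 | h3 | h3 | h3 | h3
  · exact hi h3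
  · exact hj' h3
  · -- `g = h` everywhere
    refine hgh (funext fun m => ?_)
    by_cases hm : f m = g m ∧ f m = h m
    · rw [← hm.1, hm.2]
    by_cases hmi : m = i
    · rw [hmi]; exact h3.1
    rcases key i m (Ne.symm hmi) with h4 | h4 | h4 | h4 | h4
    · exact absurd h4 hi
    · exact absurd h4 hm
    · exact h4.2
    · exact absurd ⟨h4.1, h4.1.trans h3.1⟩ hi
    · exact absurd ⟨h4.1.trans h3.1.symm, h4.1⟩ hi
  · refine hfg (funext fun m => ?_)
    by_cases hm : f m = g m ∧ f m = h m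
    · exact hm.1
    by_cases hmi : m = i
    · rw [hmi]; exact h3.1
    rcases key i m (Ne.symm hmi) with h4 | h4 | h4 | h4 | h4
    · exact absurd h4 hi
    · exact absurd h4 hm
    · exact absurd ⟨h3.1, h3.1.trans h4.1⟩ hi
    · exact h4.2
    · exact absurd ⟨h3.1, h4.1⟩ hi
  · refine hfh (funext fun m => ?_)
    by_cases hm : f m = g m ∧ f m = h m
    · exact hm.2
    by_cases hmi : m = i
    · rw [hmi]; exact h3.1
    rcases key i m (Ne.symm hmi) with h4 | h4 | h4 | h4 | h4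
    · exact absurd h4 hi
    · exact absurd h4 hm
    · exact absurd ⟨h3.1.trans h4.1.symm, h3.1⟩ hi
    · exact absurd ⟨h4.1, h3.1⟩ hi
    · exact h4.2

theorem cert_planes {f g h : Fin 4 → Fin 3} (hfg : f ≠ g) (hfh : f ≠ h) (hgh : g ≠ h) :
    (∃ i j, ((xx i (f i) : ℝ) - xx i (g i)) * (xx j (f j) - xx j (h j)) ≠
      ((xx j (f j) : ℝ) - xx j (g j)) * (xx i (f i) - xx i (h i))) ∨
    ∃ i, ∀ j, j ≠ i → f j = g j ∧ f j = h j := by
  rcases planes_aux hfg hfh hgh with ⟨i, j, hij⟩ | h1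
  · left
    exact ⟨i, j, fun hc => hij (by exact_mod_cast hc)⟩
  · exact Or.inr h1

end Pool.Agent.Lib.MP_fd6ff4_co.R43
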