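import Mathlib
import Pool.Agent.Lib.MP_fd6ff4_co.R43.T1.Cert

/-!
# The certificate of the four ridges
-/

set_option autoImplicit false
set_option maxRecDepth 100000

open Finset

namespace Pool.Agent.Lib.MP_fd6ff4_co.R43

theorem cert_inj (k : Fin 4) (i : Fin 3) : Function.Injective (xk k i) := by
  revert k i
  decide +kernel

theorem cert_indep (k : Fin 4) : ∀ t ∈ Wk k, ∀ t' ∈ Wk k, ∀ a b, a ≠ b →
    dd (xk k) t t' a < 0 → 0 < dd (xk k) t t' b →
    dd (xk k) t t' a * dd (zk k) t t' b - dd (xk k) t t' b * dd (zk k) t t' a ≠ 0 := by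
  revert k
  decide +kernel

theorem cert_pos (k : Fin 4) : ∀ t ∈ Wk k, ∀ t' ∈ Wk k, Crossing (xk k) t t' →
    ∀ i, 0 < vk k t t' i := by
  revert k
  decide +kernel

theorem cert_mem (k : Fin 4) : ∀ t ∈ Wk k, ∀ t' ∈ Wk k, Crossing (xk k) t t' →
    ∑ i, dd (xk k) t t' i * vk k t t' i = 0 := by
  revert k
  decide +kernel

theorem cert_odd (k : Fin 4) : ∀ t ∈ Wk k, ∀ t' ∈ Wk k, Crossing (xk k) t t' → ∀ c c',
    Hit (xk k) t t' c → Hit (xk k) t t' c' → 0 < sideVal (xk k) (zk k) t t' c →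
    sideVal (xk k) (zk k) t t' c' < 0 → ∑ i, dd (zk k) t t' i * vk k t t' i = 0 := by
  revert k
  decide +kernel

theorem cert_off (k : Fin 4) : ∀ t ∈ Wk k, ∀ t' ∈ Wk k, Crossing (xk k) t t' → ∀ s ∈ Wk k,
    s ≠ t → s ≠ t' → ∑ i, dd (xk k) t s i * vk k t t' i ≠ 0 := by
  revert k
  decide +kernel

theorem cert_parity (k : Fin 4) : ∀ t ∈ Wk k, ∀ t' ∈ Wk k, Crossing (xk k) t t' → ∀ c c',
    c ≠ c' → Hit (xk k) t t' c → Hit (xk k) t t' c' →
    (Even (Tk k t t') ↔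
      (0 < sideVal (xk k) (zk k) t t' c ↔ 0 < sideVal (xk k) (zk k) t t' c')) := by
  revert k
  decide +kernel

theorem ridgeCert (k : Fin 4) : RidgeCert (xk k) (zk k) (Wk k) (Tk k) (vk k) where
  x_inj := cert_inj k
  indep := cert_indep k
  v_pos := cert_pos k
  v_mem := cert_mem k
  v_odd := cert_odd k
  v_off := cert_off k
  parity := cert_parity k
  symm := Tk_symm k

end Pool.Agent.Lib.MP_fd6ff4_co.R43
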