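import Mathlib
import Pool.Agent.Lib.MP_fd6ff4_co.R43.T1.Near.Zero
import Pool.Agent.Lib.MP_fd6ff4_co.R43.T1.Near.One
import Pool.Agent.Lib.MP_fd6ff4_co.R43.T1.Near.Two

/-!
# T1, sections 1 and 2 (outer half): existence of the collar
-/

set_option autoImplicit false

open Finset

namespace Pool.Agent.Lib.MP_fd6ff4_co.R43

/-- two words which do not agree, sorted by their common letters -/
theorem pair_cases (f g : Word) (h : f ≠ g) : (∀ i, f i ≠ g i) ∨
    (∃ i, f i = g i ∧ ∀ j, j ≠ i → f j ≠ g j) ∨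
    (∃ i j, i ≠ j ∧ f i = g i ∧ f j = g j ∧ ∀ m, m ≠ i → m ≠ j → f m ≠ g m) ∨
    ∃ i, f i ≠ g i ∧ ∀ j, j ≠ i → f j = g j := by
  have key : ∀ p : Fin 4 → Bool, (∃ i, p i = false) → (∀ i, p i = false) ∨
      (∃ i, p i = true ∧ ∀ j, j ≠ i → p j = false) ∨
      (∃ i j, i ≠ j ∧ p i = true ∧ p j = true ∧ ∀ m, m ≠ i → m ≠ j → p m = false) ∨
      ∃ i, p i = false ∧ ∀ j, j ≠ i → p j = true := by
    decide +kernel
  have h1 : ∃ i, decide (f i = g i) = false := by
    by_contra hc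
    refine h (funext fun i => ?_)
    by_contra hi
    exact hc ⟨i, decide_eq_false hi⟩
  simpa only [decide_eq_true_eq, decide_eq_false_iff_not] using key (fun i => decide (f i = g i)) h1

/-- Output of the outer half: sections 0, 1, 2 of h17_R43_T1.md. -/
theorem exists_collar : ∃ (C : Collar) (ε : ℝ), 0 < ε ∧ C.Near ε := by
  obtain ⟨β, w, h⟩ := exists_sols
  refine ⟨mkCollar h, near_of_pairs fun f hf g hg hfg => ?_⟩
  rcases pair_cases f g hfg with h0 | ⟨i, hi, hd⟩ | ⟨i, j, hij, hi, hj, hd⟩ | ⟨i, hi, hd⟩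
  · exact near_zero h hf hg h0
  · exact near_one h hf hg hi hd
  · exact near_two h hf hg hij hi hj hd
  · exact near_three h hi hd

end Pool.Agent.Lib.MP_fd6ff4_co.R43
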