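import Mathlib
import Pool.Agent.Lib.MP_fd6ff4_co.R43.T1.Approx
import Pool.Agent.Lib.MP_fd6ff4_co.R43.T1.Lower
import Pool.Agent.Lib.MP_fd6ff4_co.R43.T1.Outer

/-!
# T1, section 5: the system of sheets
-/

set_option autoImplicit false

open Finset

namespace Pool.Agent.Lib.MP_fd6ff4_co.R43

/-- the complex coordinate and the real coordinate together, as a point of `ℝ ^ 3`, moved by
`q * ∑ l` -/
noncomputable def sheetPt (x : ℝ) (y : ℂ) (s : ℝ) : Fin 3 → ℝ := ![x + s, y.re + s, y.im + s]

theorem sheetPt_sub (x x' : ℝ) (y y' : ℂ) (s : ℝ) :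
    sheetPt x y s - sheetPt x' y' s = ![x - x', (y - y').re, (y - y').im] := by
  ext j
  fin_cases j <;> simp [sheetPt]

/-- the truncated sum is at most `4 h` and at most the sum -/
theorem sum_trunc_le {l : Fin 4 → ℝ} {h : ℝ} :
    ∑ j, min (l j) h ≤ 4 * h ∧ ∑ j, min (l j) h ≤ ∑ j, l j := by
  constructor
  · calc ∑ j, min (l j) h ≤ ∑ _j : Fin 4, h := Finset.sum_le_sum fun j _ => min_le_right _ _
      _ = 4 * h := by simp
  · exact Finset.sum_le_sum fun j _ => min_le_left _ _

theorem sys_bh_zero (C : Collar) (k : Fin 4) (f : Word) : C.bh k f 0 = 0 :=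
  Complex.ext (C.re_pl k f).zero (C.im_pl k f).zero

/-- The collar part of the sheet is invariant under truncation. PROOF (h63_R43_T2.md, section 0).
`l ⊓ h` is `fun j => min (l j) h`. Put `t = ∑ j, min (l j) h ≤ 4 h`. If `f` and `g` agree off `k` use
`letter`. Otherwise let `i ≠ k` with `f i ≠ g i`, so `l i ≤ d * t ≤ 4 * d * h ≤ (w / 2) * h`. If
`bh k f l ≠ 0` then `w * ∑_{j ≠ k} l j ≤ l i`, so `l j ≤ h` for `j ≠ k` and `coord` applies (to `f` and
to `g`). The same if `bh k f (l ⊓ h) ≠ 0` (if `h = 0` all of `l ⊓ h` vanishes; `bh k f 0 = 0`):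
`w * ∑_{j ≠ k} min (l j) h ≤ min (l i) h ≤ (w / 2) * h`, so `min (l j) h < h` and `l j = min (l j) h`.
The same for `g`. If all four values are zero there is nothing to do. -/
theorem bh_trunc (C : Collar) {d : ℝ} (hd : 0 ≤ d) (hdw : 8 * d ≤ C.w) (hd8 : 8 * d ≤ 1)
    {f g : Word} {l : Fin 4 → ℝ} (hl : ∀ i, 0 ≤ l i) {h : ℝ} (hh : 0 ≤ h)
    (hlh : ∀ i, f i ≠ g i → l i ≤ d * ∑ j, min (l j) h) (k : Fin 4) :
    C.bh k f l - C.bh k g l =
      C.bh k f (fun j => min (l j) h) - C.bh k g (fun j => min (l j) h) := by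
  by_cases hfg : ∀ j, j ≠ k → f j = g j
  · rw [C.letter k f g hfg, sub_self, sub_self]
  push Not at hfg
  obtain ⟨i, hik, hi⟩ := hfg
  have hw := C.w_pos
  have h1 : l i ≤ C.w / 2 * h := by
    have h2 := hlh i hi
    have h3 := (sum_trunc_le (l := l) (h := h)).1
    have h4 : d * ∑ j, min (l j) h ≤ d * (4 * h) := mul_le_mul_of_nonneg_left h3 hd
    nlinarith
  have hm : ∀ j, 0 ≤ min (l j) h := fun j => le_min (hl j) hh
  have key : ∀ u : Word, C.bh k u l = C.bh k u fun j => min (l j) h := by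
    intro u
    by_cases h0 : C.bh k u l = 0
    · by_cases h0' : C.bh k u (fun j => min (l j) h) = 0
      · rw [h0, h0']
      · rcases hh.eq_or_lt with rfl | hpos
        · exfalso
          apply h0'
          have e : (fun j => min (l j) 0) = (0 : Fin 4 → ℝ) := by
            funext j
            exact min_eq_right (hl j)
          rw [e]
          exact sys_bh_zero C k u
        · refine C.coord k u l _ fun j hj => ?_
          have h2 := C.supp k u _ hm h0' i hik
          have h3 : min (l j) h ≤ ∑ j ∈ univ.erase k, min (l j) h :=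
            Finset.single_le_sum (fun j _ => hm j) (Finset.mem_erase.2 ⟨hj, mem_univ j⟩)
          have h4 : C.w * min (l j) h ≤ C.w * (h / 2) := by
            calc C.w * min (l j) h ≤ C.w * ∑ j ∈ univ.erase k, min (l j) h :=
                  mul_le_mul_of_nonneg_left h3 hw.le
              _ ≤ min (l i) h := h2
              _ ≤ l i := min_le_left _ _
              _ ≤ C.w / 2 * h := h1
              _ = C.w * (h / 2) := by ring
          have h5 : min (l j) h ≤ h / 2 := le_of_mul_le_mul_left h4 hw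
          rcases min_choice (l j) h with h6 | h6
          · exact h6.symm
          · rw [h6] at h5
            linarith
    · refine C.coord k u l _ fun j hj => ?_
      have h2 := C.supp k u l hl h0 i hik
      have h3 : l j ≤ ∑ j ∈ univ.erase k, l j :=
        Finset.single_le_sum (fun j _ => hl j) (Finset.mem_erase.2 ⟨hj, mem_univ j⟩)
      have h4 : C.w * l j ≤ C.w * (h / 2) := by
        calc C.w * l j ≤ C.w * ∑ j ∈ univ.erase k, l j := mul_le_mul_of_nonneg_left h3 hw.le
          _ ≤ l i := h2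
          _ ≤ C.w / 2 * h := h1
          _ = C.w * (h / 2) := by ring
      have h5 : l j ≤ h / 2 := le_of_mul_le_mul_left h4 hw
      exact (min_eq_left (by linarith)).symm
  rw [key f, key g]

/-- The linear part: only the coordinates with `f i ≠ g i` matter, and they are at most
`d * (4 * h) ≤ h`, so they are not truncated. -/
theorem lin_trunc {d : ℝ} (hd : 0 ≤ d) (hd8 : 8 * d ≤ 1) {f g : Word} {l : Fin 4 → ℝ}
    (hl : ∀ i, 0 ≤ l i) {h : ℝ} (hh : 0 ≤ h) (hlh : ∀ i, f i ≠ g i → l i ≤ d * ∑ j, min (l j) h) :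
    ∀ i, f i ≠ g i → min (l i) h = l i := by
  intro i hi
  have h2 := hlh i hi
  have h3 := (sum_trunc_le (l := l) (h := h)).1
  have h4 : d * ∑ j, min (l j) h ≤ d * (4 * h) := mul_le_mul_of_nonneg_left h3 hd
  refine min_eq_left ?_
  nlinarith

/-- The inner part vanishes at `l` and at the truncated point, for `f ≠ g`. -/
theorem inner_trunc {I : Word → (Fin 4 → ℝ) → ℂ} {e d : ℝ} (hd : 0 ≤ d) (hde : d < e)
    (h0 : ∀ f, I f 0 = 0)
    (hI : ∀ f l, (∀ i, 0 ≤ l i) → I f l ≠ 0 → ∀ i, e * ∑ j, l j ≤ l i)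
    {f g : Word} (hfg : f ≠ g) {l : Fin 4 → ℝ} (hl : ∀ i, 0 ≤ l i) {h : ℝ} (hh : 0 ≤ h)
    (hlh : ∀ i, f i ≠ g i → l i ≤ d * ∑ j, min (l j) h) :
    I f l = 0 ∧ I g l = 0 ∧ I f (fun j => min (l j) h) = 0 ∧ I g (fun j => min (l j) h) = 0 := by
  obtain ⟨i, hi⟩ : ∃ i, f i ≠ g i := by
    by_contra hc
    push Not at hc
    exact hfg (funext hc)
  have key : ∀ (u : Word) (m : Fin 4 → ℝ), (∀ j, 0 ≤ m j) → m i ≤ d * ∑ j, m j → I u m = 0 := by
    intro u m hm hmi
    by_contra hne
    have h1 := hI u m hm hne i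
    have h2 : 0 ≤ ∑ j, m j := Finset.sum_nonneg fun j _ => hm j
    have h3 : ∑ j, m j = 0 := by nlinarith
    have h4 : m = 0 := by
      funext j
      exact (Finset.sum_eq_zero_iff_of_nonneg fun j _ => hm j).1 h3 j (mem_univ j)
    rw [h4] at hne
    exact hne (h0 u)
  have h1 := hlh i hi
  have h2 : l i ≤ d * ∑ j, l j := h1.trans (mul_le_mul_of_nonneg_left sum_trunc_le.2 hd)
  have h3 : min (l i) h ≤ d * ∑ j, min (l j) h := (min_le_left _ _).trans h1
  exact ⟨key f l hl h2, key g l hl h2, key f _ (fun j => le_min (hl j) hh) h3,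
    key g _ (fun j => le_min (hl j) hh) h3⟩

theorem zf_re_pl (C : Collar) (f : Word) : IsPL fun l => (C.zf f l).re := by
  have e : (fun l => (C.zf f l).re) = fun l : Fin 4 → ℝ =>
      (∑ i, (C.z i (f i)).re • (LinearMap.proj i : (Fin 4 → ℝ) →ₗ[ℝ] ℝ)) l := by
    funext l
    simp only [Collar.zf, Complex.re_sum, Complex.re_ofReal_mul, LinearMap.sum_apply,
      LinearMap.smul_apply, LinearMap.proj_apply, smul_eq_mul]
    exact Finset.sum_congr rfl fun i _ => mul_comm _ _
  rw [e]
  exact IsPL.linear _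

theorem zf_im_pl (C : Collar) (f : Word) : IsPL fun l => (C.zf f l).im := by
  have e : (fun l => (C.zf f l).im) = fun l : Fin 4 → ℝ =>
      (∑ i, (C.z i (f i)).im • (LinearMap.proj i : (Fin 4 → ℝ) →ₗ[ℝ] ℝ)) l := by
    funext l
    simp only [Collar.zf, Complex.im_sum, Complex.im_ofReal_mul, LinearMap.sum_apply,
      LinearMap.smul_apply, LinearMap.proj_apply, smul_eq_mul]
    exact Finset.sum_congr rfl fun i _ => mul_comm _ _
  rw [e]
  exact IsPL.linear _

theorem Y0_re_pl (C : Collar) (f : Word) : IsPL fun l => (C.Y0 f l).re := by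
  have e : (fun l => (C.Y0 f l).re) = fun l : Fin 4 → ℝ =>
      (C.zf f l).re + ∑ k, (C.bh k f l).re := by
    funext l
    rw [Collar.Y0, Complex.add_re, Complex.re_sum]
  rw [e]
  exact (zf_re_pl C f).add (IsPL.sum Finset.univ fun k _ => C.re_pl k f)

theorem Y0_im_pl (C : Collar) (f : Word) : IsPL fun l => (C.Y0 f l).im := by
  have e : (fun l => (C.Y0 f l).im) = fun l : Fin 4 → ℝ =>
      (C.zf f l).im + ∑ k, (C.bh k f l).im := by
    funext l
    rw [Collar.Y0, Complex.add_im, Complex.im_sum]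
  rw [e]
  exact (zf_im_pl C f).add (IsPL.sum Finset.univ fun k _ => C.im_pl k f)

/-- T1. The system of sheets: piecewise linear, positive, separated (S2) and invariant under
truncation (S3). PROOF. `exists_collar`, `pl_sheets`, and
`S f l = sheetPt (xf f l) (Y0 f l + I f l) (q * ∑ l)` with a large `q` (`IsPL.bound`). (S3):
`bh_trunc`, `lin_trunc`, `inner_trunc`, for `f = g` it is trivial. (S2): `lower_bound` for
`D = S f - S g` and `A = {i | f i ≠ g i}`: `h0` is (S3) with `h = 0` (`D 0 = 0` by `IsPL.zero`), `h1`: by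
homogeneity let `∑ l = 1`, then `D l ≠ 0` by `pl_sheets` (if `xf f l ≠ xf g l` the first coordinate is
not zero); the minimum of the constants over all the pairs. -/
theorem exists_sheets : ∃ (S : Word → (Fin 4 → ℝ) → (Fin 3 → ℝ)) (c k d : ℝ),
    0 < c ∧ 0 < k ∧ 0 < d ∧
    (∀ f j, IsPL fun l => S f l j) ∧
    (∀ f ∈ words, ∀ g ∈ words, ∀ l, (∀ i, 0 ≤ l i) → ∀ i, f i ≠ g i → c * l i ≤ ‖S f l - S g l‖) ∧
    (∀ f ∈ words, ∀ l, (∀ i, 0 ≤ l i) → ∀ j, k * ∑ i, l i ≤ S f l j) ∧
    (∀ f ∈ words, ∀ g ∈ words, ∀ l, (∀ i, 0 ≤ l i) → ∀ h, 0 ≤ h →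
      (∀ i, f i ≠ g i → l i ≤ d * ∑ j, min (l j) h) →
      S f l - S g l = S f (fun j => min (l j) h) - S g (fun j => min (l j) h)) := by
  classical
  obtain ⟨C, ε, hε, hC⟩ := exists_collar
  obtain ⟨I, hIre, hIim, hIs, hIne⟩ := pl_sheets C hε hC
  -- the piecewise linear coordinates
  have hxpl : ∀ f : Word, IsPL fun l => C.xf f l := fun f => IsPL.linear (C.xf f)
  have hre : ∀ f : Word, IsPL fun l => (C.Y0 f l + I f l).re := fun f => by
    simp only [Complex.add_re]
    exact (Y0_re_pl C f).add (hIre f)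
  have him : ∀ f : Word, IsPL fun l => (C.Y0 f l + I f l).im := fun f => by
    simp only [Complex.add_im]
    exact (Y0_im_pl C f).add (hIim f)
  have hI0 : ∀ f, I f 0 = 0 := fun f => Complex.ext (hIre f).zero (hIim f).zero
  -- the shift
  obtain ⟨q, hq⟩ : ∃ q : ℝ, ∀ f : Word, ∀ l : Fin 4 → ℝ, (∀ i, 0 ≤ l i) →
      -(q * ∑ i, l i) ≤ C.xf f l ∧ -(q * ∑ i, l i) ≤ (C.Y0 f l + I f l).re ∧
      -(q * ∑ i, l i) ≤ (C.Y0 f l + I f l).im := by
    choose a ha ha' using fun f => (hxpl f).bound
    choose b hb hb' using fun f => (hre f).bound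
    choose c hc hc' using fun f => (him f).bound
    refine ⟨∑ f, (a f + b f + c f), fun f l hl => ?_⟩
    have hs : 0 ≤ ∑ i, l i := Finset.sum_nonneg fun i _ => hl i
    have h1 : a f + b f + c f ≤ ∑ f, (a f + b f + c f) :=
      Finset.single_le_sum (f := fun f => a f + b f + c f)
        (fun g _ => add_nonneg (add_nonneg (ha g) (hb g)) (hc g)) (mem_univ f)
    have ea := neg_le_of_abs_le (ha' f l hl)
    have eb := neg_le_of_abs_le (hb' f l hl)
    have ec := neg_le_of_abs_le (hc' f l hl)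
    have hle : ∀ {t : ℝ}, t ≤ a f + b f + c f →
        t * ∑ i, l i ≤ (∑ f, (a f + b f + c f)) * ∑ i, l i :=
      fun ht => mul_le_mul_of_nonneg_right (ht.trans h1) hs
    have h2 := hle (t := a f) (by linarith [hb f, hc f])
    have h3 := hle (t := b f) (by linarith [ha f, hc f])
    have h4 := hle (t := c f) (by linarith [ha f, hb f])
    exact ⟨by linarith, by linarith, by linarith⟩
  set S : Word → (Fin 4 → ℝ) → (Fin 3 → ℝ) := fun f l =>
    sheetPt (C.xf f l) (C.Y0 f l + I f l) ((q + 1) * ∑ i, l i) with hS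
  set d : ℝ := min (C.w / 8) (min (1 / 8) (ε / 4)) with hd
  have hd0 : 0 < d := lt_min (by have := C.w_pos; positivity) (lt_min (by norm_num) (by positivity))
  have hdw : 8 * d ≤ C.w := by
    have : d ≤ C.w / 8 := min_le_left _ _
    linarith
  have hd8 : 8 * d ≤ 1 := by
    have : d ≤ 1 / 8 := (min_le_right _ _).trans (min_le_left _ _)
    linarith
  have hde : d < ε / 2 := by
    have : d ≤ ε / 4 := (min_le_right _ _).trans (min_le_right _ _)
    linarith
  have hsub : ∀ f g l, S f l - S g l = ![C.xf f l - C.xf g l,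
      ((C.Y0 f l + I f l) - (C.Y0 g l + I g l)).re,
      ((C.Y0 f l + I f l) - (C.Y0 g l + I g l)).im] := fun f g l => sheetPt_sub _ _ _ _ _
  have hpl : ∀ f j, IsPL fun l => S f l j := by
    intro f j
    have hs : IsPL (fun l : Fin 4 → ℝ => (q + 1) * ∑ i, l i) :=
      (IsPL.sum Finset.univ fun i _ => IsPL.linear (LinearMap.proj i)).smul _
    fin_cases j
    · exact (hxpl f).add hs
    · exact (hre f).add hs
    · exact (him f).add hs
  -- truncation
  have htr : ∀ f g : Word, ∀ l, (∀ i, 0 ≤ l i) → ∀ h, 0 ≤ h →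
      (∀ i, f i ≠ g i → l i ≤ d * ∑ j, min (l j) h) →
      S f l - S g l = S f (fun j => min (l j) h) - S g (fun j => min (l j) h) := by
    intro f g l hl h hh hlh
    rcases eq_or_ne f g with rfl | hfg
    · rw [sub_self, sub_self]
    have hlin := lin_trunc hd0.le hd8 hl hh hlh
    obtain ⟨i1, i2, i3, i4⟩ := inner_trunc hd0.le hde hI0 hIs hfg hl hh hlh
    have e1 : C.xf f l - C.xf g l =
        C.xf f (fun j => min (l j) h) - C.xf g (fun j => min (l j) h) := by
      simp only [C.xf_apply, ← Finset.sum_sub_distrib]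
      refine Finset.sum_congr rfl fun i _ => ?_
      by_cases hi : f i = g i
      · rw [hi, sub_self, sub_self]
      · rw [hlin i hi]
    have e2 : C.zf f l - C.zf g l =
        C.zf f (fun j => min (l j) h) - C.zf g (fun j => min (l j) h) := by
      simp only [Collar.zf, ← Finset.sum_sub_distrib]
      refine Finset.sum_congr rfl fun i _ => ?_
      by_cases hi : f i = g i
      · rw [hi, sub_self, sub_self]
      · rw [hlin i hi]
    have e3 : ∑ k, C.bh k f l - ∑ k, C.bh k g l =
        ∑ k, C.bh k f (fun j => min (l j) h) - ∑ k, C.bh k g (fun j => min (l j) h) := by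
      rw [← Finset.sum_sub_distrib, ← Finset.sum_sub_distrib]
      exact Finset.sum_congr rfl fun k _ => bh_trunc C hd0.le hdw hd8 hl hh hlh k
    have e4 : (C.Y0 f l + I f l) - (C.Y0 g l + I g l) =
        (C.Y0 f (fun j => min (l j) h) + I f (fun j => min (l j) h)) -
          (C.Y0 g (fun j => min (l j) h) + I g (fun j => min (l j) h)) := by
      rw [i1, i2, i3, i4]
      unfold Collar.Y0
      linear_combination e2 + e3
    rw [hsub, hsub, e1, e4]
  -- separation
  have hS0 : ∀ f g : Word, S f 0 - S g 0 = 0 := by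
    intro f g
    funext j
    have h1 := (hpl f j).zero
    have h2 := (hpl g j).zero
    change S f 0 j - S g 0 j = 0
    rw [h1, h2, sub_self]
  have hsep : ∀ p : Word × Word, ∃ c : ℝ, 0 < c ∧ (p.1 ∈ words → p.2 ∈ words →
      ∀ l, (∀ i, 0 ≤ l i) → ∀ i, p.1 i ≠ p.2 i → c * l i ≤ ‖S p.1 l - S p.2 l‖) := by
    rintro ⟨f, g⟩
    by_cases hfg : f ∈ words ∧ g ∈ words
    · obtain ⟨hf, hg⟩ := hfg
      obtain ⟨c, hc, hc'⟩ := lower_bound (D := fun l => S f l - S g l)
        (fun j => by
          have e : (fun l : Fin 4 → ℝ => (S f l - S g l) j) = fun l => S f l j + -1 * S g l j := by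
            funext l
            rw [Pi.sub_apply]
            ring
          rw [e]
          exact (hpl f j).add ((hpl g j).smul (-1)))
        (univ.filter fun i => f i ≠ g i)
        (fun l hl h => by
          have e : (fun j => min (l j) 0) = (0 : Fin 4 → ℝ) := by
            funext j
            exact min_eq_right (hl j)
          have h1 := htr f g l hl 0 le_rfl (fun i hi => by
            rw [h i (mem_filter.2 ⟨mem_univ i, hi⟩)]
            refine mul_nonneg hd0.le (Finset.sum_nonneg fun j _ => le_min (hl j) le_rfl))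
          change S f l - S g l = 0
          rw [h1, e]
          exact hS0 f g)
        (fun l hl => by
          rintro ⟨i, hi, hli⟩ h0
          replace hi : f i ≠ g i := (mem_filter.1 hi).2
          change S f l - S g l = 0 at h0
          rw [hsub] at h0
          have hσ : 0 < ∑ j, l j := Finset.sum_pos' (fun j _ => hl j)
            ⟨i, mem_univ i, lt_of_le_of_ne (hl i) (Ne.symm hli)⟩
          have z1 : C.xf f l - C.xf g l = 0 := by simpa using congrFun h0 0
          have z2 : ((C.Y0 f l + I f l) - (C.Y0 g l + I g l)).re = 0 := by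
            simpa using congrFun h0 1
          have z3 : ((C.Y0 f l + I f l) - (C.Y0 g l + I g l)).im = 0 := by
            simpa using congrFun h0 2
          have hi0 : 0 ≤ (∑ j, l j)⁻¹ := inv_nonneg.2 hσ.le
          have hmem : (∑ j, l j)⁻¹ • l ∈ C.PP f g := by
            refine ⟨⟨fun j => mul_nonneg hi0 (hl j), ?_⟩, ?_⟩
            · simp only [Pi.smul_apply, smul_eq_mul]
              rw [← Finset.mul_sum, inv_mul_cancel₀ hσ.ne']
            · rw [map_smul, map_smul, sub_eq_zero.1 z1]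
          refine hIne f hf g hg (fun e => hi (by rw [e])) _ hmem
            (fun hag => hi (hag i ?_)) ?_
          · rw [Pi.smul_apply, smul_eq_mul]
            exact mul_ne_zero (inv_ne_zero hσ.ne') hli
          · apply Complex.ext
            · rw [(hre f).homog hi0 hl, (hre g).homog hi0 hl]
              rw [Complex.sub_re] at z2
              rw [sub_eq_zero.1 z2]
            · rw [(him f).homog hi0 hl, (him g).homog hi0 hl]
              rw [Complex.sub_im] at z3
              rw [sub_eq_zero.1 z3])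
      exact ⟨c, hc, fun _ _ l hl i hi => hc' l hl i (mem_filter.2 ⟨mem_univ i, hi⟩)⟩
    · exact ⟨1, one_pos, fun h1 h2 => absurd ⟨h1, h2⟩ hfg⟩
  choose c hc hc' using hsep
  obtain ⟨p0, hp0⟩ := Finite.exists_min c
  refine ⟨S, c p0, 1, d, hc p0, one_pos, hd0, hpl, ?_, ?_, fun f _ g _ => htr f g⟩
  · intro f hf g hg l hl i hi
    exact (mul_le_mul_of_nonneg_right (hp0 (f, g)) (hl i)).trans (hc' (f, g) hf hg l hl i hi)
  · intro f _ l hl j
    obtain ⟨h1, h2, h3⟩ := hq f l hl
    fin_cases j
    · change 1 * ∑ i, l i ≤ C.xf f l + (q + 1) * ∑ i, l i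
      linarith
    · change 1 * ∑ i, l i ≤ (C.Y0 f l + I f l).re + (q + 1) * ∑ i, l i
      linarith
    · change 1 * ∑ i, l i ≤ (C.Y0 f l + I f l).im + (q + 1) * ∑ i, l i
      linarith

end Pool.Agent.Lib.MP_fd6ff4_co.R43
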