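import Mathlib
import Pool.Agent.Lib.MP_fd6ff4_co.R43.Sys
import Pool.Agent.Lib.MP_fd6ff4_co.R43.T1.Sys

/-!
# T1: the section system of the 43 words
-/

set_option autoImplicit false

open Finset

namespace Pool.Agent.Lib.MP_fd6ff4_co.R43

theorem exists_secSys : Nonempty (SecSys words) := by
  obtain ⟨S, c, k, d, hc, hk, hd, hpl, hsep, hpos, htr⟩ := exists_sheets
  exact ⟨{
    S := S
    pl := fun f _ j => hpl f j
    c := c
    κ := k
    δ := d
    c_pos := hc
    κ_pos := hk
    δ_pos := hd
    sep := fun f hf g hg l hl i hi => hsep f hf g hg l (fun j => hl j) i hi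
    pos := fun f hf l hl j => hpos f hf l (fun i => hl i) j
    trunc := fun f hf g hg l hl h hh hi => htr f hf g hg l (fun i => hl i) h hh hi }⟩

end Pool.Agent.Lib.MP_fd6ff4_co.R43
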