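import Mathlib

/-!
# Paths of distinct points in the plane with prescribed logarithms of the differences
-/

set_option autoImplicit false

open Finset

namespace Pool.Agent.Lib.MP_fd6ff4_co.R43

/-- the points `z` outside the finite set of the `w f` with logarithms of `s f * (z - w f)` -/
def SingleSet {J : Type*} (w s : J → ℂ) : Set (ℂ × (J → ℂ)) :=
  {p | ∀ f, Complex.exp (p.2 f) = s f * (p.1 - w f)}

/-- Translation by periods. PROOF. Add the constant to the path. -/
theorem joined_add_period {J : Type*} {w s : J → ℂ} {p q : ℂ × (J → ℂ)}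
    (h : JoinedIn (SingleSet w s) p q) {c : J → ℂ} (hc : ∀ f, Complex.exp (c f) = 1) :
    JoinedIn (SingleSet w s) (p.1, p.2 + c) (q.1, q.2 + c) := by
  obtain ⟨γ, hγ⟩ := h
  refine ⟨γ.map (f := fun x : ℂ × (J → ℂ) => (x.1, x.2 + c)) (by fun_prop), fun t f => ?_⟩
  have h1 := hγ t f
  show Complex.exp ((γ t).2 f + c f) = s f * ((γ t).1 - w f)
  rw [Complex.exp_add, hc f, mul_one, h1]

/-- Along a segment which avoids all the `w f` the logarithms can be continued. PROOF.
`l f t = l f + Complex.log ((z t - w f) / (z - w f))`, `z t = z + t (z' - z)`: the quotient is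
`1 + t (z' - z) / (z - w f)`, which is in the slit plane (if it is a real number `≤ 0` for a
`t ∈ (0, 1]` then `(z' - z) / (z - w f)` is real and `w f` is on the segment). -/
theorem joined_segment {J : Type*} {w s : J → ℂ} {z z' : ℂ} {l : J → ℂ}
    (hl : (z, l) ∈ SingleSet w s) (hw : ∀ f, w f ∉ segment ℝ z z') :
    ∃ l' : J → ℂ, JoinedIn (SingleSet w s) (z, l) (z', l') := by
  have hne : ∀ f, z - w f ≠ 0 := by
    intro f h0
    have h1 := hl f
    simp only at h1
    rw [h0, mul_zero] at h1
    exact Complex.exp_ne_zero _ h1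
  have hslit : ∀ f, ∀ t ∈ Set.Icc (0 : ℝ) 1,
      1 + (t : ℂ) * ((z' - z) / (z - w f)) ∈ Complex.slitPlane := by
    intro f t ht
    by_contra hcon
    rw [Complex.mem_slitPlane_iff, not_or, not_lt, not_not] at hcon
    obtain ⟨h1, h2⟩ := hcon
    set u := (z' - z) / (z - w f) with hu
    have h3 : 1 + t * u.re ≤ 0 := by simpa using h1
    have h4 : t * u.im = 0 := by simpa using h2
    have ht0 : t ≠ 0 := by
      rintro rfl
      rw [zero_mul] at h3
      linarith
    have htp : 0 < t := lt_of_le_of_ne ht.1 (Ne.symm ht0)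
    have h5 : u.im = 0 := by
      rcases mul_eq_zero.1 h4 with h | h
      · exact absurd h ht0
      · exact h
    have h6 : u.re ≤ -1 := by
      have h7 : t * u.re ≤ -1 := by linarith
      by_contra hh
      push Not at hh
      nlinarith [ht.2]
    have h7 : u = (u.re : ℂ) := by
      apply Complex.ext
      · simp
      · simpa using h5
    have h8 : z' - z = (u.re : ℂ) * (z - w f) := by
      rw [← h7, hu, div_mul_cancel₀ _ (hne f)]
    apply hw f
    rw [segment_eq_image]
    refine ⟨-(u.re)⁻¹, ⟨?_, ?_⟩, ?_⟩
    · have : u.re⁻¹ ≤ 0 := inv_nonpos.2 (by linarith)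
      linarith
    · have h9 : (-u.re)⁻¹ ≤ 1 := inv_le_one_of_one_le₀ (by linarith)
      rwa [inv_neg] at h9
    · have hr : (u.re : ℂ) ≠ 0 := by
        have : u.re ≠ 0 := by linarith
        exact_mod_cast this
      have hz' : z' = z + (u.re : ℂ) * (z - w f) := by linear_combination h8
      simp only [Complex.real_smul]
      rw [hz']
      push_cast
      field_simp
      ring
  refine ⟨fun f => l f + Complex.log (1 + ((z' - z) / (z - w f))), ?_⟩
  refine JoinedIn.ofLine (f := fun t : ℝ => (z + (t : ℂ) * (z' - z),
    fun f => l f + Complex.log (1 + (t : ℂ) * ((z' - z) / (z - w f))))) ?_ ?_ ?_ ?_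
  · refine ContinuousOn.prodMk (by fun_prop) (continuousOn_pi.2 fun f => ?_)
    refine continuousOn_const.add ?_
    refine ContinuousOn.clog (by fun_prop) fun t ht => hslit f t ht
  · simp
  · simp
  · rintro _ ⟨t, ht, rfl⟩ f
    simp only
    have h1 := hl f
    simp only at h1
    rw [Complex.exp_add, Complex.exp_log (Complex.slitPlane_ne_zero (hslit f t ht)), h1]
    have h2 := hne f
    field_simp
    ring

/-- PROOF. There is a point `m` such that the segments from `z` to `m` and from `m` to `z'` avoid the
finitely many `w f`: the bad points `m` are in finitely many lines, and a circle (or the curve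
`t + i t ^ 2`) meets a line in at most two points. Then `joined_segment` twice. -/
theorem joined_point {J : Type*} [Finite J] {w s : J → ℂ} {z z' : ℂ} {l : J → ℂ}
    (hl : (z, l) ∈ SingleSet w s) (hz' : ∀ f, z' ≠ w f) :
    ∃ l' : J → ℂ, JoinedIn (SingleSet w s) (z, l) (z', l') := by
  have hz : ∀ f, z ≠ w f := by
    intro f h0
    have h1 := hl f
    simp only at h1
    rw [h0, sub_self, mul_zero] at h1
    exact Complex.exp_ne_zero _ h1
  -- the bad parameters are finite in number
  have key : ∀ a b : ℂ, a ≠ b → {t : ℝ | (t ^ 2 - a.im) * (b - a).re - (t - a.re) * (b - a).im = 0}.Finite := by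
    intro a b hab
    set P : Polynomial ℝ := (Polynomial.X ^ 2 - Polynomial.C a.im) * Polynomial.C (b - a).re -
      (Polynomial.X - Polynomial.C a.re) * Polynomial.C (b - a).im with hP
    have hP0 : P ≠ 0 := by
      intro h0
      apply hab
      have e : ∀ t : ℝ, (t ^ 2 - a.im) * (b - a).re - (t - a.re) * (b - a).im = 0 := by
        intro t
        have h2 := congrArg (Polynomial.eval t) h0
        simpa [hP] using h2
      have e0 := e 0
      have e1 := e 1
      have e2 := e (-1)
      have h3 : (b - a).im = 0 := by linarith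
      have h4 : (b - a).re = 0 := by
        have e3 := e 2
        rw [h3] at e0 e3
        linarith
      have h5 : b - a = 0 := Complex.ext (by simpa using h4) (by simpa using h3)
      exact (sub_eq_zero.1 h5).symm
    refine (Polynomial.finite_setOfPred_isRoot hP0).subset fun t ht => ?_
    have h3 : Polynomial.eval t P = 0 := by
      rw [hP]
      simpa using ht
    exact h3
  have hbad : (⋃ f, ({t : ℝ | (t ^ 2 - z.im) * (w f - z).re - (t - z.re) * (w f - z).im = 0} ∪
      {t : ℝ | (t ^ 2 - z'.im) * (w f - z').re - (t - z'.re) * (w f - z').im = 0})).Finite :=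
    Set.finite_iUnion fun f => (key z (w f) (hz f)).union (key z' (w f) (hz' f))
  obtain ⟨t, ht⟩ := hbad.infinite_compl.nonempty
  simp only [Set.mem_compl_iff, Set.mem_iUnion, Set.mem_union, Set.mem_ofPred_eq, not_exists,
    not_or] at ht
  set m : ℂ := ⟨t, t ^ 2⟩ with hm
  have hseg : ∀ a b : ℂ, (t ^ 2 - a.im) * (b - a).re - (t - a.re) * (b - a).im ≠ 0 →
      b ∉ segment ℝ a m := by
    intro a b h hb
    rw [segment_eq_image'] at hb
    obtain ⟨c, hc, hcb⟩ := hb
    apply h
    have h1 : b - a = c • (m - a) := by rw [← hcb]; simp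
    rw [h1]
    simp only [Complex.real_smul, Complex.mul_re, Complex.mul_im, Complex.ofReal_re,
      Complex.ofReal_im, Complex.sub_re, Complex.sub_im, hm]
    ring
  obtain ⟨l1, hl1⟩ := joined_segment hl fun f => hseg z (w f) (ht f).1
  obtain ⟨l2, hl2⟩ := joined_segment hl1.target_mem fun f => by
    rw [segment_symm]
    exact hseg z' (w f) (ht f).2
  exact ⟨l2, hl1.trans hl2⟩

/-- PROOF. `z t = w g + (z - w g) * exp (2 π i n t)`, `l g t = l g + 2 π i n t`, and
`l f t = l f + log ((z t - w f) / (w g - w f)) - log ((z - w f) / (w g - w f))` for `f ≠ g`: the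
quotients are in the disc with the centre `1` and the radius `1`, because
`|z t - w g| < |w g - w f|`. -/
theorem joined_loop {J : Type*} [DecidableEq J] {w s : J → ℂ} {z : ℂ} {l : J → ℂ} {g : J}
    (hl : (z, l) ∈ SingleSet w s) (hz : ∀ f, f ≠ g → ‖z - w g‖ < ‖w g - w f‖) (k : ℤ) :
    JoinedIn (SingleSet w s) (z, l)
      (z, l + Pi.single g (2 * Real.pi * Complex.I * (k : ℂ))) := by
  have hgf : ∀ f, f ≠ g → w g - w f ≠ 0 := by
    intro f hf h0
    have h1 := hz f hf
    rw [h0, norm_zero] at h1
    exact absurd h1 (not_lt.2 (norm_nonneg _))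
  have hzf : ∀ f, z - w f ≠ 0 := by
    intro f h0
    have h1 := hl f
    simp only at h1
    rw [h0, mul_zero] at h1
    exact Complex.exp_ne_zero _ h1
  set Z : ℝ → ℂ := fun t => w g + (z - w g) * Complex.exp (2 * Real.pi * Complex.I * k * t)
    with hZ
  have hZc : Continuous Z := by
    rw [hZ]
    fun_prop
  have hnorm : ∀ t : ℝ, ‖Z t - w g‖ = ‖z - w g‖ := by
    intro t
    have h1 : Z t - w g = (z - w g) * Complex.exp (((2 * Real.pi * k * t : ℝ) : ℂ) * Complex.I) := by
      rw [hZ]
      simp only
      rw [add_sub_cancel_left]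
      congr 2
      push_cast
      ring
    rw [h1, norm_mul, Complex.norm_exp_ofReal_mul_I, mul_one]
  have hslit : ∀ f, f ≠ g → ∀ t : ℝ, (Z t - w f) / (w g - w f) ∈ Complex.slitPlane := by
    intro f hf t
    left
    have h1 : (Z t - w f) / (w g - w f) = 1 + (Z t - w g) / (w g - w f) := by
      have := hgf f hf
      field_simp
      ring
    have h2 : ‖(Z t - w g) / (w g - w f)‖ < 1 := by
      rw [norm_div, hnorm, div_lt_one (norm_pos_iff.2 (hgf f hf))]
      exact hz f hf
    have h3 := (abs_lt.1 (lt_of_le_of_lt (Complex.abs_re_le_norm _) h2)).1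
    rw [h1]
    simp only [Complex.add_re, Complex.one_re]
    linarith
  have hZ0 : Z 0 = z := by
    rw [hZ]
    simp
  have hZ1 : Z 1 = z := by
    rw [hZ]
    simp only [Complex.ofReal_one, mul_one]
    rw [show (2 * Real.pi * Complex.I * k : ℂ) = k * (2 * Real.pi * Complex.I) by ring,
      Complex.exp_int_mul_two_pi_mul_I]
    ring
  refine JoinedIn.ofLine (f := fun t : ℝ => (Z t, fun f => if f = g then
    l g + 2 * Real.pi * Complex.I * k * t else l f + Complex.log ((Z t - w f) / (w g - w f)) -
      Complex.log ((z - w f) / (w g - w f)))) ?_ ?_ ?_ ?_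
  · refine Continuous.continuousOn (Continuous.prodMk hZc (continuous_pi fun f => ?_))
    by_cases hf : f = g
    · simp only [hf, if_true]
      fun_prop
    · simp only [hf, if_false]
      refine (continuous_const.add ?_).sub continuous_const
      exact Continuous.clog ((hZc.sub continuous_const).div_const _) fun t => hslit f hf t
  · simp only [hZ0]
    congr 1
    funext f
    by_cases hf : f = g
    · simp [hf]
    · simp [hf]
  · simp only [hZ1]
    congr 1
    funext f
    by_cases hf : f = g
    · subst hf
      simp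
    · simp [hf]
  · rintro _ ⟨t, ht, rfl⟩ f
    simp only
    by_cases hf : f = g
    · subst hf
      have h1 := hl f
      simp only at h1
      rw [if_pos rfl, Complex.exp_add, h1, hZ]
      simp only
      ring
    · have h1 := hl f
      simp only at h1
      have h2 := hgf f hf
      have h3 := hzf f
      have h4 : (z - w f) / (w g - w f) ≠ 0 := div_ne_zero h3 h2
      rw [if_neg hf, Complex.exp_sub, Complex.exp_add,
        Complex.exp_log (Complex.slitPlane_ne_zero (hslit f hf t)), Complex.exp_log h4, h1]
      field_simp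

/-- SINGLE. PROOF. By `joined_point` one can join `(z, l)` to a point over `z'`, so let `z = z'`; then
`l' - l` is a sum of `Pi.single g (2 π i k_g)`, so let `l' - l` be one of these. Join `(z, l)` to a
point `(z₁, l₁)` near `w g` (`joined_point`; `w` is injective, so there is a radius), `joined_loop`
at `(z₁, l₁)`, and go back: `joined_add_period` of the first path. -/
theorem single_joined {J : Type*} [Finite J] {w s : J → ℂ} (hw : Function.Injective w)
    {p q : ℂ × (J → ℂ)} (hp : p ∈ SingleSet w s) (hq : q ∈ SingleSet w s) :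
    JoinedIn (SingleSet w s) p q := by
  classical
  obtain ⟨z, l⟩ := p
  obtain ⟨z', l'⟩ := q
  cases nonempty_fintype J
  have hne : ∀ (x : ℂ) (m : J → ℂ), (x, m) ∈ SingleSet w s → ∀ f, x ≠ w f := by
    intro x m hx f h0
    have h1 := hx f
    simp only at h1
    rw [h0, sub_self, mul_zero] at h1
    exact Complex.exp_ne_zero _ h1
  -- one period
  have h1 : ∀ (x : ℂ) (m : J → ℂ), (x, m) ∈ SingleSet w s → ∀ (g : J) (k : ℤ),
      JoinedIn (SingleSet w s) (x, m)
        (x, m + Pi.single g (2 * Real.pi * Complex.I * (k : ℂ))) := by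
    intro x m hx g k
    have hev : ∀ᶠ r : ℝ in nhdsWithin 0 (Set.Ioi 0), ∀ f, f ≠ g → r < ‖w g - w f‖ := by
      refine Filter.eventually_all.2 fun f => ?_
      by_cases hf : f = g
      · exact Filter.Eventually.of_forall fun r h => absurd hf h
      · have hpos : 0 < ‖w g - w f‖ := norm_pos_iff.2 (sub_ne_zero.2 fun h => hf (hw h).symm)
        filter_upwards [nhdsWithin_le_nhds (Iio_mem_nhds hpos)] with r hr _ using hr
    obtain ⟨r, hr, hr0⟩ := (hev.and self_mem_nhdsWithin).exists
    have hr0' : (0 : ℝ) < r := hr0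
    have hn : ‖(w g + (r : ℂ)) - w g‖ = r := by
      rw [add_sub_cancel_left, Complex.norm_real, Real.norm_eq_abs, abs_of_pos hr0']
    have hz1 : ∀ f, w g + (r : ℂ) ≠ w f := by
      intro f h0
      by_cases hf : f = g
      · rw [hf] at h0
        have : (r : ℂ) = 0 := by simpa using h0
        exact hr0'.ne' (by exact_mod_cast this)
      · have h2 := hr f hf
        rw [← h0, norm_sub_rev, hn] at h2
        exact lt_irrefl _ h2
    obtain ⟨m1, hm1⟩ := joined_point hx hz1
    have h3 := joined_loop hm1.target_mem (g := g) (fun f hf => by rw [hn]; exact hr f hf) k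
    have h4 : ∀ f, Complex.exp ((Pi.single g (2 * Real.pi * Complex.I * (k : ℂ)) : J → ℂ) f) = 1 := by
      intro f
      by_cases hf : f = g
      · subst hf
        rw [Pi.single_eq_same, show (2 * Real.pi * Complex.I * k : ℂ) =
          k * (2 * Real.pi * Complex.I) by ring, Complex.exp_int_mul_two_pi_mul_I]
      · rw [Pi.single_eq_of_ne hf, Complex.exp_zero]
    have h5 := joined_add_period hm1.symm h4
    exact (hm1.trans h3).trans h5
  -- several periods
  have h2 : ∀ (S : Finset J) (k : J → ℤ) (x : ℂ) (m : J → ℂ), (x, m) ∈ SingleSet w s →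
      JoinedIn (SingleSet w s) (x, m)
        (x, m + ∑ g ∈ S, Pi.single g (2 * Real.pi * Complex.I * (k g : ℂ))) := by
    intro S k
    induction S using Finset.induction_on with
    | empty =>
      intro x m hx
      rw [Finset.sum_empty, add_zero]
      exact JoinedIn.refl hx
    | insert g S hg ih =>
      intro x m hx
      have h3 := h1 x m hx g (k g)
      have h4 := ih x _ h3.target_mem
      rw [Finset.sum_insert hg, ← add_assoc]
      exact h3.trans h4
  obtain ⟨l1, hl1⟩ := joined_point hp (hne z' l' hq)
  have h3 : ∀ f, ∃ k : ℤ, l' f = l1 f + k * (2 * Real.pi * Complex.I) := by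
    intro f
    have h4 := hl1.target_mem f
    have h5 := hq f
    simp only at h4 h5
    exact Complex.exp_eq_exp_iff_exists_int.1 (h5.trans h4.symm)
  choose k hk using h3
  have h4 := h2 Finset.univ k z' l1 hl1.target_mem
  have h5 : l1 + ∑ g, Pi.single g (2 * Real.pi * Complex.I * (k g : ℂ)) = l' := by
    rw [Finset.univ_sum_single]
    funext f
    rw [Pi.add_apply, hk f]
    ring
  rw [h5] at h4
  exact hl1.trans h4

end Pool.Agent.Lib.MP_fd6ff4_co.R43
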